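import Mathlib

open MvPolynomial

namespace SAFP

noncomputable section

variable {σ τ : Type*} {k : Type*} [Field k]

/-- Grading by total degree: `X i` goes to `X i * t`. -/
def theta : MvPolynomial σ k →ₐ[k] Polynomial (MvPolynomial σ k) :=
  aeval (fun i => Polynomial.C (X i) * Polynomial.X)

theorem theta_monomial (s : σ →₀ ℕ) (c : k) :
    theta (monomial s c) = Polynomial.C (monomial s c) * Polynomial.X ^ s.degree := by
  rw [theta, aeval_monomial]
  simp only [mul_pow, Finsupp.prod_mul]
  rw [monomial_eq, map_mul, Finsupp.degree_apply]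
  have h1 : (algebraMap k (Polynomial (MvPolynomial σ k))) c = Polynomial.C (C c) := rfl
  have h2 : (s.prod fun a b => (Polynomial.C (X a : MvPolynomial σ k)) ^ b) =
      Polynomial.C (s.prod fun n e => (X n : MvPolynomial σ k) ^ e) := by
    rw [Finsupp.prod, Finsupp.prod, map_prod]
    simp
  have h3 : (s.prod fun a b => (Polynomial.X : Polynomial (MvPolynomial σ k)) ^ b) =
      Polynomial.X ^ (∑ i ∈ s.support, s i) := by
    rw [Finsupp.prod, Finset.prod_pow_eq_pow_sum]
  rw [h1, h2, h3, mul_assoc]

theorem coeff_theta (P : MvPolynomial σ k) (n : ℕ) :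
    (theta P).coeff n = homogeneousComponent n P := by
  induction P using MvPolynomial.induction_on' with
  | monomial s c =>
    rw [theta_monomial, homogeneousComponent_of_mem (isHomogeneous_monomial c rfl),
      Polynomial.coeff_C_mul, Polynomial.coeff_X_pow]
    split_ifs <;> simp
  | add p q hp hq => simp [map_add, hp, hq]

theorem natDegree_theta_le {P : MvPolynomial σ k} {n : ℕ} (h : P.totalDegree ≤ n) :
    (theta P).natDegree ≤ n := by
  rw [Polynomial.natDegree_le_iff_coeff_eq_zero]
  intro m hm
  rw [coeff_theta]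
  exact homogeneousComponent_eq_zero _ _ (lt_of_le_of_lt h hm)

theorem hc_mul {p q : MvPolynomial σ k} {m n : ℕ} (hp : p.totalDegree ≤ m)
    (hq : q.totalDegree ≤ n) :
    homogeneousComponent (m + n) (p * q) =
      homogeneousComponent m p * homogeneousComponent n q := by
  rw [← coeff_theta, ← coeff_theta, ← coeff_theta, map_mul]
  exact Polynomial.coeff_mul_add_eq_of_natDegree_le (natDegree_theta_le hp)
    (natDegree_theta_le hq)

theorem hc_pow {p : MvPolynomial σ k} {m : ℕ} (hp : p.totalDegree ≤ m) (e : ℕ) :
    homogeneousComponent (e * m) (p ^ e) = (homogeneousComponent m p) ^ e := by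
  induction e with
  | zero => simp
  | succ e ih =>
    rw [pow_succ, pow_succ, Nat.succ_mul, hc_mul _ hp, ih]
    exact le_trans (totalDegree_pow _ _) (Nat.mul_le_mul_left _ hp)

theorem hc_prod {ι : Type*} (s : Finset ι) (f : ι → MvPolynomial σ k) (m : ι → ℕ)
    (h : ∀ i ∈ s, (f i).totalDegree ≤ m i) :
    homogeneousComponent (∑ i ∈ s, m i) (∏ i ∈ s, f i) =
      ∏ i ∈ s, homogeneousComponent (m i) (f i) := by
  classical
  induction s using Finset.induction_on with
  | empty => simp
  | insert a s ha ih =>
    rw [Finset.sum_insert ha, Finset.prod_insert ha, Finset.prod_insert ha, hc_mul, ih]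
    · intro i hi; exact h i (Finset.mem_insert_of_mem hi)
    · exact h a (Finset.mem_insert_self _ _)
    · refine le_trans (totalDegree_finsetProd _ _) (Finset.sum_le_sum ?_)
      intro i hi; exact h i (Finset.mem_insert_of_mem hi)

theorem totalDegree_aeval_le {g : σ → MvPolynomial τ k} {d : ℕ}
    (hg : ∀ i, (g i).totalDegree ≤ d) (P : MvPolynomial σ k) :
    (aeval g P).totalDegree ≤ d * P.totalDegree := by
  rw [aeval_def, eval₂_eq]
  refine totalDegree_finsetSum_le ?_
  intro s hs
  refine le_trans (totalDegree_mul _ _) ?_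
  have h1 : ((algebraMap k (MvPolynomial τ k)) (coeff s P)).totalDegree = 0 := by
    exact totalDegree_C _
  rw [h1, zero_add]
  refine le_trans (totalDegree_finsetProd _ _) ?_
  refine le_trans (Finset.sum_le_sum (g := fun i => d * s i) ?_) ?_
  · intro i _
    refine le_trans (totalDegree_pow _ _) ?_
    rw [mul_comm d]
    exact Nat.mul_le_mul_left _ (hg i)
  · rw [← Finset.mul_sum]
    exact Nat.mul_le_mul_left _ (le_totalDegree hs)

/-- The leading form of a composition is the composition of the leading forms. -/
theorem hc_aeval {g : σ → MvPolynomial τ k} {d : ℕ} (hd : 0 < d)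
    (hg : ∀ i, (g i).totalDegree ≤ d) (P : MvPolynomial σ k) {D : ℕ} (hP : P.totalDegree ≤ D) :
    homogeneousComponent (d * D) (aeval g P) =
      aeval (fun i => homogeneousComponent d (g i)) (homogeneousComponent D P) := by
  rw [aeval_def, eval₂_eq, map_sum, homogeneousComponent_apply, map_sum, Finset.sum_filter]
  refine Finset.sum_congr rfl ?_
  intro s hs
  have hsD : s.degree ≤ D := le_trans (le_totalDegree hs) hP
  have h1 : ((algebraMap k (MvPolynomial τ k)) (coeff s P)) = C (coeff s P) := rfl
  have h2 : (∏ i ∈ s.support, g i ^ s i).totalDegree ≤ d * s.degree := by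
    refine le_trans (totalDegree_finsetProd _ _) ?_
    rw [Finsupp.degree_apply, Finset.mul_sum]
    refine Finset.sum_le_sum ?_
    intro i _
    refine le_trans (totalDegree_pow _ _) ?_
    rw [mul_comm d]
    exact Nat.mul_le_mul_left _ (hg i)
  rw [h1, homogeneousComponent_C_mul]
  split_ifs with h
  · subst h
    rw [Finsupp.degree_apply, Finset.mul_sum]
    rw [hc_prod _ _ (fun i => d * s i)]
    · rw [aeval_monomial, Finsupp.prod]
      congr 1
      refine Finset.prod_congr rfl ?_
      intro i _
      rw [mul_comm, hc_pow (hg i)]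
    · intro i _
      refine le_trans (totalDegree_pow _ _) ?_
      rw [mul_comm d]
      exact Nat.mul_le_mul_left _ (hg i)
  · rw [homogeneousComponent_eq_zero, mul_zero]
    refine lt_of_le_of_lt h2 ?_
    exact Nat.mul_lt_mul_of_pos_left (lt_of_le_of_ne hsD h) hd

theorem hc_totalDegree_ne_zero {P : MvPolynomial σ k} (h : P ≠ 0) :
    homogeneousComponent P.totalDegree P ≠ 0 := by
  intro h0
  have hs : P.support.Nonempty := support_nonempty.mpr h
  obtain ⟨s, hs, hmax⟩ := Finset.exists_mem_eq_sup P.support hs (fun s => s.sum fun _ e => e)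
  have h1 : coeff s (homogeneousComponent P.totalDegree P) = coeff s P := by
    rw [coeff_homogeneousComponent, if_pos]
    exact hmax.symm
  rw [h0, coeff_zero] at h1
  exact (mem_support_iff.mp hs) h1.symm

theorem totalDegree_lt_of_hc_eq_zero {P : MvPolynomial σ k} {D : ℕ} (hD : P.totalDegree ≤ D)
    (h : homogeneousComponent D P = 0) (hP : P ≠ 0) : P.totalDegree < D := by
  rcases lt_or_eq_of_le hD with h1 | h1
  · exact h1
  · exact absurd (h1 ▸ h) (hc_totalDegree_ne_zero hP)

theorem totalDegree_eq_of_hc_ne_zero {P : MvPolynomial σ k} {D : ℕ} (hD : P.totalDegree ≤ D)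
    (h : homogeneousComponent D P ≠ 0) : P.totalDegree = D := by
  rcases lt_or_eq_of_le hD with h1 | h1
  · exact absurd (homogeneousComponent_eq_zero _ _ h1) h
  · exact h1

end

end SAFP
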