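import Mathlib
import Pool.Agent.Lib.MP_4eb9bb_ag.Forms

open MvPolynomial

namespace SAFP

noncomputable section

/-- Polynomial functions on affine three-space. -/
abbrev R3 := MvPolynomial (Fin 3) ℂ

/-- Polynomials in the last two variables. -/
abbrev R2 := MvPolynomial (Fin 2) ℂ

/-- Comorphism of `(x₀, x₁, x₂) ↦ (x₂, x₁ + x₂³, x₀ + x₁² x₂ + x₂³)`. -/
def fF : R3 →ₐ[ℂ] R3 := aeval ![X 2, X 1 + X 2 ^ 3, X 0 + X 1 ^ 2 * X 2 + X 2 ^ 3]

/-- Comorphism of the inverse map. -/
def gG : R3 →ₐ[ℂ] R3 :=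
  aeval ![X 2 - (X 1 - X 0 ^ 3) ^ 2 * X 0 - X 0 ^ 3, X 1 - X 0 ^ 3, X 0]

@[simp] theorem fF_X0 : fF (X 0) = X 2 := by simp [fF]
@[simp] theorem fF_X1 : fF (X 1) = X 1 + X 2 ^ 3 := by simp [fF]
@[simp] theorem fF_X2 : fF (X 2) = X 0 + X 1 ^ 2 * X 2 + X 2 ^ 3 := by simp [fF]
@[simp] theorem gG_X0 : gG (X 0) = X 2 - (X 1 - X 0 ^ 3) ^ 2 * X 0 - X 0 ^ 3 := by simp [gG]
@[simp] theorem gG_X1 : gG (X 1) = X 1 - X 0 ^ 3 := by simp [gG]
@[simp] theorem gG_X2 : gG (X 2) = X 0 := by simp [gG]

/-- The automorphism of the polynomial ring. -/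
def fE : R3 ≃ₐ[ℂ] R3 :=
  AlgEquiv.ofAlgHom fF gG
    (by
      ext i : 1
      fin_cases i
      · simp
        ring
      · simp
      · simp)
    (by
      ext i : 1
      fin_cases i
      · simp
      · simp
      · simp
        ring)

@[simp] theorem fE_apply (P : R3) : fE P = fF P := rfl
@[simp] theorem fE_symm_apply (P : R3) : fE.symm P = gG P := rfl

theorem totalDegree_fF_le (P : R3) : (fF P).totalDegree ≤ 3 * P.totalDegree := by
  refine totalDegree_aeval_le ?_ P
  intro i
  fin_cases i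
  · simp
  · refine le_trans (totalDegree_add _ _) (max_le (by simp) ?_)
    simp
  · refine le_trans (totalDegree_add _ _) (max_le (le_trans (totalDegree_add _ _) (max_le ?_ ?_)) ?_)
    · simp
    · refine le_trans (totalDegree_mul _ _) ?_
      simp
    · simp

/-- Setting the variable `x₀` to zero. -/
def e0 : R3 →ₐ[ℂ] R2 := aeval ![0, X 0, X 1]

/-- The inclusion of polynomials in `x₁, x₂`. -/
def i2 : R2 →ₐ[ℂ] R3 := rename Fin.succ

/-- Leading part of the automorphism along `x₀ = 0` at infinity. -/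
def f2 : R2 →ₐ[ℂ] R2 := aeval ![X 1 ^ 3, X 0 ^ 2 * X 1 + X 1 ^ 3]

theorem e0_i2 (a : R2) : e0 (i2 a) = a := by
  have : e0.comp i2 = AlgHom.id ℂ R2 := by
    ext i : 1
    fin_cases i <;> simp [e0, i2]
  exact congrArg (fun φ : R2 →ₐ[ℂ] R2 => φ a) this

theorem hc3_X0 : homogeneousComponent 3 (X 2 : R3) = 0 :=
  homogeneousComponent_eq_zero _ _ (by simp)

theorem hc3_X1 : homogeneousComponent 3 (X 1 + X 2 ^ 3 : R3) = X 2 ^ 3 := by
  rw [map_add, homogeneousComponent_eq_zero _ (X 1 : R3) (by simp), zero_add]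
  exact homogeneousComponent_eq_self (isHomogeneous_X_pow _ _)

theorem hc3_X2 : homogeneousComponent 3 (X 0 + X 1 ^ 2 * X 2 + X 2 ^ 3 : R3) =
    X 1 ^ 2 * X 2 + X 2 ^ 3 := by
  rw [add_assoc, map_add, homogeneousComponent_eq_zero _ (X 0 : R3) (by simp), zero_add]
  refine homogeneousComponent_eq_self (IsHomogeneous.add ?_ (isHomogeneous_X_pow _ _))
  exact (isHomogeneous_X_pow _ _).mul (isHomogeneous_X _ _)

theorem hc_fF {P : R3} {D : ℕ} (hP : P.totalDegree ≤ D) :
    homogeneousComponent (3 * D) (fF P) = i2 (f2 (e0 (homogeneousComponent D P))) := by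
  have h := hc_aeval (g := (![X 2, X 1 + X 2 ^ 3, X 0 + X 1 ^ 2 * X 2 + X 2 ^ 3] : Fin 3 → R3))
    (d := 3) (by norm_num) (by
      intro i
      fin_cases i
      · simp
      · refine le_trans (totalDegree_add _ _) (max_le (by simp) ?_)
        simp
      · refine le_trans (totalDegree_add _ _)
          (max_le (le_trans (totalDegree_add _ _) (max_le ?_ ?_)) ?_)
        · simp
        · refine le_trans (totalDegree_mul _ _) ?_
          simp
        · simp) P hP
  refine Eq.trans h ?_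
  have : (aeval fun i => homogeneousComponent 3
      ((![X 2, X 1 + X 2 ^ 3, X 0 + X 1 ^ 2 * X 2 + X 2 ^ 3] : Fin 3 → R3) i)) =
      (i2.comp (f2.comp e0) : R3 →ₐ[ℂ] R3) := by
    ext i : 1
    fin_cases i
    · simp [hc3_X0, i2, f2, e0]
    · simp [hc3_X1, i2, f2, e0]
    · simp [hc3_X2, i2, f2, e0]
  rw [this]
  rfl

theorem f2_injective : Function.Injective f2 := by
  rw [injective_iff_map_eq_zero]
  intro h hh
  have key : h * X 0 = 0 := by
    refine MvPolynomial.funext ?_
    intro v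
    simp only [map_mul, eval_X, map_zero]
    by_cases hv : v 0 = 0
    · rw [hv, mul_zero]
    · obtain ⟨y, hy⟩ := IsAlgClosed.exists_pow_nat_eq (v 0) (n := 3) (by norm_num)
      have hy0 : y ≠ 0 := by
        rintro rfl
        apply hv
        rw [← hy]
        norm_num
      obtain ⟨x, hx⟩ := IsAlgClosed.exists_pow_nat_eq (v 1 / y - y ^ 2) (n := 2) (by norm_num)
      have h1 : eval ![x, y] (f2 h) = 0 := by rw [hh]; simp
      have h2 : (eval ![x, y]).comp (f2 : R2 →+* R2) = eval v := by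
        ext i
        · simp [f2]
        · fin_cases i
          · simp [f2, hy]
          · simp [f2, hx]
            field_simp
            ring
      have h3 : eval v h = 0 := by
        rw [← h2]
        exact h1
      rw [h3, zero_mul]
  rcases mul_eq_zero.mp key with h0 | h0
  · exact h0
  · exact absurd h0 (X_ne_zero _)

/-- Leading form restricted to `x₀ = 0`. -/
def lf (P : R3) : R2 := e0 (homogeneousComponent P.totalDegree P)

theorem lf_mul {P Q : R3} (hP : P ≠ 0) (hQ : Q ≠ 0) : lf (P * Q) = lf P * lf Q := by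
  rw [lf, totalDegree_mul_of_isDomain hP hQ, hc_mul le_rfl le_rfl, map_mul, lf, lf]

theorem lf_zero : lf 0 = 0 := by simp [lf]

theorem lf_mul' (P Q : R3) : lf (P * Q) = lf P * lf Q := by
  by_cases hP : P = 0
  · simp [hP, lf_zero]
  by_cases hQ : Q = 0
  · simp [hQ, lf_zero]
  exact lf_mul hP hQ

theorem lf_pow (P : R3) (n : ℕ) : lf (P ^ n) = lf P ^ n := by
  induction n with
  | zero => simp [lf]
  | succ n ih => rw [pow_succ, pow_succ, lf_mul', ih]

theorem lf_i2 (a : R2) : lf (i2 a) = homogeneousComponent a.totalDegree a := by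
  have h1 : (i2 a).totalDegree = a.totalDegree := by
    rw [i2]
    apply le_antisymm (totalDegree_rename_le _ _)
    conv_lhs => rw [← e0_i2 a]
    have := totalDegree_aeval_le (g := (![0, X 0, X 1] : Fin 3 → R2)) (d := 1) (by
      intro i
      fin_cases i <;> simp) (i2 a)
    rw [one_mul] at this
    exact this
  rw [lf, h1, i2, ← rename_homogeneousComponent]
  exact e0_i2 _

theorem totalDegree_i2 (a : R2) : (i2 a).totalDegree = a.totalDegree := by
    rw [i2]
    apply le_antisymm (totalDegree_rename_le _ _)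
    conv_lhs => rw [← e0_i2 a]
    have := totalDegree_aeval_le (g := (![0, X 0, X 1] : Fin 3 → R2)) (d := 1) (by
      intro i
      fin_cases i <;> simp) (i2 a)
    rw [one_mul] at this
    exact this

theorem lf_fF {P : R3} (h : lf P ≠ 0) :
    (fF P).totalDegree = 3 * P.totalDegree ∧ lf (fF P) = f2 (lf P) := by
  have h1 := hc_fF (P := P) le_rfl
  have h2 : f2 (lf P) ≠ 0 := by
    rw [← map_zero f2]
    exact fun h' => h (f2_injective h')
  have h3 : (fF P).totalDegree = 3 * P.totalDegree := by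
    apply totalDegree_eq_of_hc_ne_zero (totalDegree_fF_le P)
    rw [h1]
    intro h4
    apply h2
    have := congrArg e0 h4
    rw [e0_i2, map_zero] at this
    exact this
  refine ⟨h3, ?_⟩
  rw [lf, h3, h1, e0_i2]
  rfl

theorem lf_fE_pow {P : R3} (h : lf P ≠ 0) (n : ℕ) :
    ((fE ^ n) P).totalDegree = 3 ^ n * P.totalDegree ∧ lf ((fE ^ n) P) = (f2)^[n] (lf P) ∧
      lf ((fE ^ n) P) ≠ 0 := by
  induction n with
  | zero => simp [h]
  | succ n ih =>
    obtain ⟨h1, h2, h3⟩ := ih
    rw [pow_succ', AlgEquiv.mul_apply, fE_apply]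
    obtain ⟨h4, h5⟩ := lf_fF h3
    refine ⟨?_, ?_, ?_⟩
    · rw [h4, h1, pow_succ]; ring
    · rw [h5, h2, Function.iterate_succ_apply']
    · rw [h5]
      rw [← map_zero f2]
      exact fun h' => h3 (f2_injective h')

theorem lf_X2 : lf (X 2) = X 1 := by
  rw [lf, totalDegree_X, homogeneousComponent_eq_self (isHomogeneous_X _ _)]
  simp [e0]

end

end SAFP
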