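import Mathlib
import Pool.Agent.Lib.MP_4eb9bb_ag.Auto

open MvPolynomial

namespace SAFP

noncomputable section

/-- Elimination: a nontrivial relation modulo `P` with coefficients free of `x₀`. -/
theorem exists_relation {P : R3} (hP : P ≠ 0) :
    ∃ n0 : ℕ, ∀ Y : R3, ∃ (a : ℕ → R2) (c : R3), (∃ i ≤ n0, a i ≠ 0) ∧
      ∑ i ∈ Finset.range (n0 + 1), i2 (a i) * Y ^ i = P * c := by
  classical
  set e := finSuccEquiv ℂ 2 with he
  have he0 : ∀ a : R2, e (i2 a) = Polynomial.C a := by
    intro a
    have : (e : R3 →ₐ[ℂ] Polynomial R2).comp i2 =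
        (Algebra.ofId R2 (Polynomial R2)).restrictScalars ℂ := by
      ext i : 1
      simp [i2, he, finSuccEquiv_X_succ]
    have h := congrArg (fun φ : R2 →ₐ[ℂ] Polynomial R2 => φ a) this
    exact h
  set p := e P with hp
  have hp0 : p ≠ 0 := by
    rw [hp]
    simpa using hP
  set K2 := FractionRing R2 with hK2
  set pK := p.map (algebraMap R2 K2) with hpK
  have hinj : Function.Injective (algebraMap R2 K2) := IsFractionRing.injective R2 K2
  have hpK0 : pK ≠ 0 := by
    rw [hpK, Ne, Polynomial.map_eq_zero_iff hinj]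
    exact hp0
  refine ⟨pK.natDegree, ?_⟩
  intro Y
  set y := e Y with hy
  set el : AdjoinRoot pK := AdjoinRoot.mk pK (y.map (algebraMap R2 K2)) with hel
  have : Module.Finite K2 (AdjoinRoot pK) := (AdjoinRoot.powerBasis hpK0).finite
  set m := minpoly K2 el with hm
  have hmdeg : m.natDegree ≤ pK.natDegree := by
    have h1 := minpoly.natDegree_le (A := K2) el
    have h2 := (AdjoinRoot.powerBasis hpK0).finrank
    rw [h2] at h1
    simpa using h1
  have hint : IsIntegral K2 el := Algebra.IsIntegral.isIntegral el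
  have hm0 : m ≠ 0 := minpoly.ne_zero hint
  set m' := IsLocalization.integerNormalization (nonZeroDivisors R2) m with hm'
  obtain ⟨b, hb, hbm⟩ := IsLocalization.integerNormalization_spec (nonZeroDivisors R2) m
  have hm'0 : m' ≠ 0 := by
    rw [hm', Ne, IsFractionRing.integerNormalization_eq_zero_iff]
    exact hm0
  have hm'deg : m'.natDegree ≤ pK.natDegree := by
    refine le_trans ?_ hmdeg
    refine Polynomial.natDegree_le_iff_coeff_eq_zero.mpr ?_
    intro N hN
    by_contra hne
    have h1 : N ∈ m'.support := Polynomial.mem_support_iff.mpr hne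
    have h2 := IsLocalization.integerNormalization_support (M := nonZeroDivisors R2) m h1
    have h3 := Polynomial.le_natDegree_of_mem_supp N h2
    omega
  -- the relation in `AdjoinRoot pK`
  have hdiv : pK ∣ (Polynomial.aeval y m').map (algebraMap R2 K2) := by
    rw [← AdjoinRoot.mk_eq_zero]
    have h1 : Polynomial.aeval el m = 0 := minpoly.aeval K2 el
    have h2 : Polynomial.aeval el (m'.map (algebraMap R2 K2)) = 0 := by
      rw [hm', hbm, ← IsScalarTower.algebraMap_smul K2 b m, map_smul, h1, smul_zero]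
    have h3 : (Polynomial.aeval y m').map (algebraMap R2 K2) =
        Polynomial.aeval (y.map (algebraMap R2 K2)) (m'.map (algebraMap R2 K2)) := by
      rw [Polynomial.aeval_def, Polynomial.aeval_def, Polynomial.eval₂_map,
        ← Polynomial.coe_mapRingHom, Polynomial.hom_eval₂]
      congr 1
      refine RingHom.ext fun x => ?_
      change Polynomial.map (algebraMap R2 K2) (Polynomial.C x) =
        Polynomial.C (algebraMap R2 K2 x)
      rw [Polynomial.map_C]
    rw [h3]
    have h4 : AdjoinRoot.mk pK (Polynomial.aeval (y.map (algebraMap R2 K2))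
        (m'.map (algebraMap R2 K2))) =
        Polynomial.aeval el (m'.map (algebraMap R2 K2)) := by
      rw [hel, Polynomial.aeval_def, Polynomial.aeval_def, Polynomial.hom_eval₂]
      rfl
    rw [h4, h2]
  obtain ⟨q, hq⟩ := hdiv
  obtain ⟨b', hb', hbq⟩ := IsLocalization.integerNormalization_spec (nonZeroDivisors R2) q
  set q' := IsLocalization.integerNormalization (nonZeroDivisors R2) q with hq'
  have hrel : Polynomial.C b' * Polynomial.aeval y m' = p * q' := by
    apply Polynomial.map_injective _ hinj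
    rw [Polynomial.map_mul, Polynomial.map_mul, hq, hbq, Polynomial.map_C,
      ← IsScalarTower.algebraMap_smul K2 b' q, Polynomial.smul_eq_C_mul]
    ring
  refine ⟨fun i => b' * m'.coeff i, e.symm q', ?_, ?_⟩
  · refine ⟨m'.natDegree, hm'deg, ?_⟩
    exact mul_ne_zero (nonZeroDivisors.ne_zero hb')
      (by simpa using hm'0)
  · apply e.injective
    rw [map_mul, AlgEquiv.apply_symm_apply, ← hp, ← hrel, map_sum,
      Polynomial.aeval_eq_sum_range' (n := pK.natDegree + 1) (by omega), Finset.mul_sum]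
    refine Finset.sum_congr rfl ?_
    intro i _
    rw [map_mul, map_pow, he0, Polynomial.C_mul, ← hy, Polynomial.smul_eq_C_mul]
    ring

theorem lf_sum_of_dominant {ι : Type*} [DecidableEq ι] (s : Finset ι) (T : ι → R3) (i₀ : ι)
    (hi₀ : i₀ ∈ s)
    (h : ∀ j ∈ s, j ≠ i₀ → T j = 0 ∨ (T j).totalDegree < (T i₀).totalDegree)
    (hl : lf (T i₀) ≠ 0) : lf (∑ i ∈ s, T i) = lf (T i₀) := by
  have h1 : homogeneousComponent (T i₀).totalDegree (∑ i ∈ s, T i) =
      homogeneousComponent (T i₀).totalDegree (T i₀) := by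
    rw [map_sum, Finset.sum_eq_single_of_mem i₀ hi₀]
    intro j hj hne
    rcases h j hj hne with h2 | h2
    · rw [h2, map_zero]
    · exact homogeneousComponent_eq_zero _ _ h2
  have h2 : (∑ i ∈ s, T i).totalDegree = (T i₀).totalDegree := by
    apply totalDegree_eq_of_hc_ne_zero
    · refine totalDegree_finsetSum_le ?_
      intro j hj
      by_cases hne : j = i₀
      · rw [hne]
      · rcases h j hj hne with h2 | h2
        · rw [h2]; simp
        · exact h2.le
    · rw [h1]
      intro h3
      apply hl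
      rw [lf, h3, map_zero]
  rw [lf, h2, h1, lf]

/-- Every nonzero polynomial eventually has a nonzero leading form along the line. -/
theorem exists_lf_ne_zero {P : R3} (hP : P ≠ 0) : ∃ k : ℕ, lf ((fE ^ k) P) ≠ 0 := by
  classical
  obtain ⟨n0, hn0⟩ := exists_relation hP
  obtain ⟨k, hk⟩ : ∃ k : ℕ, n0 < 3 ^ k := ⟨n0, Nat.lt_pow_self (by norm_num)⟩
  obtain ⟨a, c, ⟨i₁, hi₁, hai₁⟩, hrel⟩ := hn0 ((fE ^ k).symm (X 2))
  refine ⟨k, ?_⟩
  have hrel2 := congrArg (fE ^ k) hrel
  rw [map_mul, map_sum] at hrel2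
  simp only [map_mul, map_pow, AlgEquiv.apply_symm_apply] at hrel2
  set T : ℕ → R3 := fun i => (fE ^ k) (i2 (a i)) * X 2 ^ i with hT
  have hA : ∀ i, a i ≠ 0 → lf (T i) ≠ 0 ∧ (T i).totalDegree = 3 ^ k * (a i).totalDegree + i := by
    intro i hi
    have h1 : lf (i2 (a i)) ≠ 0 := by
      rw [lf_i2]
      exact hc_totalDegree_ne_zero hi
    obtain ⟨h2, -, h3⟩ := lf_fE_pow h1 k
    have h4 : (fE ^ k) (i2 (a i)) ≠ 0 := by
      intro h
      rw [h, lf_zero] at h3
      exact h3 rfl
    constructor
    · rw [hT]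
      simp only
      rw [lf_mul', lf_pow, lf_X2]
      exact mul_ne_zero h3 (pow_ne_zero _ (X_ne_zero _))
    · rw [hT]
      simp only
      rw [totalDegree_mul_of_isDomain h4 (pow_ne_zero _ (X_ne_zero _)), h2, totalDegree_i2,
        totalDegree_X_pow]
  set s' := (Finset.range (n0 + 1)).filter (fun i => a i ≠ 0) with hs'
  have hs'ne : s'.Nonempty := ⟨i₁, by simp [hs', hai₁]; omega⟩
  obtain ⟨i₀, hi₀, hmax⟩ := Finset.exists_max_image s' (fun i => (T i).totalDegree) hs'ne
  rw [hs', Finset.mem_filter, Finset.mem_range] at hi₀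
  have hdom : lf (∑ i ∈ Finset.range (n0 + 1), T i) = lf (T i₀) := by
    refine lf_sum_of_dominant _ T i₀ (Finset.mem_range.mpr hi₀.1) ?_ (hA i₀ hi₀.2).1
    intro j hj hne
    by_cases haj : a j = 0
    · left
      simp [hT, haj]
    · right
      rw [Finset.mem_range] at hj
      refine lt_of_le_of_ne (hmax j (by simp [hs', haj]; omega)) ?_
      rw [(hA j haj).2, (hA i₀ hi₀.2).2]
      intro heq
      apply hne
      have h5 := congrArg (fun t => t % 3 ^ k) heq
      simp only [Nat.mul_add_mod] at h5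
      rw [Nat.mod_eq_of_lt (by omega), Nat.mod_eq_of_lt (by omega)] at h5
      exact h5
  have hfin : lf ((fE ^ k) P * (fE ^ k) c) ≠ 0 := by
    rw [← hrel2]
    have : (∑ x ∈ Finset.range (n0 + 1), (fE ^ k) (i2 (a x)) * X 2 ^ x) =
      ∑ i ∈ Finset.range (n0 + 1), T i := rfl
    rw [this, hdom]
    exact (hA i₀ hi₀.2).1
  rw [lf_mul'] at hfin
  exact left_ne_zero_of_mul hfin

end

end SAFP
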