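import Mathlib
import Pool.Agent.Lib.MP_4eb9bb_ag.Attain

open MvPolynomial

namespace SAFP

noncomputable section

/-- Reduced iterates of `(w : 1) ↦ (1 : w² + 1)`, first coordinate and second coordinate. -/
def At : ℕ → Polynomial ℂ × Polynomial ℂ
  | 0 => (Polynomial.X, 1)
  | n + 1 => ((At n).2 ^ 2, (At n).1 ^ 2 + (At n).2 ^ 2)

/-- The accumulated common factor. -/
def kap : ℕ → Polynomial ℂ
  | 0 => 1
  | n + 1 => kap n ^ 3 * (At n).2

/-- Dehomogenisation. -/
def dh : R2 →ₐ[ℂ] Polynomial ℂ := aeval ![Polynomial.X, 1]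

theorem dh_f2_iter (n : ℕ) (h : R2) :
    dh ((f2)^[n] h) = aeval ![kap n * (At n).1, kap n * (At n).2] h := by
  induction n generalizing h with
  | zero => simp [dh, At, kap]
  | succ n ih =>
    rw [Function.iterate_succ_apply, ih, f2]
    have : ((aeval ![kap n * (At n).1, kap n * (At n).2] : R2 →ₐ[ℂ] Polynomial ℂ).comp
        (aeval ![X 1 ^ 3, X 0 ^ 2 * X 1 + X 1 ^ 3] : R2 →ₐ[ℂ] R2)) =
        aeval ![kap (n + 1) * (At (n + 1)).1, kap (n + 1) * (At (n + 1)).2] := by
      ext i : 1
      fin_cases i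
      · simp [kap, At]
        ring
      · simp [kap, At]
        ring
    have h2 := congrArg (fun φ : R2 →ₐ[ℂ] Polynomial ℂ => φ h) this
    exact h2

theorem aeval_smul_homog {h : R2} {D : ℕ} (hh : h.IsHomogeneous D) (c a b : Polynomial ℂ) :
    aeval ![c * a, c * b] h = c ^ D * aeval ![a, b] h := by
  have h1 : (![c * a, c * b] : Fin 2 → Polynomial ℂ) = fun i => c * ![a, b] i := by
    funext i
    fin_cases i <;> rfl
  rw [h1, aeval_def, aeval_def]
  rw [eval₂_eq, eval₂_eq, Finset.mul_sum]
  refine Finset.sum_congr rfl ?_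
  intro s hs
  have h2 : ∑ i ∈ s.support, s i = D := by
    have h3 : Finsupp.weight (fun _ => 1) s = D := hh (mem_support_iff.mp hs)
    rw [← Finsupp.degree_eq_weight_one] at h3
    exact h3
  simp only [mul_pow, Finset.prod_mul_distrib, Finset.prod_pow_eq_pow_sum]
  rw [h2]
  ring

theorem homog_f2 {h : R2} {D : ℕ} (hh : h.IsHomogeneous D) : (f2 h).IsHomogeneous (3 * D) := by
  rw [f2]
  refine hh.aeval _ ?_
  intro i
  fin_cases i
  · exact isHomogeneous_X_pow _ _
  · refine IsHomogeneous.add ?_ (isHomogeneous_X_pow _ _)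
    exact (isHomogeneous_X_pow _ _).mul (isHomogeneous_X _ _)

theorem homog_f2_iter {h : R2} {D : ℕ} (hh : h.IsHomogeneous D) (n : ℕ) :
    ((f2)^[n] h).IsHomogeneous (3 ^ n * D) := by
  induction n with
  | zero => simpa using hh
  | succ n ih =>
    rw [Function.iterate_succ_apply']
    have := homog_f2 ih
    rw [pow_succ, mul_comm _ 3, mul_assoc]
    exact this

theorem homog_lf (P : R3) : (lf P).IsHomogeneous P.totalDegree := by
  rw [lf, e0]
  have h1 := homogeneousComponent_isHomogeneous P.totalDegree P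
  have h2 := h1.aeval (S := ℂ) (n := 1) (![0, X 0, X 1] : Fin 3 → R2) (by
    intro i
    fin_cases i
    · exact isHomogeneous_zero _ _ _
    · exact isHomogeneous_X _ _
    · exact isHomogeneous_X _ _)
  rw [one_mul] at h2
  exact h2

theorem dh_ne_zero {h : R2} {D : ℕ} (hh : h.IsHomogeneous D) (h0 : h ≠ 0) : dh h ≠ 0 := by
  intro hd
  apply h0
  have key : h * X 1 = 0 := by
    refine MvPolynomial.funext ?_
    intro v
    simp only [map_mul, eval_X, map_zero]
    by_cases hv : v 1 = 0
    · rw [hv, mul_zero]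
    · have h1 : Polynomial.eval (v 0 / v 1) (dh h) = 0 := by rw [hd]; simp
      have h2 : Polynomial.eval (v 0 / v 1) (dh h) = eval ![v 0 / v 1, 1] h := by
        rw [dh]
        have : ((Polynomial.evalRingHom (v 0 / v 1)).comp
            (aeval ![Polynomial.X, 1] : R2 →ₐ[ℂ] Polynomial ℂ).toRingHom) =
            eval ![v 0 / v 1, 1] := by
          ext i
          · simp
          · fin_cases i <;> simp
        exact congrArg (fun φ : R2 →+* ℂ => φ h) this
      have h3 : eval v h = (v 1) ^ D * eval ![v 0 / v 1, 1] h := by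
        have hv' : v = fun i => v 1 * ![v 0 / v 1, 1] i := by
          funext i
          fin_cases i
          · simp
            field_simp
          · simp
        conv_lhs => rw [hv']
        rw [eval_eq, eval_eq, Finset.mul_sum]
        refine Finset.sum_congr rfl ?_
        intro s hs
        have h2 : ∑ i ∈ s.support, s i = D := by
          have h3 : Finsupp.weight (fun _ => 1) s = D := hh (mem_support_iff.mp hs)
          rw [← Finsupp.degree_eq_weight_one] at h3
          exact h3
        simp only [mul_pow, Finset.prod_mul_distrib, Finset.prod_pow_eq_pow_sum]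
        rw [h2]
        ring
      rw [h3, ← h2, h1, mul_zero, zero_mul]
  rcases mul_eq_zero.mp key with h0 | h0
  · exact h0
  · exact absurd h0 (X_ne_zero _)

theorem At_not_both (c : ℂ) (n : ℕ) :
    (At n).1.eval c ≠ 0 ∨ (At n).2.eval c ≠ 0 := by
  induction n with
  | zero => right; simp [At]
  | succ n ih =>
    by_cases h2 : (At n).2.eval c = 0
    · right
      have h1 : (At n).1.eval c ≠ 0 := by
        rcases ih with h | h
        · exact h
        · exact absurd h2 h
      simp [At, h2, h1]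
    · left
      simp [At, h2]

/-- After a pole the orbit stays real positive. -/
theorem At_after (c : ℂ) (j : ℕ) (hj : (At j).2.eval c = 0) (m : ℕ) :
    ∃ s t : ℕ, 0 < t ∧ (At (j + 1 + m)).1.eval c = ((At j).1.eval c) ^ (2 ^ (m + 1)) * s ∧
      (At (j + 1 + m)).2.eval c = ((At j).1.eval c) ^ (2 ^ (m + 1)) * t := by
  induction m with
  | zero =>
    refine ⟨0, 1, one_pos, ?_, ?_⟩
    · simp [At, hj]
    · simp [At, hj]
  | succ m ih =>
    obtain ⟨s, t, ht, h1, h2⟩ := ih
    refine ⟨t ^ 2, s ^ 2 + t ^ 2, by positivity, ?_, ?_⟩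
    · rw [← add_assoc]
      simp only [At, Polynomial.eval_pow, h2]
      push_cast
      rw [mul_pow, ← pow_mul]
      congr 2
    · rw [← add_assoc]
      simp only [At, Polynomial.eval_pow, Polynomial.eval_add, h1, h2]
      push_cast
      rw [mul_pow, ← pow_mul, mul_pow, ← pow_mul, ← mul_add]
      congr 2

theorem At_ne_of_root (c : ℂ) (j n : ℕ) (hj : (At j).2.eval c = 0) (hn : j < n) :
    (At n).2.eval c ≠ 0 := by
  obtain ⟨m, rfl⟩ : ∃ m, n = j + 1 + m := ⟨n - (j + 1), by omega⟩
  obtain ⟨s, t, ht, -, h2⟩ := At_after c j hj m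
  rw [h2]
  have h1 : (At j).1.eval c ≠ 0 := by
    rcases At_not_both c j with h | h
    · exact h
    · exact absurd hj h
  exact mul_ne_zero (pow_ne_zero _ h1) (by exact_mod_cast ht.ne')

theorem At_vals (n : ℕ) :
    ∃ a b a' b' : ℕ, a ≤ a' ∧ b < b' ∧ (At (n + 1)).1.eval 0 = a ∧ (At (n + 1)).2.eval 0 = b ∧
      (At (n + 1)).1.eval 1 = a' ∧ (At (n + 1)).2.eval 1 = b' := by
  induction n with
  | zero =>
    refine ⟨1, 1, 1, 2, le_rfl, by norm_num, ?_, ?_, ?_, ?_⟩
    · simp [At]
    · simp [At]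
    · simp [At]
    · simp [At]
      norm_num
  | succ n ih =>
    obtain ⟨a, b, a', b', h1, h2, h3, h4, h5, h6⟩ := ih
    refine ⟨b ^ 2, a ^ 2 + b ^ 2, b' ^ 2, a' ^ 2 + b' ^ 2, ?_, ?_, ?_, ?_, ?_, ?_⟩
    · exact Nat.pow_le_pow_left h2.le 2
    · have := Nat.pow_le_pow_left h1 2
      have := Nat.pow_lt_pow_left h2 (n := 2) (by norm_num)
      omega
    · rw [At]; simp [h4]
    · rw [At]; simp [h3, h4]
    · rw [At]; simp [h6]
    · rw [At]; simp [h5, h6]

theorem exists_root_At (n : ℕ) : ∃ c : ℂ, (At (n + 1)).2.eval c = 0 := by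
  apply IsAlgClosed.exists_root
  intro hd
  have h1 := Polynomial.eq_C_of_degree_eq_zero hd
  obtain ⟨a, b, a', b', -, h2, -, h4, -, h6⟩ := At_vals n
  rw [h1] at h4 h6
  simp only [Polynomial.eval_C] at h4 h6
  rw [h4] at h6
  have : b = b' := by exact_mod_cast h6
  omega

theorem natDegree_At (n : ℕ) : (At n).1.natDegree ≤ 2 ^ n ∧ (At n).2.natDegree ≤ 2 ^ n := by
  induction n with
  | zero => simp [At]
  | succ n ih =>
    obtain ⟨h1, h2⟩ := ih
    have h3 : ((At n).1 ^ 2).natDegree ≤ 2 ^ (n + 1) := by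
      refine le_trans Polynomial.natDegree_pow_le ?_
      rw [pow_succ]; omega
    have h4 : ((At n).2 ^ 2).natDegree ≤ 2 ^ (n + 1) := by
      refine le_trans Polynomial.natDegree_pow_le ?_
      rw [pow_succ]; omega
    refine ⟨h4, ?_⟩
    exact le_trans (Polynomial.natDegree_add_le _ _) (max_le h3 h4)

theorem natDegree_aeval_homog_le {h : R2} {D : ℕ} (hh : h.IsHomogeneous D)
    {a b : Polynomial ℂ} {e : ℕ} (ha : a.natDegree ≤ e) (hb : b.natDegree ≤ e) :
    (aeval ![a, b] h).natDegree ≤ D * e := by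
  rw [aeval_def, eval₂_eq]
  refine Polynomial.natDegree_sum_le_of_forall_le _ _ ?_
  intro s hs
  have h2 : ∑ i ∈ s.support, s i = D := by
    have h3 : Finsupp.weight (fun _ => 1) s = D := hh (mem_support_iff.mp hs)
    rw [← Finsupp.degree_eq_weight_one] at h3
    exact h3
  refine le_trans (Polynomial.natDegree_C_mul_le _ _) ?_
  refine le_trans (Polynomial.natDegree_prod_le _ _) ?_
  rw [← h2, Finset.sum_mul]
  refine Finset.sum_le_sum ?_
  intro i _
  refine le_trans Polynomial.natDegree_pow_le ?_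
  refine Nat.mul_le_mul_left _ ?_
  fin_cases i
  · exact ha
  · exact hb

theorem kap_ne_zero (n : ℕ) : kap n ≠ 0 := by
  induction n with
  | zero => simp [kap]
  | succ n ih =>
    rw [kap]
    refine mul_ne_zero (pow_ne_zero _ ih) ?_
    intro h
    rcases n with _ | n
    · simp [At] at h
    · obtain ⟨a, b, a', b', -, h2, -, h4, -, h6⟩ := At_vals n
      rw [h] at h4 h6
      simp only [Polynomial.eval_zero] at h4 h6
      have : (b' : ℂ) = 0 := h6.symm
      have : b' = 0 := by exact_mod_cast this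
      omega

theorem rootMultiplicity_kap (c : ℂ) (j : ℕ) (hj : (At j).2.eval c = 0) (m : ℕ) :
    3 ^ m ≤ (kap (j + 1 + m)).rootMultiplicity c := by
  induction m with
  | zero =>
    rw [pow_zero, add_zero]
    refine (Polynomial.rootMultiplicity_pos (kap_ne_zero _)).mpr ?_
    rw [kap, Polynomial.IsRoot, Polynomial.eval_mul, hj, mul_zero]
  | succ m ih =>
    rw [← add_assoc]
    have h0 := kap_ne_zero (j + 1 + m + 1)
    rw [kap] at h0 ⊢
    rw [Polynomial.rootMultiplicity_mul h0]
    have h3 : (kap (j + 1 + m) ^ 3).rootMultiplicity c =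
        3 * (kap (j + 1 + m)).rootMultiplicity c := by
      have hk := kap_ne_zero (j + 1 + m)
      rw [pow_succ, pow_two, Polynomial.rootMultiplicity_mul (by
        exact mul_ne_zero (mul_ne_zero hk hk) hk), Polynomial.rootMultiplicity_mul (by
        exact mul_ne_zero hk hk)]
      ring
    rw [h3, pow_succ]
    omega

theorem rootMult_le_natDegree {p : Polynomial ℂ} (hp : p ≠ 0) (c : ℂ) :
    p.rootMultiplicity c ≤ p.natDegree := by
  have h1 := Polynomial.natDegree_le_of_dvd (Polynomial.pow_rootMultiplicity_dvd p c) hp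
  rwa [Polynomial.natDegree_pow, Polynomial.natDegree_X_sub_C, mul_one] at h1

/-- The divisibility forced by a finitely generated local ring is impossible. -/
theorem no_divisibility {hP hQ : R2} {p q : ℕ} (hhP : hP.IsHomogeneous p)
    (hhQ : hQ.IsHomogeneous q) (hP0 : hP ≠ 0) (hQ0 : hQ ≠ 0) (hpq : p < q)
    (H : ∀ n : ℕ, ∃ D : ℕ, (f2)^[n] hQ ∣ (f2)^[n] hP * hQ ^ D) : False := by
  classical
  have hdQ : dh hQ ≠ 0 := dh_ne_zero hhQ hQ0
  -- choose a point of the backward orbit which is not a root of `hQ`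
  obtain ⟨j, c, hjc, hc⟩ : ∃ (j : ℕ) (c : ℂ), (At j).2.eval c = 0 ∧ (dh hQ).eval c ≠ 0 := by
    by_contra hcon
    push Not at hcon
    choose r hr using exists_root_At
    have hinj : Function.Injective r := by
      intro m n hmn
      rcases lt_trichotomy m n with h | h | h
      · exfalso
        exact At_ne_of_root (r m) (m + 1) (n + 1) (hr m) (by omega) (hmn ▸ hr n)
      · exact h
      · exfalso
        exact At_ne_of_root (r n) (n + 1) (m + 1) (hr n) (by omega) (hmn ▸ hr m)
    have hsub : Set.range r ⊆ {x | (dh hQ).IsRoot x} := by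
      rintro _ ⟨n, rfl⟩
      exact hcon (n + 1) (r n) (hr n)
    exact (Set.infinite_range_of_injective hinj).mono hsub
      (Polynomial.finite_setOfPred_isRoot hdQ)
  have key : ∀ m : ℕ, 3 ^ m ≤ p * 2 ^ (j + 1 + m) := by
    intro m
    obtain ⟨D, hD⟩ := H (j + 1 + m)
    set n := j + 1 + m with hn
    have h1 : dh ((f2)^[n] hQ) ∣ dh ((f2)^[n] hP) * (dh hQ) ^ D := by
      have := map_dvd dh hD
      rwa [map_mul, map_pow] at this
    have hP1 : (f2)^[n] hP ≠ 0 := by
      intro h
      apply hP0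
      have := Function.Injective.iterate f2_injective n
      apply this
      rw [h, iterate_map_zero]
    have hP2 : dh ((f2)^[n] hP) ≠ 0 := dh_ne_zero (homog_f2_iter hhP n) hP1
    have hQ1 : (f2)^[n] hQ ≠ 0 := by
      intro h
      apply hQ0
      have := Function.Injective.iterate f2_injective n
      apply this
      rw [h, iterate_map_zero]
    have hQ2 : dh ((f2)^[n] hQ) ≠ 0 := dh_ne_zero (homog_f2_iter hhQ n) hQ1
    have hprod : dh ((f2)^[n] hP) * (dh hQ) ^ D ≠ 0 := mul_ne_zero hP2 (pow_ne_zero _ hdQ)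
    have h2 := Polynomial.rootMultiplicity_le_rootMultiplicity_of_dvd hprod h1 c
    rw [Polynomial.rootMultiplicity_mul hprod] at h2
    have h3 : ((dh hQ) ^ D).rootMultiplicity c = 0 := by
      apply Polynomial.rootMultiplicity_eq_zero
      rw [Polynomial.IsRoot, Polynomial.eval_pow]
      exact pow_ne_zero _ hc
    rw [h3, add_zero] at h2
    rw [dh_f2_iter, dh_f2_iter, aeval_smul_homog hhQ, aeval_smul_homog hhP] at h2
    rw [dh_f2_iter, aeval_smul_homog hhQ] at hQ2
    rw [dh_f2_iter, aeval_smul_homog hhP] at hP2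
    rw [Polynomial.rootMultiplicity_mul hQ2, Polynomial.rootMultiplicity_mul hP2] at h2
    have hpow : ∀ e : ℕ, ((kap n) ^ e).rootMultiplicity c = e * (kap n).rootMultiplicity c := by
      intro e
      induction e with
      | zero => simp
      | succ e ih =>
        rw [pow_succ, Polynomial.rootMultiplicity_mul
          (mul_ne_zero (pow_ne_zero _ (kap_ne_zero n)) (kap_ne_zero n)), ih]
        ring
    rw [hpow, hpow] at h2
    have h4 : (aeval ![(At n).1, (At n).2] hP).rootMultiplicity c ≤ p * 2 ^ n := by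
      have hne : aeval ![(At n).1, (At n).2] hP ≠ 0 := right_ne_zero_of_mul hP2
      refine le_trans (rootMult_le_natDegree hne c) ?_
      exact natDegree_aeval_homog_le hhP (natDegree_At n).1 (natDegree_At n).2
    have h5 := rootMultiplicity_kap c j hjc m
    rw [← hn] at h5
    have h6 : (p + 1) * (kap n).rootMultiplicity c ≤ q * (kap n).rootMultiplicity c :=
      Nat.mul_le_mul_right _ hpq
    have h7 : (p + 1) * (kap n).rootMultiplicity c =
      p * (kap n).rootMultiplicity c + (kap n).rootMultiplicity c := by ring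
    omega
  -- exponential growth
  have h1 : ∀ m : ℕ, (3 / 2 : ℝ) ^ m ≤ p * 2 ^ (j + 1) := by
    intro m
    have h2 : ((3 : ℝ)) ^ m ≤ p * 2 ^ (j + 1 + m) := by exact_mod_cast key m
    rw [div_pow, div_le_iff₀ (by positivity)]
    rw [pow_add] at h2
    linarith
  obtain ⟨m, hm⟩ := pow_unbounded_of_one_lt ((p : ℝ) * 2 ^ (j + 1)) (by norm_num : (1 : ℝ) < 3 / 2)
  exact absurd (h1 m) (not_le.mpr hm)

end

end SAFP
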