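import Mathlib

namespace SAFP

/-- Integer valued discrete valuations, trivial on the complex numbers
(the value at zero is irrelevant). -/
structure DVal (K : Type*) [Field K] [Algebra ℂ K] where
  v : K → ℤ
  v_mul : ∀ {x y : K}, x ≠ 0 → y ≠ 0 → v (x * y) = v x + v y
  v_add : ∀ {x y : K}, x ≠ 0 → y ≠ 0 → x + y ≠ 0 → min (v x) (v y) ≤ v (x + y)
  v_const : ∀ c : ℂ, c ≠ 0 → v (algebraMap ℂ K c) = 0

namespace DVal

variable {K : Type*} [Field K] [Algebra ℂ K] (ν : DVal K)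

/-- `x` has value at least `k` (zero included). -/
def ge (x : K) (k : ℤ) : Prop := x = 0 ∨ k ≤ ν.v x

theorem v_one : ν.v 1 = 0 := by
  have := ν.v_const 1 one_ne_zero
  rwa [map_one] at this

theorem v_neg {x : K} (hx : x ≠ 0) : ν.v (-x) = ν.v x := by
  have h1 : -x = algebraMap ℂ K (-1) * x := by simp
  rw [h1, ν.v_mul (by simp) hx, ν.v_const (-1) (by norm_num), zero_add]

theorem v_inv {x : K} (hx : x ≠ 0) : ν.v x⁻¹ = -ν.v x := by
  have h := ν.v_mul hx (inv_ne_zero hx)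
  rw [mul_inv_cancel₀ hx, ν.v_one] at h
  omega

theorem v_div {x y : K} (hx : x ≠ 0) (hy : y ≠ 0) : ν.v (x / y) = ν.v x - ν.v y := by
  rw [div_eq_mul_inv, ν.v_mul hx (inv_ne_zero hy), ν.v_inv hy]
  ring

theorem v_pow {x : K} (hx : x ≠ 0) (n : ℕ) : ν.v (x ^ n) = n * ν.v x := by
  induction n with
  | zero => simp [ν.v_one]
  | succ n ih =>
    rw [pow_succ, ν.v_mul (pow_ne_zero _ hx) hx, ih]
    push_cast
    ring

theorem ge_zero (k : ℤ) : ν.ge 0 k := Or.inl rfl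

theorem ge_of_le {x : K} {k : ℤ} (h : k ≤ ν.v x) : ν.ge x k := Or.inr h

theorem ge_self (x : K) : ν.ge x (ν.v x) := Or.inr le_rfl

theorem le_of_ge {x : K} {k : ℤ} (h : ν.ge x k) (hx : x ≠ 0) : k ≤ ν.v x := by
  rcases h with h | h
  · exact absurd h hx
  · exact h

theorem ge_mono {x : K} {k l : ℤ} (h : ν.ge x k) (hl : l ≤ k) : ν.ge x l := by
  rcases h with h | h
  · exact Or.inl h
  · exact Or.inr (le_trans hl h)

theorem ge_neg {x : K} {k : ℤ} (h : ν.ge x k) : ν.ge (-x) k := by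
  rcases h with h | h
  · left; rw [h, neg_zero]
  · by_cases hx : x = 0
    · left; rw [hx, neg_zero]
    · right; rwa [ν.v_neg hx]

theorem ge_add {x y : K} {k : ℤ} (hx : ν.ge x k) (hy : ν.ge y k) : ν.ge (x + y) k := by
  by_cases hx0 : x = 0
  · rwa [hx0, zero_add]
  by_cases hy0 : y = 0
  · rwa [hy0, add_zero]
  by_cases hxy : x + y = 0
  · exact Or.inl hxy
  right
  have h1 := ν.le_of_ge hx hx0
  have h2 := ν.le_of_ge hy hy0
  exact le_trans (le_min h1 h2) (ν.v_add hx0 hy0 hxy)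

theorem ge_sub {x y : K} {k : ℤ} (hx : ν.ge x k) (hy : ν.ge y k) : ν.ge (x - y) k := by
  rw [sub_eq_add_neg]
  exact ν.ge_add hx (ν.ge_neg hy)

theorem ge_mul {x y : K} {k l : ℤ} (hx : ν.ge x k) (hy : ν.ge y l) : ν.ge (x * y) (k + l) := by
  by_cases hx0 : x = 0
  · left; rw [hx0, zero_mul]
  by_cases hy0 : y = 0
  · left; rw [hy0, mul_zero]
  right
  rw [ν.v_mul hx0 hy0]
  exact add_le_add (ν.le_of_ge hx hx0) (ν.le_of_ge hy hy0)

theorem ge_const (c : ℂ) : ν.ge (algebraMap ℂ K c) 0 := by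
  by_cases hc : c = 0
  · left; rw [hc, map_zero]
  · right; rw [ν.v_const c hc]

theorem ge_one : ν.ge 1 0 := Or.inr (by rw [ν.v_one])

theorem ge_pow {x : K} {k : ℤ} (hx : ν.ge x k) (n : ℕ) : ν.ge (x ^ n) (n * k) := by
  induction n with
  | zero => simp [ν.ge_one]
  | succ n ih =>
    rw [pow_succ]
    have := ν.ge_mul ih hx
    refine ν.ge_mono this ?_
    push_cast
    linarith

theorem ge_sum {ι : Type*} (s : Finset ι) (f : ι → K) {k : ℤ} (h : ∀ i ∈ s, ν.ge (f i) k) :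
    ν.ge (∑ i ∈ s, f i) k := by
  classical
  induction s using Finset.induction_on with
  | empty => simp [ν.ge_zero]
  | insert a s ha ih =>
    rw [Finset.sum_insert ha]
    exact ν.ge_add (h a (Finset.mem_insert_self _ _))
      (ih fun i hi => h i (Finset.mem_insert_of_mem hi))

theorem v_add_eq {x y : K} (hx : x ≠ 0) (hy : ν.ge y (ν.v x + 1)) :
    x + y ≠ 0 ∧ ν.v (x + y) = ν.v x := by
  by_cases hy0 : y = 0
  · rw [hy0, add_zero]; exact ⟨hx, rfl⟩
  have h1 := ν.le_of_ge hy hy0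
  have hne : x + y ≠ 0 := by
    intro h
    have h2 : y = -x := by linear_combination h
    rw [h2, ν.v_neg hx] at h1
    omega
  refine ⟨hne, ?_⟩
  have h3 := ν.v_add hx hy0 hne
  have h4 : ν.ge x (min (ν.v (x + y)) (ν.v y)) := by
    have h5 : x = (x + y) - y := by ring
    have h6 : ν.ge ((x + y) - y) (min (ν.v (x + y)) (ν.v y)) :=
      ν.ge_sub (ν.ge_mono (ν.ge_self _) (min_le_left _ _))
        (ν.ge_mono (ν.ge_self _) (min_le_right _ _))
    rwa [← h5] at h6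
  have h7 := ν.le_of_ge h4 hx
  omega

theorem v_add_eq' {x y : K} (hx : x ≠ 0) (hy : ν.ge y (ν.v x + 1)) :
    y + x ≠ 0 ∧ ν.v (y + x) = ν.v x := by
  rw [add_comm]; exact ν.v_add_eq hx hy

/-- Bounded operators. -/
def Bdd (D : K → K) : Prop := ∃ C : ℤ, ∀ x : K, x ≠ 0 → ν.ge (D x) (ν.v x - C)

/-- The Jacobian determinant with respect to three derivations. -/
noncomputable def jac (D : Fin 3 → Derivation ℂ K K) (a b c : K) : K :=
  D 0 a * (D 1 b * D 2 c - D 2 b * D 1 c) - D 1 a * (D 0 b * D 2 c - D 2 b * D 0 c) +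
    D 2 a * (D 0 b * D 1 c - D 1 b * D 0 c)

theorem ge_jac {D : Fin 3 → Derivation ℂ K K} (hD : ∀ i, ν.Bdd (D i)) :
    ∃ C : ℤ, 0 ≤ C ∧ ∀ a b c : K, a ≠ 0 → b ≠ 0 → c ≠ 0 →
      ν.ge (jac D a b c) (ν.v a + ν.v b + ν.v c - C) := by
  choose C hC using hD
  set M := max (max (C 0) (C 1)) (max (C 2) 0) with hM
  have hM' : ∀ i, C i ≤ M := by
    intro i
    fin_cases i
    · exact le_trans (le_max_left _ _) (le_max_left _ _)
    · exact le_trans (le_max_right _ _) (le_max_left _ _)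
    · exact le_trans (le_max_left _ _) (le_max_right _ _)
  have hM0 : 0 ≤ M := le_trans (le_max_right _ _) (le_max_right _ _)
  have h1 : ∀ i, ∀ x : K, x ≠ 0 → ν.ge (D i x) (ν.v x - M) := fun i x hx =>
    ν.ge_mono (hC i x hx) (by have := hM' i; omega)
  refine ⟨3 * M, by omega, ?_⟩
  intro a b c ha hb hc
  have key : ∀ i j k, ν.ge (D i a * (D j b * D k c)) (ν.v a + ν.v b + ν.v c - 3 * M) := by
    intro i j k
    refine ν.ge_mono (ν.ge_mul (h1 i a ha) (ν.ge_mul (h1 j b hb) (h1 k c hc))) ?_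
    omega
  unfold jac
  rw [mul_sub, mul_sub, mul_sub]
  exact ν.ge_add (ν.ge_sub (ν.ge_sub (key _ _ _) (key _ _ _)) (ν.ge_sub (key _ _ _) (key _ _ _)))
    (ν.ge_sub (key _ _ _) (key _ _ _))

end DVal

end SAFP
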