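import Mathlib
import Pool.Agent.Lib.MP_4eb9bb_ag.Val

open MvPolynomial IsLocalRing

namespace SAFP

/-- Composition of a valuation with an endomorphism fixing the constants. -/
def DVal.comp {K : Type*} [Field K] [Algebra ℂ K] (ν : DVal K) (Φ : K →+* K)
    (hc : ∀ c : ℂ, Φ (algebraMap ℂ K c) = algebraMap ℂ K c) : DVal K where
  v x := ν.v (Φ x)
  v_mul := by
    intro x y hx hy
    rw [map_mul]
    exact ν.v_mul (by rwa [Ne, map_eq_zero]) (by rwa [Ne, map_eq_zero])
  v_add := by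
    intro x y hx hy hxy
    rw [map_add]
    exact ν.v_add (by rwa [Ne, map_eq_zero]) (by rwa [Ne, map_eq_zero])
      (by rw [← map_add]; rwa [Ne, map_eq_zero])
  v_const := by
    intro c hc'
    rw [hc]
    exact ν.v_const c hc'

theorem DVal.comp_ge {K : Type*} [Field K] [Algebra ℂ K] (ν : DVal K) (Φ : K →+* K)
    (hc : ∀ c : ℂ, Φ (algebraMap ℂ K c) = algebraMap ℂ K c) (x : K) (k : ℤ) :
    (ν.comp Φ hc).ge x k ↔ ν.ge (Φ x) k := by
  unfold DVal.ge
  rw [map_eq_zero]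
  rfl

section local_ring

variable {O : Type*} [CommRing O] [IsLocalRing O] [Algebra ℂ O]

/-- Generators in the maximal ideal of a local ring with residue field the complex numbers which
is a localization of a finitely generated algebra. -/
theorem exists_generators (hres : ∀ a : O, ∃ c : ℂ, a - algebraMap ℂ O c ∈ maximalIdeal O)
    (hfg : ∃ A : Subalgebra ℂ O, A.FG ∧ ∀ x : O, ∃ a ∈ A, ∃ b ∈ A, b ∉ maximalIdeal O ∧
      x * b = a) :
    ∃ (m : ℕ) (φ : Fin m → O), (∀ i, φ i ∈ maximalIdeal O) ∧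
      ∀ x : O, ∃ F G : MvPolynomial (Fin m) ℂ, constantCoeff G ≠ 0 ∧
        x * aeval φ G = aeval φ F := by
  classical
  obtain ⟨A, ⟨S, hS⟩, hA⟩ := hfg
  choose c hc using hres
  obtain ⟨m, e⟩ : ∃ m, Nonempty (S ≃ Fin m) := ⟨S.card, ⟨S.equivFin⟩⟩
  obtain ⟨e⟩ := e
  let φ : Fin m → O := fun i => ((e.symm i : S) : O) - algebraMap ℂ O (c (e.symm i : S))
  have hφ : ∀ i, φ i ∈ maximalIdeal O := fun i => hc _
  have hmem : ∀ x ∈ A, ∃ F : MvPolynomial (Fin m) ℂ, aeval φ F = x := by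
    intro x hx
    rw [← hS] at hx
    have h1 : Algebra.adjoin ℂ (S : Set O) ≤ (aeval φ : MvPolynomial (Fin m) ℂ →ₐ[ℂ] O).range := by
      rw [Algebra.adjoin_le_iff]
      intro s hs
      refine ⟨X (e ⟨s, hs⟩) + C (c s), ?_⟩
      simp [φ]
    exact h1 hx
  have hcc : ∀ G : MvPolynomial (Fin m) ℂ,
      aeval φ G - algebraMap ℂ O (constantCoeff G) ∈ maximalIdeal O := by
    intro G
    induction G using MvPolynomial.induction_on with
    | C a => simp
    | add p q hp hq =>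
      have := Ideal.add_mem _ hp hq
      rw [map_add, map_add, map_add]
      convert this using 1
      ring
    | mul_X p i _ =>
      rw [map_mul, aeval_X, map_mul, constantCoeff_X, mul_zero, map_zero, sub_zero]
      exact Ideal.mul_mem_left _ _ (hφ i)
  refine ⟨m, φ, hφ, ?_⟩
  intro x
  obtain ⟨a, ha, b, hb, hbm, hab⟩ := hA x
  obtain ⟨F, hF⟩ := hmem a ha
  obtain ⟨G, hG⟩ := hmem b hb
  refine ⟨F, G, ?_, by rw [hF, hG, hab]⟩
  intro h0
  apply hbm
  have := hcc G
  rw [h0, map_zero, sub_zero, hG] at this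
  exact this

variable {K : Type*} [Field K] [Algebra ℂ K] [Algebra O K]

/-- Domination with lower bound `e` on the maximal ideal. -/
def Dom (O : Type*) [CommRing O] [IsLocalRing O] [Algebra O K] (ν : DVal K) (e : ℤ) : Prop :=
  (∀ a : O, ν.ge (algebraMap O K a) 0) ∧
    ∀ a ∈ maximalIdeal O, ν.ge (algebraMap O K a) e

theorem Dom.sq {ν : DVal K} {e : ℤ} (h : Dom O ν e) {a : O} (ha : a ∈ maximalIdeal O ^ 2) :
    ν.ge (algebraMap O K a) (2 * e) := by
  rw [pow_two] at ha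
  induction ha using Submodule.mul_induction_on' with
  | mem_mul_mem x hx y hy =>
    rw [map_mul]
    have := ν.ge_mul (h.2 x hx) (h.2 y hy)
    exact ν.ge_mono this (by omega)
  | add x _ y _ hx hy =>
    rw [map_add]
    exact ν.ge_add hx hy

theorem Dom.comp {ν : DVal K} {e : ℤ} (h : Dom O ν e) {Φ : K →+* K}
    (hc : ∀ c : ℂ, Φ (algebraMap ℂ K c) = algebraMap ℂ K c) {θ : O →+* O}
    (hθ : ∀ a, Φ (algebraMap O K a) = algebraMap O K (θ a))
    (hm : ∀ a ∈ maximalIdeal O, θ a ∈ maximalIdeal O) : Dom O (ν.comp Φ hc) e := by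
  constructor
  · intro a
    rw [ν.comp_ge, hθ]
    exact h.1 _
  · intro a ha
    rw [ν.comp_ge, hθ]
    exact h.2 _ (hm a ha)

theorem Dom.comp_sq {ν : DVal K} {e : ℤ} (h : Dom O ν e) {Φ : K →+* K}
    (hc : ∀ c : ℂ, Φ (algebraMap ℂ K c) = algebraMap ℂ K c) {θ : O →+* O}
    (hθ : ∀ a, Φ (algebraMap O K a) = algebraMap O K (θ a))
    (hm : ∀ a ∈ maximalIdeal O, θ a ∈ maximalIdeal O ^ 2) : Dom O (ν.comp Φ hc) (2 * e) := by
  constructor
  · intro a
    rw [ν.comp_ge, hθ]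
    exact h.1 _
  · intro a ha
    rw [ν.comp_ge, hθ]
    exact h.sq (hm a ha)

/-- Powers of the endomorphism. -/
theorem pow_const {Φ : K →+* K} (hc : ∀ c : ℂ, Φ (algebraMap ℂ K c) = algebraMap ℂ K c)
    (n : ℕ) : ∀ c : ℂ, (Φ ^ n) (algebraMap ℂ K c) = algebraMap ℂ K c := by
  intro c
  induction n with
  | zero => simp
  | succ n ih => rw [pow_succ, RingHom.mul_def, RingHom.comp_apply, hc, ih]

theorem pow_compat {Φ : K →+* K} {θ : O →+* O}
    (hθ : ∀ a, Φ (algebraMap O K a) = algebraMap O K (θ a)) (n : ℕ) :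
    ∀ a, (Φ ^ n) (algebraMap O K a) = algebraMap O K ((θ ^ n) a) := by
  induction n with
  | zero => intro a; simp
  | succ n ih =>
    intro a
    rw [pow_succ, RingHom.mul_def, RingHom.comp_apply, hθ, ih, pow_succ, RingHom.mul_def,
      RingHom.comp_apply]

theorem dom_iterate {ν : DVal K} (h : Dom O ν 1) {Φ : K →+* K}
    (hc : ∀ c : ℂ, Φ (algebraMap ℂ K c) = algebraMap ℂ K c) {θ : O →+* O}
    (hθ : ∀ a, Φ (algebraMap O K a) = algebraMap O K (θ a)) {N : ℕ}
    (hN : ∀ a ∈ maximalIdeal O, (θ ^ N) a ∈ maximalIdeal O ^ 2) (k : ℕ) :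
    Dom O (ν.comp (Φ ^ (N * k)) (pow_const hc _)) (2 ^ k) := by
  induction k with
  | zero =>
    have h1 : ν.comp (Φ ^ (N * 0)) (pow_const hc _) = ν := by
      cases ν
      simp [DVal.comp]
    rw [h1]
    simpa using h
  | succ k ih =>
    have h2 := ih.comp_sq (pow_const hc N) (pow_compat hθ N) hN
    have h3 : (ν.comp (Φ ^ (N * k)) (pow_const hc _)).comp (Φ ^ N) (pow_const hc _) =
        ν.comp (Φ ^ (N * (k + 1))) (pow_const hc _) := by
      cases ν
      simp only [DVal.comp, DVal.mk.injEq]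
      funext x
      rw [mul_add, mul_one, pow_add]
      rfl
    rw [h3] at h2
    rw [pow_succ (2 : ℤ) k, mul_comm ((2 : ℤ) ^ k) 2]
    exact h2

end local_ring

end SAFP
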