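import Mathlib
import Pool.Agent.Lib.MP_4eb9bb_ag.Core1
import Pool.Agent.Lib.MP_4eb9bb_ag.Auto

open MvPolynomial IsLocalRing

namespace SAFP

variable {O : Type*} [CommRing O] [IsLocalRing O] {K : Type*} [Field K] [Algebra ℂ K]
  [Algebra O K] [Algebra R3 K] [IsScalarTower ℂ R3 K]

theorem poly_growth (P : R3) : ∃ d : ℕ, ∀ (ν : DVal K) (B : ℤ), B ≤ 0 →
    (∀ i, ν.ge (algebraMap R3 K (X i)) B) → ν.ge (algebraMap R3 K P) (d * B) := by
  induction P using MvPolynomial.induction_on with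
  | C a =>
    refine ⟨0, ?_⟩
    intro ν B _ _
    have h1 : algebraMap R3 K (C a) = algebraMap ℂ K a := by
      rw [IsScalarTower.algebraMap_apply ℂ R3 K]; rfl
    rw [h1]
    simpa using ν.ge_const a
  | add p q hp hq =>
    obtain ⟨d1, h1⟩ := hp
    obtain ⟨d2, h2⟩ := hq
    refine ⟨d1 + d2, ?_⟩
    intro ν B hB hX
    rw [map_add]
    push_cast
    refine ν.ge_add (ν.ge_mono (h1 ν B hB hX) ?_) (ν.ge_mono (h2 ν B hB hX) ?_)
    · nlinarith
    · nlinarith
  | mul_X p i hp =>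
    obtain ⟨d1, h1⟩ := hp
    refine ⟨d1 + 1, ?_⟩
    intro ν B hB hX
    rw [map_mul]
    have := ν.ge_mul (h1 ν B hB hX) (hX i)
    refine ν.ge_mono this ?_
    push_cast
    linarith

/-- Quantitative form of being at infinity. -/
theorem growth_of_infinity
    (hinf : ¬ ∃ V : ValuationSubring K, (∀ a : O, algebraMap O K a ∈ V) ∧
      (∀ a ∈ maximalIdeal O, algebraMap O K a ∈ V.nonunits) ∧
      ∀ P : R3, algebraMap R3 K P ∈ V) :
    ∃ d : ℕ, ∀ (ν : DVal K) (e : ℤ), Dom O ν e → ∀ B : ℤ, B ≤ 0 →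
      (∀ i, ν.ge (algebraMap R3 K (X i)) B) → e + d * B ≤ 0 := by
  classical
  set T : Subring K :=
    Subring.closure (Set.range (algebraMap O K) ∪ Set.range (algebraMap R3 K)) with hT
  have hOT : ∀ a : O, algebraMap O K a ∈ T :=
    fun a => Subring.subset_closure (Or.inl ⟨a, rfl⟩)
  have hRT : ∀ a : R3, algebraMap R3 K a ∈ T :=
    fun a => Subring.subset_closure (Or.inr ⟨a, rfl⟩)
  have hTg : ∀ t ∈ T, ∃ d : ℕ, ∀ (ν : DVal K) (B : ℤ), B ≤ 0 →
      (∀ a : O, ν.ge (algebraMap O K a) 0) →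
      (∀ i, ν.ge (algebraMap R3 K (X i)) B) → ν.ge t (d * B) := by
    intro t ht
    rw [hT] at ht
    induction ht using Subring.closure_induction with
    | mem x hx =>
      rcases hx with ⟨a, rfl⟩ | ⟨P, rfl⟩
      · refine ⟨0, ?_⟩
        intro ν B _ hO _
        simpa using hO a
      · obtain ⟨d, hd⟩ := poly_growth (K := K) P
        exact ⟨d, fun ν B hB _ hX => hd ν B hB hX⟩
    | zero => exact ⟨0, fun ν B _ _ _ => ν.ge_zero _⟩
    | one => exact ⟨0, fun ν B _ _ _ => by simpa using ν.ge_one⟩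
    | add x y _ _ hx hy =>
      obtain ⟨d1, h1⟩ := hx
      obtain ⟨d2, h2⟩ := hy
      refine ⟨d1 + d2, ?_⟩
      intro ν B hB hO hX
      push_cast
      refine ν.ge_add (ν.ge_mono (h1 ν B hB hO hX) ?_) (ν.ge_mono (h2 ν B hB hO hX) ?_)
      · nlinarith
      · nlinarith
    | neg x _ hx =>
      obtain ⟨d1, h1⟩ := hx
      exact ⟨d1, fun ν B hB hO hX => ν.ge_neg (h1 ν B hB hO hX)⟩
    | mul x y _ _ hx hy =>
      obtain ⟨d1, h1⟩ := hx
      obtain ⟨d2, h2⟩ := hy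
      refine ⟨d1 + d2, ?_⟩
      intro ν B hB hO hX
      have := ν.ge_mul (h1 ν B hB hO hX) (h2 ν B hB hO hX)
      refine ν.ge_mono this ?_
      push_cast
      linarith
  set S : Set T := {t | ∃ a ∈ maximalIdeal O, (t : K) = algebraMap O K a} with hS
  set J : Ideal T := Ideal.span S with hJ
  have hJtop : J = ⊤ := by
    by_contra hne
    obtain ⟨V, hV1, hV2⟩ := Ideal.image_subset_nonunits_valuationSubring J hne
    apply hinf
    refine ⟨V, fun a => hV1 (hOT a), ?_, fun P => hV1 (hRT P)⟩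
    intro a ha
    exact hV2 ⟨⟨algebraMap O K a, hOT a⟩, Ideal.subset_span ⟨a, ha, rfl⟩, rfl⟩
  have h1 : (1 : T) ∈ J := by rw [hJtop]; trivial
  have key : ∀ t ∈ J, ∃ d : ℕ, ∀ (ν : DVal K) (e : ℤ), Dom O ν e → ∀ B : ℤ, B ≤ 0 →
      (∀ i, ν.ge (algebraMap R3 K (X i)) B) → ν.ge (t : K) (e + d * B) := by
    intro t ht
    rw [hJ, Ideal.span] at ht
    induction ht using Submodule.span_induction with
    | mem x hx =>
      obtain ⟨a, ha, hxa⟩ := hx
      refine ⟨0, ?_⟩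
      intro ν e hD B _ _
      rw [hxa]
      simpa using hD.2 a ha
    | zero => exact ⟨0, fun ν e _ B _ _ => ν.ge_zero _⟩
    | add x y _ _ hx hy =>
      obtain ⟨d1, h1⟩ := hx
      obtain ⟨d2, h2⟩ := hy
      refine ⟨d1 + d2, ?_⟩
      intro ν e hD B hB hX
      push_cast
      refine ν.ge_add (ν.ge_mono (h1 ν e hD B hB hX) ?_) (ν.ge_mono (h2 ν e hD B hB hX) ?_)
      · nlinarith
      · nlinarith
    | smul a x _ hx =>
      obtain ⟨d1, h1⟩ := hTg a a.2
      obtain ⟨d2, h2⟩ := hx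
      refine ⟨d1 + d2, ?_⟩
      intro ν e hD B hB hX
      have h3 := ν.ge_mul (h1 ν B hB hD.1 hX) (h2 ν e hD B hB hX)
      have h4 : ((a • x : T) : K) = (a : K) * (x : K) := rfl
      rw [h4]
      refine ν.ge_mono h3 ?_
      push_cast
      linarith
  obtain ⟨d, hd⟩ := key 1 h1
  refine ⟨d, ?_⟩
  intro ν e hD B hB hX
  have h2 := hd ν e hD B hB hX
  have h3 := ν.le_of_ge h2 (by simp)
  have h4 : ν.v ((1 : T) : K) = 0 := by
    have : ((1 : T) : K) = 1 := rfl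
    rw [this, ν.v_one]
  rwa [h4] at h3

end SAFP
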