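import Mathlib
import Pool.Agent.Lib.MP_4eb9bb_ag.Val

open IsDedekindDomain

namespace SAFP

section DVR

variable (R K : Type*) [CommRing R] [IsDomain R] [IsDiscreteValuationRing R] [Field K]
  [Algebra R K] [IsFractionRing R K] [Algebra ℂ R] [Algebra ℂ K] [IsScalarTower ℂ R K]

/-- The valuation of a discrete valuation ring. -/
noncomputable abbrev dvrVal : Valuation K (WithZero (Multiplicative ℤ)) :=
  (IsDiscreteValuationRing.maximalIdeal R).valuation K

/-- The valuation in additive form. -/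
noncomputable def dvrDVal : DVal K where
  v x := - WithZero.log (dvrVal R K x)
  v_mul := by
    intro x y hx hy
    have h1 : dvrVal R K x ≠ 0 := (Valuation.ne_zero_iff _).mpr hx
    have h2 : dvrVal R K y ≠ 0 := (Valuation.ne_zero_iff _).mpr hy
    rw [map_mul, WithZero.log_mul h1 h2]
    ring
  v_add := by
    intro x y hx hy hxy
    have h1 : dvrVal R K x ≠ 0 := (Valuation.ne_zero_iff _).mpr hx
    have h2 : dvrVal R K y ≠ 0 := (Valuation.ne_zero_iff _).mpr hy
    have h3 : dvrVal R K (x + y) ≠ 0 := (Valuation.ne_zero_iff _).mpr hxy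
    have h4 := Valuation.map_add (dvrVal R K) x y
    rcases le_max_iff.mp h4 with h5 | h5
    · have := (WithZero.log_le_log h3 h1).mpr h5
      exact le_trans (min_le_left _ _) (by omega)
    · have := (WithZero.log_le_log h3 h2).mpr h5
      exact le_trans (min_le_right _ _) (by omega)
  v_const := by
    intro c hc
    have h1 : dvrVal R K (algebraMap ℂ K c) = 1 := by
      rw [IsScalarTower.algebraMap_apply ℂ R K]
      have hu : IsUnit (algebraMap ℂ R c) := (isUnit_iff_ne_zero.mpr hc).map _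
      rw [HeightOneSpectrum.valuation_eq_one_iff_notMem]
      intro hmem
      exact (IsLocalRing.mem_maximalIdeal _).mp hmem hu
    rw [h1, WithZero.log_one, neg_zero]

theorem dvr_nonneg {r : R} (hr : r ≠ 0) : 0 ≤ (dvrDVal R K).v (algebraMap R K r) := by
  have h0 : algebraMap R K r ≠ 0 := by
    rwa [Ne, map_eq_zero_iff _ (IsFractionRing.injective R K)]
  have h1 : dvrVal R K (algebraMap R K r) ≠ 0 := (Valuation.ne_zero_iff _).mpr h0
  have h2 := (IsDiscreteValuationRing.maximalIdeal R).valuation_le_one (K := K) r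
  have h3 := (WithZero.log_le_log h1 one_ne_zero).mpr h2
  rw [WithZero.log_one] at h3
  change 0 ≤ - WithZero.log (dvrVal R K (algebraMap R K r))
  omega

theorem dvr_pos {r : R} (hr : r ≠ 0) (hm : r ∈ IsLocalRing.maximalIdeal R) :
    1 ≤ (dvrDVal R K).v (algebraMap R K r) := by
  have h0 : algebraMap R K r ≠ 0 := by
    rwa [Ne, map_eq_zero_iff _ (IsFractionRing.injective R K)]
  have h1 : dvrVal R K (algebraMap R K r) ≠ 0 := (Valuation.ne_zero_iff _).mpr h0
  have h2 := ((IsDiscreteValuationRing.maximalIdeal R).valuation_lt_one_iff_mem (K := K) r).mpr hm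
  have h3 := (WithZero.log_lt_log h1 one_ne_zero).mpr h2
  rw [WithZero.log_one] at h3
  change 1 ≤ - WithZero.log (dvrVal R K (algebraMap R K r))
  omega

theorem dvr_lift {x : K} (hx : x ≠ 0) (h : 0 ≤ (dvrDVal R K).v x) :
    ∃ r : R, algebraMap R K r = x := by
  have h1 : dvrVal R K x ≠ 0 := (Valuation.ne_zero_iff _).mpr hx
  refine IsDiscreteValuationRing.exists_lift_of_le_one ?_
  refine (WithZero.log_le_log h1 one_ne_zero).mp ?_
  rw [WithZero.log_one]
  have : 0 ≤ - WithZero.log (dvrVal R K x) := h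
  omega

theorem dvr_unif : ∃ π : K, π ≠ 0 ∧ (dvrDVal R K).v π = 1 := by
  obtain ⟨π, hπ⟩ := (IsDiscreteValuationRing.maximalIdeal R).valuation_exists_uniformizer K
  refine ⟨π, ?_, ?_⟩
  · rintro rfl
    rw [map_zero] at hπ
    exact WithZero.exp_ne_zero hπ.symm
  · have h1 : dvrVal R K π = WithZero.exp (-1) := hπ
    change - WithZero.log (dvrVal R K π) = 1
    rw [h1, WithZero.log_exp]
    norm_num

end DVR

/-- Bounded derivations for discrete valuation rings. -/
theorem bdd_of_ge {K : Type*} [Field K] [Algebra ℂ K] (ν : DVal K) (D : Derivation ℂ K K)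
    {H : ℤ} (hπ : ∃ π : K, π ≠ 0 ∧ ν.v π = 1)
    (h : ∀ x : K, x ≠ 0 → 0 ≤ ν.v x → ν.ge (D x) (-H)) : ν.Bdd D := by
  obtain ⟨π, hπ0, hπ1⟩ := hπ
  refine ⟨H + 1, ?_⟩
  intro x hx
  set k := ν.v x with hk
  have hzp : ∀ m : ℤ, ν.v (π ^ m) = m := by
    intro m
    rcases Int.eq_nat_or_neg m with ⟨n, rfl | rfl⟩
    · rw [zpow_natCast, ν.v_pow hπ0, hπ1, mul_one]
    · rw [zpow_neg, zpow_natCast, ν.v_inv (pow_ne_zero _ hπ0), ν.v_pow hπ0, hπ1, mul_one]
  have hπk : π ^ k ≠ 0 := zpow_ne_zero _ hπ0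
  set w := x / π ^ k with hw
  have hw0 : w ≠ 0 := div_ne_zero hx hπk
  have hwv : ν.v w = 0 := by rw [hw, ν.v_div hx hπk, hzp, ← hk]; ring
  have hxw : x = π ^ k * w := by rw [hw]; field_simp
  have h1 := h w hw0 (by rw [hwv])
  have h2 := h π hπ0 (by rw [hπ1]; norm_num)
  have h3 : D x = π ^ k * D w + w * ((k : K) * (π ^ (k - 1) * D π)) := by
    rw [hxw, D.leibniz, Derivation.leibniz_zpow]
    simp only [smul_eq_mul, zsmul_eq_mul]
  rw [h3]
  have hkc : ν.ge (k : K) 0 := by
    have : (k : K) = algebraMap ℂ K (k : ℂ) := by simp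
    rw [this]
    exact ν.ge_const _
  refine ν.ge_add ?_ ?_
  · have := ν.ge_mul (ν.ge_of_le (hzp k).ge) h1
    exact ν.ge_mono this (by omega)
  · have := ν.ge_mul (ν.ge_of_le hwv.ge) (ν.ge_mul hkc (ν.ge_mul (ν.ge_of_le (hzp (k - 1)).ge) h2))
    exact ν.ge_mono this (by omega)

end SAFP
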