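import Mathlib
import Pool.Agent.Lib.MP_4eb9bb_ag.DVR

open IsDedekindDomain

namespace SAFP

/-- The localization of a normal Noetherian domain at a prime of height at most one is a
discrete valuation ring. -/
theorem dvr_of_height_le_one {C : Type*} [CommRing C] [IsDomain C] [IsNoetherianRing C]
    [IsIntegrallyClosed C] (q : Ideal C) [hq : q.IsPrime] (hq0 : q ≠ ⊥) (hh : q.height ≤ 1) :
    IsDiscreteValuationRing (Localization.AtPrime q) := by
  have : IsDomain (Localization.AtPrime q) :=
    IsLocalization.isDomain_localization q.primeCompl_le_nonZeroDivisors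
  have : IsNoetherianRing (Localization.AtPrime q) :=
    IsLocalization.isNoetherianRing q.primeCompl _ inferInstance
  have : IsIntegrallyClosed (Localization.AtPrime q) :=
    isIntegrallyClosed_of_isLocalization _ q.primeCompl q.primeCompl_le_nonZeroDivisors
  have hdim : (IsLocalRing.maximalIdeal (Localization.AtPrime q)).height ≤ 1 := by
    have h1 := IsLocalRing.maximalIdeal_height_eq_ringKrullDim (R := Localization.AtPrime q)
    rw [IsLocalization.AtPrime.ringKrullDim_eq_height q (Localization.AtPrime q)] at h1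
    have h2 : (IsLocalRing.maximalIdeal (Localization.AtPrime q)).height = q.height := by
      exact_mod_cast h1
    rw [h2]; exact hh
  have h4 := (tfae_of_isNoetherianRing_of_isLocalRing_of_isDomain (Localization.AtPrime q)).out 3 0
  have hpir : IsPrincipalIdealRing (Localization.AtPrime q) := by
    refine h4.mp ⟨inferInstance, ?_⟩
    intro P hP hP'
    by_contra hne
    have hlt : P < IsLocalRing.maximalIdeal (Localization.AtPrime q) :=
      lt_of_le_of_ne (IsLocalRing.le_maximalIdeal hP'.ne_top) hne
    have h5 := Ideal.height_add_one_le_of_lt_of_isPrime hlt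
    have h6 : P.height = 0 := by
      have h7 : P.height + 1 ≤ 0 + 1 := by
        rw [zero_add]; exact le_trans h5 hdim
      have h8 := (ENat.add_le_add_iff_right (by simp)).mp h7
      exact le_antisymm h8 bot_le
    exact hP (Ideal.height_eq_zero_iff_eq_bot.mp h6)
  refine { hpir with not_a_field' := ?_ }
  intro hbot
  apply hq0
  rw [eq_bot_iff]
  intro x hx
  have h7 : algebraMap C (Localization.AtPrime q) x ∈
      IsLocalRing.maximalIdeal (Localization.AtPrime q) :=
    (IsLocalization.AtPrime.to_map_mem_maximal_iff _ q x).mpr hx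
  rw [hbot, Ideal.mem_bot] at h7
  have hinj : Function.Injective (algebraMap C (Localization.AtPrime q)) :=
    IsLocalization.injective _ q.primeCompl_le_nonZeroDivisors
  rw [Ideal.mem_bot]
  exact (map_eq_zero_iff _ hinj).mp h7

/-- Divisorial valuations of a normal affine domain. -/
theorem exists_DVal_normal {C K : Type*} [CommRing C] [IsDomain C] [IsNoetherianRing C]
    [IsIntegrallyClosed C] [Field K] [Algebra C K] [IsFractionRing C K] [Algebra ℂ C]
    [Algebra ℂ K] [IsScalarTower ℂ C K] [hft : Algebra.FiniteType ℂ C] (t : C) (ht0 : t ≠ 0)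
    (htu : ¬ IsUnit t) :
    ∃ ν : DVal K, (∀ c : C, c ≠ 0 → 0 ≤ ν.v (algebraMap C K c)) ∧
      1 ≤ ν.v (algebraMap C K t) ∧ ∀ D : Derivation ℂ K K, ν.Bdd D := by
  classical
  have hspan : Ideal.span {t} ≠ ⊤ := by
    rw [Ne, Ideal.span_singleton_eq_top]; exact htu
  obtain ⟨m, hm, hle⟩ := Ideal.exists_le_maximal _ hspan
  have := hm.isPrime
  obtain ⟨q, hqmin, hqm⟩ := Ideal.exists_minimalPrimes_le hle
  have hq : q.IsPrime := hqmin.1.1
  have htq : t ∈ q := hqmin.1.2 (Ideal.subset_span rfl)
  have hq0 : q ≠ ⊥ := by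
    rintro rfl
    exact ht0 htq
  have hh : q.height ≤ 1 := by
    have : (Ideal.span {t}).IsPrincipal := ⟨⟨t, rfl⟩⟩
    exact Ideal.height_le_one_of_isPrincipal_of_mem_minimalPrimes _ q hqmin
  have := dvr_of_height_le_one q hq0 hh
  set R := Localization.AtPrime q with hR
  have : IsDomain R := IsLocalization.isDomain_localization q.primeCompl_le_nonZeroDivisors
  let : Algebra R K := IsLocalization.localizationAlgebraOfSubmonoidLe R K q.primeCompl
    (nonZeroDivisors C) q.primeCompl_le_nonZeroDivisors
  have : IsScalarTower C R K := IsLocalization.localization_isScalarTower_of_submonoid_le R K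
    q.primeCompl (nonZeroDivisors C) q.primeCompl_le_nonZeroDivisors
  have : IsFractionRing R K :=
    IsFractionRing.isFractionRing_of_isDomain_of_isLocalization q.primeCompl R K
  have : IsScalarTower ℂ R K := by
    refine IsScalarTower.of_algebraMap_eq fun c => ?_
    rw [IsScalarTower.algebraMap_apply ℂ C K, IsScalarTower.algebraMap_apply ℂ C R,
      ← IsScalarTower.algebraMap_apply C R K]
  have hinjK : Function.Injective (algebraMap C K) := IsFractionRing.injective C K
  have hinjR : Function.Injective (algebraMap C R) :=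
    IsLocalization.injective _ q.primeCompl_le_nonZeroDivisors
  set ν := dvrDVal R K with hν
  have hC : ∀ c : C, c ≠ 0 → 0 ≤ ν.v (algebraMap C K c) := by
    intro c hc
    rw [IsScalarTower.algebraMap_apply C R K]
    exact dvr_nonneg R K (by rwa [Ne, map_eq_zero_iff _ hinjR])
  have hCge : ∀ c : C, ν.ge (algebraMap C K c) 0 := by
    intro c
    by_cases hc : c = 0
    · left; rw [hc, map_zero]
    · right; exact hC c hc
  have hq1 : ∀ b : C, b ∉ q → ν.v (algebraMap C K b) = 0 := by
    intro b hb
    have hb0 : b ≠ 0 := fun h => hb (h ▸ q.zero_mem)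
    have hunit : IsUnit (algebraMap C R b) := IsLocalization.map_units R (⟨b, hb⟩ : q.primeCompl)
    obtain ⟨u, hu⟩ := hunit
    have h1 : algebraMap C K b ≠ 0 := by rwa [Ne, map_eq_zero_iff _ hinjK]
    have h2 : (algebraMap C K b)⁻¹ = algebraMap R K ((u⁻¹ : Rˣ) : R) := by
      rw [IsScalarTower.algebraMap_apply C R K, ← hu]
      rw [eq_comm, ← mul_eq_one_iff_eq_inv₀]
      · rw [← map_mul]; simp
      · rw [hu, ← IsScalarTower.algebraMap_apply C R K]; exact h1
    have h3 : 0 ≤ ν.v (algebraMap C K b)⁻¹ := by
      rw [h2]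
      exact dvr_nonneg R K (Units.ne_zero _)
    rw [ν.v_inv h1] at h3
    have := hC b hb0
    omega
  refine ⟨ν, hC, ?_, ?_⟩
  · rw [IsScalarTower.algebraMap_apply C R K]
    refine dvr_pos R K (by rwa [Ne, map_eq_zero_iff _ hinjR]) ?_
    exact (IsLocalization.AtPrime.to_map_mem_maximal_iff _ q t).mpr htq
  · intro D
    obtain ⟨S, hS⟩ := hft.out
    -- common denominator
    obtain ⟨h, hh⟩ := IsLocalization.exist_integer_multiples_of_finset (nonZeroDivisors C)
      (S.image fun c => D (algebraMap C K c))
    set hK := algebraMap C K (h : C) with hhK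
    have hh0 : hK ≠ 0 := by
      rw [hhK, Ne, map_eq_zero_iff _ hinjK]
      exact nonZeroDivisors.ne_zero h.2
    have key : ∀ c : C, ∃ d : C, algebraMap C K d = hK * D (algebraMap C K c) := by
      intro c
      have hc : c ∈ Algebra.adjoin ℂ (S : Set C) := by rw [hS]; trivial
      induction hc using Algebra.adjoin_induction with
      | mem x hx =>
        obtain ⟨d, hd⟩ := hh (D (algebraMap C K x)) (Finset.mem_image.mpr ⟨x, hx, rfl⟩)
        refine ⟨d, ?_⟩
        rw [hd, Algebra.smul_def]
      | algebraMap r =>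
        refine ⟨0, ?_⟩
        rw [← IsScalarTower.algebraMap_apply ℂ C K, D.map_algebraMap, mul_zero, map_zero]
      | add x y _ _ hx hy =>
        obtain ⟨d1, h1⟩ := hx
        obtain ⟨d2, h2⟩ := hy
        refine ⟨d1 + d2, ?_⟩
        rw [map_add, h1, h2, map_add, map_add, mul_add]
      | mul x y _ _ hx hy =>
        obtain ⟨d1, h1⟩ := hx
        obtain ⟨d2, h2⟩ := hy
        refine ⟨x * d2 + y * d1, ?_⟩
        rw [map_add, map_mul, map_mul, h1, h2, map_mul, D.leibniz]
        simp only [smul_eq_mul]
        ring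
    refine bdd_of_ge ν D (H := ν.v hK) (dvr_unif R K) ?_
    intro x hx hx0
    obtain ⟨r, hr⟩ := dvr_lift R K hx hx0
    obtain ⟨c, b, rfl⟩ := IsLocalization.exists_mk'_eq q.primeCompl r
    have hbK : algebraMap C K (b : C) ≠ 0 := by
      rw [Ne, map_eq_zero_iff _ hinjK]
      exact fun h => b.2 (h ▸ q.zero_mem)
    have hxeq : x * algebraMap C K (b : C) = algebraMap C K c := by
      rw [← hr, IsScalarTower.algebraMap_apply C R K, IsScalarTower.algebraMap_apply C R K,
        ← map_mul, IsLocalization.mk'_spec]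
    obtain ⟨d1, h1⟩ := key c
    obtain ⟨d2, h2⟩ := key b
    have hDx : D x = (algebraMap C K (b : C))⁻¹ * (hK⁻¹ * (algebraMap C K d1 -
        x * algebraMap C K d2)) := by
      have h3 := congrArg D hxeq
      rw [D.leibniz] at h3
      simp only [smul_eq_mul] at h3
      rw [h1, h2]
      field_simp
      linear_combination h3
    rw [hDx]
    have hb1 : ν.v (algebraMap C K (b : C))⁻¹ = 0 := by
      rw [ν.v_inv hbK, hq1 b b.2, neg_zero]
    have hb2 : ν.v hK⁻¹ = -ν.v hK := ν.v_inv hh0
    have h5 : ν.ge (algebraMap C K d1 - x * algebraMap C K d2) 0 := by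
      refine ν.ge_sub (hCge d1) ?_
      have := ν.ge_mul (ν.ge_of_le hx0) (hCge d2)
      rwa [add_zero] at this
    have := ν.ge_mul (ν.ge_of_le hb1.ge) (ν.ge_mul (ν.ge_of_le hb2.ge) h5)
    exact ν.ge_mono this (by omega)

end SAFP
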