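import Mathlib
import Pool.Agent.Lib.MP_4eb9bb_ag.DVR2

open IsDedekindDomain

namespace SAFP

/-- Divisorial valuations adapted to a finitely generated subalgebra. -/
theorem exists_DVal_of_fg {K : Type*} [Field K] [Algebra ℂ K] (B : Subalgebra ℂ K) (hfg : B.FG)
    [IsFractionRing B K] {t : K} (htB : t ∈ B) (ht0 : t ≠ 0) (V : ValuationSubring K)
    (hBV : ∀ b ∈ B, b ∈ V) (htV : t ∈ V.nonunits) :
    ∃ ν : DVal K, (∀ b ∈ B, b ≠ 0 → 0 ≤ ν.v b) ∧ 1 ≤ ν.v t ∧
      ∀ D : Derivation ℂ K K, ν.Bdd D := by
  classical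
  have hft : Algebra.FiniteType ℂ B := (Subalgebra.fg_iff_finiteType B).mp hfg
  obtain ⟨s, g, hg, hfin⟩ := exists_finite_inj_algHom_of_fg ℂ B
  let P := MvPolynomial (Fin s) ℂ
  let : Algebra P B := g.toRingHom.toAlgebra
  let : Algebra P K := ((algebraMap B K).comp g.toRingHom).toAlgebra
  have t1 : IsScalarTower P B K := IsScalarTower.of_algebraMap_eq fun x => rfl
  have t2 : IsScalarTower ℂ P K := by
    refine IsScalarTower.of_algebraMap_eq fun c => ?_
    change algebraMap ℂ K c = algebraMap B K (g (algebraMap ℂ P c))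
    rw [g.commutes, ← IsScalarTower.algebraMap_apply ℂ B K]
  have t3 : Module.Finite P B := hfin
  have t4 : FaithfulSMul P B := (faithfulSMul_iff_algebraMap_injective P B).mpr hg
  have t5 : FaithfulSMul P K := by
    rw [faithfulSMul_iff_algebraMap_injective]
    exact (IsFractionRing.injective B K).comp hg
  let L := FractionRing P
  let : Algebra L K := FractionRing.liftAlgebra P K
  have t6 : IsScalarTower P L K := FractionRing.isScalarTower_liftAlgebra P K
  have t7 : FiniteDimensional L K := Module.Finite.of_isLocalization P B (nonZeroDivisors P)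
  have t8 : CharZero L := charZero_of_injective_algebraMap
    (FaithfulSMul.algebraMap_injective P L)
  have t9 : Algebra.IsSeparable L K := inferInstance
  let C := integralClosure P K
  have c1 : IsNoetherianRing C := IsIntegralClosure.isNoetherianRing P L K C
  have c2 : Module.Finite P C := IsIntegralClosure.finite P L K C
  have c3 : IsIntegrallyClosed C := integralClosure.isIntegrallyClosedOfFiniteExtension L
  have c4 : IsFractionRing C K := integralClosure.isFractionRing_of_finite_extension L K
  have c5 : Algebra.FiniteType P C := inferInstance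
  have c6 : Algebra.FiniteType ℂ C := Algebra.FiniteType.trans (S := P) inferInstance c5
  have hBC : ∀ b ∈ B, b ∈ C := by
    intro b hb
    have h1 : IsIntegral P (⟨b, hb⟩ : B) := Algebra.IsIntegral.isIntegral _
    exact h1.algebraMap (B := K)
  have hCV : ∀ x ∈ C, x ∈ V := by
    intro x hx
    obtain ⟨p, hp1, hp2⟩ : IsIntegral P x := hx
    let f : P →+* V := (algebraMap P K).codRestrict V (fun p => hBV _ (g p).2)
    have h2 : IsIntegral V x := by
      refine ⟨p.map f, hp1.map f, ?_⟩
      rw [Polynomial.eval₂_map]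
      exact hp2
    obtain ⟨y, hy⟩ := IsIntegrallyClosed.isIntegral_iff.mp h2
    rw [← hy]
    exact y.2
  let tC : C := ⟨t, hBC t htB⟩
  have htC0 : tC ≠ 0 := by
    intro h
    exact ht0 (congrArg Subtype.val h)
  have htCu : ¬ IsUnit tC := by
    intro hu
    obtain ⟨w, hw⟩ := hu.exists_right_inv
    have h1 : t * (w : K) = 1 := congrArg Subtype.val hw
    have h2 : (w : K) ∈ V := hCV _ w.2
    have h3 : V.valuation t < 1 := V.mem_nonunits_iff.mp htV
    have h4 : V.valuation (w : K) ≤ 1 := (V.valuation_le_one_iff _).mpr h2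
    have h5 := congrArg V.valuation h1
    rw [map_mul, map_one] at h5
    have h6 : V.valuation t * V.valuation (w : K) < 1 := mul_lt_one_of_lt_of_le h3 h4
    rw [h5] at h6
    exact lt_irrefl _ h6
  obtain ⟨ν, h1, h2, h3⟩ := exists_DVal_normal (K := K) tC htC0 htCu
  refine ⟨ν, ?_, h2, h3⟩
  intro b hb hb0
  exact h1 ⟨b, hBC b hb⟩ (fun h => hb0 (congrArg Subtype.val h))

end SAFP
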