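import Mathlib
import Pool.Agent.Lib.MP_4eb9bb_ag.Core2
import Pool.Agent.Lib.MP_4eb9bb_ag.DVR3

open MvPolynomial IsLocalRing

namespace SAFP

theorem aeval_sub_const_mem {O : Type*} [CommRing O] [IsLocalRing O] [Algebra ℂ O] {m : ℕ}
    {φ : Fin m → O} (hφ : ∀ i, φ i ∈ maximalIdeal O) (G : MvPolynomial (Fin m) ℂ) :
    aeval φ G - algebraMap ℂ O (constantCoeff G) ∈ maximalIdeal O := by
  induction G using MvPolynomial.induction_on with
  | C a => simp
  | add p q hp hq =>
    have := Ideal.add_mem _ hp hq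
    rw [map_add, map_add, map_add]
    convert this using 1
    ring
  | mul_X p i _ =>
    rw [map_mul, aeval_X, map_mul, constantCoeff_X, mul_zero, map_zero, sub_zero]
    exact Ideal.mul_mem_left _ _ (hφ i)

theorem isUnit_aeval {O : Type*} [CommRing O] [IsLocalRing O] [Algebra ℂ O] {m : ℕ}
    {φ : Fin m → O} (hφ : ∀ i, φ i ∈ maximalIdeal O) {G : MvPolynomial (Fin m) ℂ}
    (hG : constantCoeff G ≠ 0) : IsUnit (aeval φ G) := by
  by_contra hne
  have h1 : aeval φ G ∈ maximalIdeal O := (mem_maximalIdeal _).mpr hne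
  have h2 := Ideal.sub_mem _ h1 (aeval_sub_const_mem hφ G)
  rw [sub_sub_cancel] at h2
  exact (mem_maximalIdeal _).mp h2 ((isUnit_iff_ne_zero.mpr hG).map _)

theorem ge_aeval_sub_const {K : Type*} [Field K] [Algebra ℂ K] (ν : DVal K) {m : ℕ}
    {φ : Fin m → K} {e : ℤ} (he : 0 ≤ e) (hφ : ∀ i, ν.ge (φ i) e)
    (G : MvPolynomial (Fin m) ℂ) :
    ν.ge (aeval φ G - algebraMap ℂ K (constantCoeff G)) e := by
  induction G using MvPolynomial.induction_on with
  | C a => simpa using ν.ge_zero e
  | add p q hp hq =>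
    have := ν.ge_add hp hq
    rw [map_add, map_add, map_add]
    convert this using 1
    ring
  | mul_X p i hp =>
    rw [map_mul, aeval_X, map_mul, constantCoeff_X, mul_zero, map_zero, sub_zero]
    have h1 : ν.ge (aeval φ p) 0 := by
      have := ν.ge_add (ν.ge_mono hp he) (ν.ge_const (constantCoeff p))
      rwa [sub_add_cancel] at this
    have := ν.ge_mul h1 (hφ i)
    rwa [zero_add] at this

variable {O : Type*} [CommRing O] [IsLocalRing O] [IsDomain O] [Algebra ℂ O] {K : Type*}
  [Field K] [Algebra ℂ K] [Algebra O K] [IsScalarTower ℂ O K] [IsFractionRing O K]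

/-- A dominating discrete valuation for which all derivations are bounded. -/
theorem exists_dominating {m : ℕ} {φ : Fin m → O} (hφ : ∀ i, φ i ∈ maximalIdeal O)
    (hgen : ∀ x : O, ∃ F G : MvPolynomial (Fin m) ℂ, constantCoeff G ≠ 0 ∧
        x * aeval φ G = aeval φ F) (hne : ∃ i, φ i ≠ 0) :
    ∃ ν : DVal K, Dom O ν 1 ∧ ∀ D : Derivation ℂ K K, ν.Bdd D := by
  classical
  have hinj : Function.Injective (algebraMap O K) := IsFractionRing.injective O K
  obtain ⟨V, hV, hloc⟩ := IsLocalRing.exists_factor_valuationRing (algebraMap O K)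
  have hVnon : ∀ a ∈ maximalIdeal O, algebraMap O K a ∈ V.nonunits := by
    intro a ha
    rw [V.mem_nonunits_iff_exists_mem_maximalIdeal]
    refine ⟨hV a, ?_⟩
    rw [mem_maximalIdeal]
    intro hu
    have h1 : IsUnit ((algebraMap O K).codRestrict V.toSubring hV a) := hu
    exact (mem_maximalIdeal _).mp ha (hloc.map_nonunit a h1)
  set φK : Fin m → K := fun i => algebraMap O K (φ i) with hφK
  obtain ⟨i₁, hi₁⟩ := hne
  obtain ⟨i₀, -, hmax⟩ := Finset.exists_max_image Finset.univ (fun i => V.valuation (φK i))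
    ⟨i₁, Finset.mem_univ _⟩
  set t := φK i₀ with ht
  have ht0 : t ≠ 0 := by
    intro h0
    have h1 := hmax i₁ (Finset.mem_univ _)
    rw [h0, map_zero] at h1
    have h2 : V.valuation (φK i₁) = 0 := le_antisymm h1 bot_le
    rw [map_eq_zero] at h2
    exact hi₁ ((map_eq_zero_iff _ hinj).mp h2)
  have htV : t ∈ V.nonunits := hVnon _ (hφ i₀)
  have htV' : t ∈ V := V.nonunits_subset htV
  set ψ : Fin m → K := fun i => φK i / t with hψ
  have hψV : ∀ i, ψ i ∈ V := by
    intro i
    rw [← V.valuation_le_one_iff, hψ]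
    simp only
    rw [map_div₀]
    have h1 := hmax i (Finset.mem_univ _)
    exact div_le_one_of_le₀ h1 bot_le
  set S : Finset K := insert t (Finset.univ.image ψ) with hS
  set B : Subalgebra ℂ K := Algebra.adjoin ℂ (S : Set K) with hB
  have hBfg : B.FG := ⟨S, rfl⟩
  have htB : t ∈ B := Algebra.subset_adjoin (by simp [hS])
  have hψB : ∀ i, ψ i ∈ B := fun i => Algebra.subset_adjoin (by simp [hS])
  have hφeq : ∀ i, φK i = t * ψ i := by
    intro i
    rw [hψ]
    field_simp
  have hφB : ∀ i, φK i ∈ B := by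
    intro i
    rw [hφeq]
    exact B.mul_mem htB (hψB i)
  have hBV : ∀ b ∈ B, b ∈ V := by
    intro b hb
    rw [hB] at hb
    induction hb using Algebra.adjoin_induction with
    | mem x hx =>
      simp only [hS, Finset.coe_insert, Finset.coe_image, Finset.coe_univ, Set.image_univ] at hx
      rcases hx with rfl | ⟨i, rfl⟩
      · exact htV'
      · exact hψV i
    | algebraMap r =>
      rw [IsScalarTower.algebraMap_apply ℂ O K]
      exact hV _
    | add x y _ _ hx hy => exact V.add_mem _ _ hx hy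
    | mul x y _ _ hx hy => exact V.mul_mem _ _ hx hy
  have haev : ∀ F : MvPolynomial (Fin m) ℂ, aeval φK F = algebraMap O K (aeval φ F) := by
    intro F
    have h1 : (aeval φK : MvPolynomial (Fin m) ℂ →ₐ[ℂ] K) =
        (IsScalarTower.toAlgHom ℂ O K).comp (aeval φ) := by
      ext i : 1
      simp [hφK]
    rw [h1]
    rfl
  have haevB : ∀ F : MvPolynomial (Fin m) ℂ, aeval φK F ∈ B := by
    intro F
    have h1 : (aeval φK : MvPolynomial (Fin m) ℂ →ₐ[ℂ] K).range ≤ B := by
      rw [← Algebra.adjoin_range_eq_range_aeval, Algebra.adjoin_le_iff]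
      rintro _ ⟨i, rfl⟩
      exact hφB i
    exact h1 ⟨F, rfl⟩
  have hOfrac : ∀ a : O, ∃ x y : B, (y : K) ≠ 0 ∧ algebraMap O K a * (y : K) = (x : K) := by
    intro a
    obtain ⟨F, G, hG, hFG⟩ := hgen a
    refine ⟨⟨_, haevB F⟩, ⟨_, haevB G⟩, ?_, ?_⟩
    · change aeval φK G ≠ 0
      rw [haev, Ne, map_eq_zero_iff _ hinj]
      exact (isUnit_aeval hφ hG).ne_zero
    · change algebraMap O K a * aeval φK G = aeval φK F
      rw [haev, haev, ← map_mul, hFG]
  have hBfrac : IsFractionRing B K := by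
    have hfs : FaithfulSMul B K := by
      rw [faithfulSMul_iff_algebraMap_injective]
      exact Subtype.val_injective
    refine IsFractionRing.of_field _ _ ?_
    intro z
    obtain ⟨a, b, hb, rfl⟩ := IsFractionRing.div_surjective O z
    obtain ⟨x, y, hy, hxy⟩ := hOfrac a
    obtain ⟨x', y', hy', hxy'⟩ := hOfrac b
    refine ⟨x * y', y * x', ?_⟩
    have hb0 : algebraMap O K b ≠ 0 := by
      rw [Ne, map_eq_zero_iff _ hinj]
      exact nonZeroDivisors.ne_zero hb
    change algebraMap O K a / algebraMap O K b = ((x : K) * (y' : K)) / ((y : K) * (x' : K))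
    rw [← hxy, ← hxy']
    field_simp
  obtain ⟨ν, hν1, hν2, hν3⟩ := exists_DVal_of_fg B hBfg htB ht0 V hBV htV
  have hνB : ∀ b ∈ B, ν.ge b 0 := by
    intro b hb
    by_cases hb0 : b = 0
    · exact Or.inl hb0
    · exact Or.inr (hν1 b hb hb0)
  have hνφ : ∀ i, ν.ge (φK i) 1 := by
    intro i
    rw [hφeq]
    have := ν.ge_mul (ν.ge_of_le hν2) (hνB _ (hψB i))
    rwa [add_zero] at this
  have hval : ∀ G : MvPolynomial (Fin m) ℂ, constantCoeff G ≠ 0 →
      aeval φK G ≠ 0 ∧ ν.v (aeval φK G) = 0 := by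
    intro G hG
    have h1 := ge_aeval_sub_const ν (by norm_num) hνφ G
    have h2 : algebraMap ℂ K (constantCoeff G) ≠ 0 := by rwa [Ne, map_eq_zero]
    have h3 := ν.v_add_eq h2 (y := aeval φK G - algebraMap ℂ K (constantCoeff G))
      (by rw [ν.v_const _ hG]; simpa using h1)
    rw [add_sub_cancel, ν.v_const _ hG] at h3
    exact h3
  have hgen' : ∀ a : O, ∀ e : ℤ, ∀ F G : MvPolynomial (Fin m) ℂ, constantCoeff G ≠ 0 →
      a * aeval φ G = aeval φ F → ν.ge (aeval φK F) e → ν.ge (algebraMap O K a) e := by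
    intro a e F G hG hFG hF
    by_cases ha : algebraMap O K a = 0
    · exact Or.inl ha
    right
    obtain ⟨g1, g2⟩ := hval G hG
    have h1 : algebraMap O K a * aeval φK G = aeval φK F := by
      rw [haev, haev, ← map_mul, hFG]
    rw [← h1] at hF
    have h2 := ν.le_of_ge hF (mul_ne_zero ha g1)
    rw [ν.v_mul ha g1, g2, add_zero] at h2
    exact h2
  refine ⟨ν, ⟨?_, ?_⟩, hν3⟩
  · intro a
    obtain ⟨F, G, hG, hFG⟩ := hgen a
    exact hgen' a 0 F G hG hFG (hνB _ (haevB F))
  · intro a ha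
    obtain ⟨F, G, hG, hFG⟩ := hgen a
    refine hgen' a 1 F G hG hFG ?_
    have h1 : constantCoeff F = 0 := by
      by_contra h0
      have h2 := isUnit_aeval hφ h0
      rw [← hFG] at h2
      exact (mem_maximalIdeal _).mp ha (isUnit_of_mul_isUnit_left h2)
    have h2 := ge_aeval_sub_const ν (by norm_num) hνφ F
    rwa [h1, map_zero, sub_zero] at h2

end SAFP
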