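import Mathlib
import Pool.Agent.Lib.MP_4eb9bb_ag.Auto

open MvPolynomial

namespace SAFP

variable {K : Type*} [Field K] [Algebra ℂ K] [Algebra R3 K] [IsScalarTower ℂ R3 K]
  [IsFractionRing R3 K]

/-- Dual number homomorphism attached to a derivation. -/
noncomputable def dualHom (D : Derivation ℂ R3 K) : R3 →+* TrivSqZeroExt K K where
  toFun P := TrivSqZeroExt.inl (algebraMap R3 K P) + TrivSqZeroExt.inr (D P)
  map_one' := by
    ext <;> simp
  map_mul' P Q := by
    ext
    · rw [TrivSqZeroExt.fst_mul]
      simp only [TrivSqZeroExt.fst_add, TrivSqZeroExt.fst_inl, TrivSqZeroExt.fst_inr, add_zero,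
        map_mul]
    · rw [TrivSqZeroExt.snd_mul]
      simp only [TrivSqZeroExt.snd_add, TrivSqZeroExt.snd_inl, TrivSqZeroExt.snd_inr,
        TrivSqZeroExt.fst_add, TrivSqZeroExt.fst_inl, TrivSqZeroExt.fst_inr, zero_add, add_zero,
        Derivation.leibniz, Algebra.smul_def, Algebra.algebraMap_self, RingHom.id_apply, MulOpposite.smul_eq_mul_unop,
        MulOpposite.unop_op]
      ring
  map_zero' := by
    ext <;> simp
  map_add' P Q := by
    ext <;> simp

theorem exists_extension (D : Derivation ℂ R3 K) :
    ∃ E : Derivation ℂ K K, ∀ P : R3, E (algebraMap R3 K P) = D P := by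
  have hu : ∀ y : nonZeroDivisors R3, IsUnit (dualHom D y) := by
    intro y
    rw [TrivSqZeroExt.isUnit_iff_isUnit_fst]
    have h1 : (dualHom D (y : R3)).fst = algebraMap R3 K (y : R3) := by simp [dualHom]
    rw [h1]
    exact IsLocalization.map_units K y
  set L : K →+* TrivSqZeroExt K K := IsLocalization.lift (M := nonZeroDivisors R3) hu with hL
  have hL1 : ∀ P : R3, L (algebraMap R3 K P) = dualHom D P := fun P => IsLocalization.lift_eq hu P
  have hfst : ∀ x : K, (L x).fst = x := by
    have h1 : ((TrivSqZeroExt.fstHom K K K).toRingHom.comp L) = RingHom.id K := by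
      refine IsLocalization.ringHom_ext (nonZeroDivisors R3) ?_
      ext P
      · simp only [RingHom.coe_comp, Function.comp_apply, hL1]
        simp [dualHom]
      · simp only [RingHom.coe_comp, Function.comp_apply, hL1]
        simp [dualHom]
    intro x
    exact congrArg (fun f : K →+* K => f x) h1
  have hconst : ∀ c : ℂ, L (algebraMap ℂ K c) = TrivSqZeroExt.inl (algebraMap ℂ K c) := by
    intro c
    rw [IsScalarTower.algebraMap_apply ℂ R3 K, hL1]
    ext
    · simp [dualHom]
    · simp [dualHom]
  let E : Derivation ℂ K K := Derivation.mk'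
    { toFun := fun x => (L x).snd
      map_add' := by intro x y; simp
      map_smul' := by
        intro c x
        rw [Algebra.smul_def, map_mul, hconst, TrivSqZeroExt.snd_mul]
        simp [Algebra.smul_def] }
    (by
      intro x y
      change (L (x * y)).snd = x • (L y).snd + y • (L x).snd
      rw [map_mul, TrivSqZeroExt.snd_mul, hfst, hfst]
      simp [mul_comm])
  refine ⟨E, ?_⟩
  intro P
  change (L (algebraMap R3 K P)).snd = D P
  rw [hL1]
  simp [dualHom]

end SAFP
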