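import Mathlib
import Pool.Agent.Lib.MP_4eb9bb_ag.Val

open MvPolynomial

namespace SAFP

open DVal

variable {K : Type*} [Field K] [Algebra ℂ K]

theorem jac_step (D : Fin 3 → Derivation ℂ K K) (x y u : K) :
    jac D (x + y ^ 3) (u + x ^ 2 * y + y ^ 3) y = - jac D x y u := by
  unfold jac
  simp only [map_add, Derivation.leibniz, Derivation.leibniz_pow, smul_eq_mul, nsmul_eq_mul]
  push_cast
  ring

theorem jac_lin (D : Fin 3 → Derivation ℂ K K) (x y u : K) (c : ℂ) :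
    jac D (x - algebraMap ℂ K c * y) y (u + x ^ 2 * y + y ^ 3) = jac D x y u := by
  unfold jac
  simp only [map_add, map_sub, Derivation.leibniz, Derivation.leibniz_pow, smul_eq_mul,
    nsmul_eq_mul, Derivation.map_algebraMap]
  push_cast
  ring

theorem jac_rho (D : Fin 3 → Derivation ℂ K K) (x y u : K) (hy : y ≠ 0) (c : ℂ) :
    jac D (algebraMap ℂ K c ^ 2 - (x / y) ^ 2 +
      (algebraMap ℂ K c ^ 2 + 1) * (x / y) * (1 / y) ^ 2) (u / y) (1 / y) =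
      (-2 * (x / y) + (algebraMap ℂ K c ^ 2 + 1) * (1 / y) ^ 2) * (1 / y) ^ 4 *
        jac D x y u := by
  unfold jac
  simp only [map_add, map_sub, Derivation.leibniz, Derivation.leibniz_pow,
    Derivation.leibniz_div, smul_eq_mul, nsmul_eq_mul, Derivation.map_algebraMap,
    Derivation.map_one_eq_zero]
  push_cast
  field_simp
  ring

/-- An orbit of the map in a field extension of the complex numbers. -/
structure Orb (K : Type*) [Field K] [Algebra ℂ K] where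
  u : ℕ → K
  x : ℕ → K
  y : ℕ → K
  hu : ∀ n, u (n + 1) = y n
  hx : ∀ n, x (n + 1) = x n + y n ^ 3
  hy : ∀ n, y (n + 1) = u n + x n ^ 2 * y n + y n ^ 3
  nz : ∀ n (P : MvPolynomial (Fin 3) ℂ), P ≠ 0 → aeval ![u n, x n, y n] P ≠ 0

namespace Orb

variable (o : Orb K)

theorem u_ne (n : ℕ) : o.u n ≠ 0 := by
  have := o.nz n (X 0) (X_ne_zero _)
  simpa using this

theorem x_ne (n : ℕ) : o.x n ≠ 0 := by
  have := o.nz n (X 1) (X_ne_zero _)
  simpa using this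

theorem y_ne (n : ℕ) : o.y n ≠ 0 := by
  have := o.nz n (X 2) (X_ne_zero _)
  simpa using this

theorem q_ne (n : ℕ) : o.x n ^ 2 + o.y n ^ 2 ≠ 0 := by
  have h : (X 1 ^ 2 + X 2 ^ 2 : MvPolynomial (Fin 3) ℂ) ≠ 0 := by
    intro h
    have := congrArg (eval ![0, 1, 0]) h
    simp at this
  have := o.nz n _ h
  simpa using this

theorem l_ne (n : ℕ) (c : ℂ) : o.x n - algebraMap ℂ K c * o.y n ≠ 0 := by
  have h : (X 1 - C c * X 2 : MvPolynomial (Fin 3) ℂ) ≠ 0 := by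
    intro h
    have := congrArg (eval ![0, 1, 0]) h
    simp at this
  have := o.nz n _ h
  simpa using this

theorem hy' (n : ℕ) : o.y (n + 1) = o.u n + o.y n * (o.x n ^ 2 + o.y n ^ 2) := by
  rw [o.hy]; ring

variable (ν : DVal K)

/-- The good region. -/
def Good (n : ℕ) : Prop :=
  ν.v (o.y n) < 0 ∧ ν.v (o.y n) < ν.v (o.u n) ∧ ν.v (o.y n) ≤ ν.v (o.x n) ∧
    ν.v (o.x n ^ 2 + o.y n ^ 2) = 2 * ν.v (o.y n)

theorem good_step {n : ℕ} (h : o.Good ν n) :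
    ν.v (o.y (n + 1)) = 3 * ν.v (o.y n) ∧ ν.v (o.x (n + 1)) = 3 * ν.v (o.y n) ∧
      ν.v (o.u (n + 1)) = ν.v (o.y n) := by
  obtain ⟨h1, h2, h3, h4⟩ := h
  refine ⟨?_, ?_, ?_⟩
  · rw [o.hy']
    have h5 : ν.v (o.y n * (o.x n ^ 2 + o.y n ^ 2)) = 3 * ν.v (o.y n) := by
      rw [ν.v_mul (o.y_ne n) (o.q_ne n), h4]; ring
    have h6 := ν.v_add_eq' (mul_ne_zero (o.y_ne n) (o.q_ne n)) (y := o.u n)
      (ν.ge_of_le (by rw [h5]; omega))
    rw [h6.2, h5]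
  · rw [o.hx]
    have h5 : ν.v (o.y n ^ 3) = 3 * ν.v (o.y n) := by
      rw [ν.v_pow (o.y_ne n)]; norm_num
    have h6 := ν.v_add_eq' (pow_ne_zero 3 (o.y_ne n)) (y := o.x n)
      (ν.ge_of_le (by rw [h5]; omega))
    rw [h6.2, h5]
  · rw [o.hu]

/-- Residue step. -/
theorem res_step {n : ℕ} (h1 : ν.v (o.y n) < 0) (h2 : ν.v (o.y n) < ν.v (o.u n)) {c : ℂ}
    (hc : c ^ 2 + 1 ≠ 0)
    (h3 : ν.ge (o.x n - algebraMap ℂ K c * o.y n) (ν.v (o.y n) + 1)) :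
    o.Good ν n ∧
      ν.ge (o.x (n + 1) - algebraMap ℂ K (1 / (c ^ 2 + 1)) * o.y (n + 1))
        (ν.v (o.y (n + 1)) + 1) := by
  have hy0 := o.y_ne n
  set a : K := algebraMap ℂ K c with ha
  have hcy : ν.ge (a * o.y n) (ν.v (o.y n)) := by
    have := ν.ge_mul (ν.ge_const c) (ν.ge_self (o.y n))
    rwa [zero_add] at this
  have hx' : ν.ge (o.x n) (ν.v (o.y n)) := by
    have := ν.ge_add (ν.ge_mono h3 (by omega)) hcy
    rwa [sub_add_cancel] at this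
  have hp : ν.ge (o.x n + a * o.y n) (ν.v (o.y n)) := ν.ge_add hx' hcy
  have hprod := ν.ge_mul h3 hp
  have hq : ν.v (o.x n ^ 2 + o.y n ^ 2) = 2 * ν.v (o.y n) := by
    have e1 : o.x n ^ 2 + o.y n ^ 2 = algebraMap ℂ K (c ^ 2 + 1) * o.y n ^ 2 +
        (o.x n - a * o.y n) * (o.x n + a * o.y n) := by
      rw [map_add, map_pow, map_one, ← ha]; ring
    have hne : algebraMap ℂ K (c ^ 2 + 1) * o.y n ^ 2 ≠ 0 :=
      mul_ne_zero (by rwa [Ne, map_eq_zero]) (pow_ne_zero 2 hy0)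
    have e2 : ν.v (algebraMap ℂ K (c ^ 2 + 1) * o.y n ^ 2) = 2 * ν.v (o.y n) := by
      rw [ν.v_mul (by rwa [Ne, map_eq_zero]) (pow_ne_zero 2 hy0), ν.v_const _ hc,
        ν.v_pow hy0]
      push_cast; ring
    rw [e1]
    have := ν.v_add_eq hne (ν.ge_mono hprod (by rw [e2]; omega))
    rw [this.2, e2]
  have hgood : o.Good ν n := ⟨h1, h2, ν.le_of_ge hx' (o.x_ne n), hq⟩
  refine ⟨hgood, ?_⟩
  obtain ⟨g1, -, -⟩ := o.good_step ν hgood
  rw [g1]
  have hc' : (algebraMap ℂ K (1 / (c ^ 2 + 1))) * algebraMap ℂ K (c ^ 2 + 1) = 1 := by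
    rw [← map_mul, one_div_mul_cancel hc, map_one]
  have e3 : o.x (n + 1) - algebraMap ℂ K (1 / (c ^ 2 + 1)) * o.y (n + 1) =
      o.x n - algebraMap ℂ K (1 / (c ^ 2 + 1)) * o.u n -
        algebraMap ℂ K (1 / (c ^ 2 + 1)) * (o.y n *
          ((o.x n - a * o.y n) * (o.x n + a * o.y n))) := by
    rw [o.hx, o.hy']
    have e4 : algebraMap ℂ K (c ^ 2 + 1) = a ^ 2 + 1 := by
      rw [map_add, map_pow, map_one, ← ha]
    rw [e4] at hc'
    linear_combination (-(o.y n) ^ 3) * hc'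
  rw [e3]
  have t1 : ν.ge (o.x n) (3 * ν.v (o.y n) + 1) := ν.ge_mono hx' (by omega)
  have t2 : ν.ge (algebraMap ℂ K (1 / (c ^ 2 + 1)) * o.u n) (3 * ν.v (o.y n) + 1) := by
    have := ν.ge_mul (ν.ge_const (1 / (c ^ 2 + 1))) (ν.ge_self (o.u n))
    exact ν.ge_mono this (by omega)
  have t3 : ν.ge (algebraMap ℂ K (1 / (c ^ 2 + 1)) * (o.y n *
          ((o.x n - a * o.y n) * (o.x n + a * o.y n)))) (3 * ν.v (o.y n) + 1) := by
    have := ν.ge_mul (ν.ge_const (1 / (c ^ 2 + 1))) (ν.ge_mul (ν.ge_self (o.y n)) hprod)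
    exact ν.ge_mono this (by omega)
  exact ν.ge_sub (ν.ge_sub t1 t2) t3

/-- If the residue is real then the orbit is good forever. -/
theorem good_of_real {n : ℕ} (h1 : ν.v (o.y n) < 0) (h2 : ν.v (o.y n) < ν.v (o.u n)) {c : ℝ}
    (h3 : ν.ge (o.x n - algebraMap ℂ K (c : ℂ) * o.y n) (ν.v (o.y n) + 1)) :
    ∀ m, n ≤ m → o.Good ν m := by
  have key : ∀ k, ν.v (o.y (n + k)) < 0 ∧ ν.v (o.y (n + k)) < ν.v (o.u (n + k)) ∧
      ∃ c : ℝ, ν.ge (o.x (n + k) - algebraMap ℂ K (c : ℂ) * o.y (n + k))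
        (ν.v (o.y (n + k)) + 1) := by
    intro k
    induction k with
    | zero => exact ⟨h1, h2, c, h3⟩
    | succ k ih =>
      obtain ⟨i1, i2, d, i3⟩ := ih
      have hd : ((d : ℂ)) ^ 2 + 1 ≠ 0 := by
        have : (0 : ℝ) < d ^ 2 + 1 := by positivity
        intro h
        have h' : ((d ^ 2 + 1 : ℝ) : ℂ) = 0 := by push_cast; exact h
        rw [Complex.ofReal_eq_zero] at h'
        exact this.ne' h'
      obtain ⟨g, r⟩ := o.res_step ν i1 i2 hd i3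
      obtain ⟨g1, -, g3⟩ := o.good_step ν g
      refine ⟨?_, ?_, 1 / (d ^ 2 + 1), ?_⟩
      · rw [← add_assoc, g1]; omega
      · rw [← add_assoc, g1, g3]; omega
      · have hcast : ((1 / (d ^ 2 + 1) : ℝ) : ℂ) = 1 / ((d : ℂ) ^ 2 + 1) := by push_cast; rfl
        rw [← add_assoc, hcast]
        exact r
  intro m hm
  obtain ⟨k, rfl⟩ : ∃ k, m = n + k := ⟨m - n, by omega⟩
  obtain ⟨i1, i2, d, i3⟩ := key k
  have hd : ((d : ℂ)) ^ 2 + 1 ≠ 0 := by
    have : (0 : ℝ) < d ^ 2 + 1 := by positivity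
    intro h
    have h' : ((d ^ 2 + 1 : ℝ) : ℂ) = 0 := by push_cast; exact h
    rw [Complex.ofReal_eq_zero] at h'
    exact this.ne' h'
  exact (o.res_step ν i1 i2 hd i3).1

/-- If `x` is much smaller than `y` then the orbit is good forever. -/
theorem good_of_small {n : ℕ} (h1 : ν.v (o.y n) < 0) (h2 : ν.v (o.y n) < ν.v (o.u n))
    (h3 : ν.v (o.y n) < ν.v (o.x n)) : ∀ m, n ≤ m → o.Good ν m := by
  refine o.good_of_real ν h1 h2 (c := 0) ?_
  rw [Complex.ofReal_zero, map_zero, zero_mul, sub_zero]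
  exact ν.ge_of_le (by omega)

end Orb

end SAFP
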