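import Mathlib
import Pool.Agent.Lib.MP_4eb9bb_ag.Dyn

open MvPolynomial

namespace SAFP

open DVal

variable {K : Type*} [Field K] [Algebra ℂ K]

namespace Orb

variable (o : Orb K) (ν : DVal K)

/-- The Jacobian along the orbit. -/
noncomputable def J (D : Fin 3 → Derivation ℂ K K) (n : ℕ) : K := jac D (o.x n) (o.y n) (o.u n)

theorem J_succ (D : Fin 3 → Derivation ℂ K K) (n : ℕ) : o.J D (n + 1) = - o.J D n := by
  rw [J, o.hx, o.hy, o.hu, jac_step, J]

theorem J_ne {D : Fin 3 → Derivation ℂ K K} (h : o.J D 0 ≠ 0) (n : ℕ) :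
    o.J D n ≠ 0 ∧ ν.v (o.J D n) = ν.v (o.J D 0) := by
  induction n with
  | zero => exact ⟨h, rfl⟩
  | succ n ih =>
    rw [J_succ]
    exact ⟨neg_ne_zero.mpr ih.1, by rw [ν.v_neg ih.1, ih.2]⟩

/-- After a bad time the orbit becomes good forever. -/
theorem bad_step {D : Fin 3 → Derivation ℂ K K} {C M : ℤ}
    (hC : ∀ a b c : K, a ≠ 0 → b ≠ 0 → c ≠ 0 →
      ν.ge (jac D a b c) (ν.v a + ν.v b + ν.v c - C))
    (hJ : o.J D 0 ≠ 0) (hM : C + ν.v (o.J D 0) ≤ M) (hM0 : 0 ≤ M) {n : ℕ}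
    (h1 : ν.v (o.y n) < -M) (h2 : ν.v (o.y n) < ν.v (o.u n))
    (h3 : ν.v (o.x n) = ν.v (o.y n)) (h4 : ¬ o.Good ν n) :
    ∀ m, n + 2 ≤ m → o.Good ν m := by
  have hy0 := o.y_ne n
  have hx0 := o.x_ne n
  have hq0 := o.q_ne n
  set s := ν.v (o.x n ^ 2 + o.y n ^ 2) with hs
  set b := ν.v (o.y n) with hb
  have hqge : ν.ge (o.x n ^ 2 + o.y n ^ 2) (2 * b) := by
    refine ν.ge_add ?_ ?_
    · have := ν.ge_pow (ν.ge_self (o.x n)) 2
      refine ν.ge_mono this ?_
      rw [h3]; push_cast; rfl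
    · have := ν.ge_pow (ν.ge_self (o.y n)) 2
      refine ν.ge_mono this ?_
      push_cast; rfl
  have hs1 : 2 * b < s := by
    have h5 := ν.le_of_ge hqge hq0
    rcases lt_or_eq_of_le h5 with h6 | h6
    · exact h6
    · exfalso
      exact h4 ⟨by omega, h2, h3.ge, h6.symm⟩
  -- factorisation
  have hfac : ∀ c : ℂ, c ^ 2 = -1 →
      (o.x n - algebraMap ℂ K c * o.y n) * (o.x n - algebraMap ℂ K (-c) * o.y n) =
        o.x n ^ 2 + o.y n ^ 2 := by
    intro c hc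
    have hc' : algebraMap ℂ K c ^ 2 = -1 := by
      rw [← map_pow, hc, map_neg, map_one]
    rw [map_neg]
    linear_combination (-(o.y n) ^ 2) * hc'
  have hlin : ∀ c : ℂ, c ≠ 0 → ν.ge (o.x n - algebraMap ℂ K c * o.y n) b := by
    intro c hc
    refine ν.ge_sub (ν.ge_of_le h3.ge) ?_
    have := ν.ge_mul (ν.ge_const c) (ν.ge_self (o.y n))
    rwa [zero_add] at this
  have hjac : ∀ c : ℂ, c ^ 2 = -1 → ν.v (o.x n - algebraMap ℂ K (-c) * o.y n) = b →
      s + ν.v (o.y (n + 1)) ≤ M := by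
    intro c hc hv
    have h5 := hC (o.x n - algebraMap ℂ K c * o.y n) (o.y n) (o.y (n + 1)) (o.l_ne n c) hy0
      (o.y_ne (n + 1))
    have h6 : jac D (o.x n - algebraMap ℂ K c * o.y n) (o.y n) (o.y (n + 1)) = o.J D n := by
      rw [o.hy, jac_lin, J]
    rw [h6] at h5
    have h7 := ν.le_of_ge h5 (o.J_ne ν hJ n).1
    rw [(o.J_ne ν hJ n).2] at h7
    have h8 : ν.v (o.x n - algebraMap ℂ K c * o.y n) + b = s := by
      rw [hs, ← hfac c hc, ν.v_mul (o.l_ne n c) (o.l_ne n (-c)), hv]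
    omega
  have hI : (Complex.I : ℂ) ^ 2 = -1 := Complex.I_sq
  have hI' : (-Complex.I : ℂ) ^ 2 = -1 := by rw [neg_sq]; exact Complex.I_sq
  have hkey : s + ν.v (o.y (n + 1)) ≤ M := by
    by_cases hA : ν.v (o.x n - algebraMap ℂ K (-Complex.I) * o.y n) = b
    · exact hjac Complex.I hI hA
    by_cases hB : ν.v (o.x n - algebraMap ℂ K Complex.I * o.y n) = b
    · refine hjac (-Complex.I) hI' ?_
      rw [neg_neg]; exact hB
    exfalso
    have hA' := ν.le_of_ge (hlin (-Complex.I) (neg_ne_zero.mpr Complex.I_ne_zero)) (o.l_ne n _)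
    have hB' := ν.le_of_ge (hlin Complex.I Complex.I_ne_zero) (o.l_ne n _)
    have h5 : ν.ge (algebraMap ℂ K (2 * Complex.I) * o.y n) (b + 1) := by
      have e : algebraMap ℂ K (2 * Complex.I) * o.y n =
          (o.x n - algebraMap ℂ K (-Complex.I) * o.y n) -
            (o.x n - algebraMap ℂ K Complex.I * o.y n) := by
        rw [map_mul, map_neg, map_ofNat]; ring
      rw [e]
      exact ν.ge_sub (ν.ge_of_le (by omega)) (ν.ge_of_le (by omega))
    have h2I : (2 * Complex.I : ℂ) ≠ 0 := mul_ne_zero two_ne_zero Complex.I_ne_zero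
    have h2I' : algebraMap ℂ K (2 * Complex.I) ≠ 0 := by rwa [Ne, map_eq_zero]
    have h6 := ν.le_of_ge h5 (mul_ne_zero h2I' hy0)
    rw [ν.v_mul h2I' hy0, ν.v_const _ h2I] at h6
    omega
  have hys : ν.v (o.y n * (o.x n ^ 2 + o.y n ^ 2)) = b + s := by
    rw [ν.v_mul hy0 hq0]
  have hyup : ν.v (o.y (n + 1)) ≤ M := by
    by_cases hs0 : s < 0
    · rw [o.hy']
      have h6 := ν.v_add_eq' (mul_ne_zero hy0 hq0) (y := o.u n)
        (ν.ge_of_le (by rw [hys]; omega))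
      rw [h6.2, hys]; omega
    · omega
  have hylo : 3 * b < ν.v (o.y (n + 1)) := by
    have h5 : ν.ge (o.y (n + 1)) (3 * b + 1) := by
      rw [o.hy']
      exact ν.ge_add (ν.ge_of_le (by omega)) (ν.ge_of_le (by rw [hys]; omega))
    have := ν.le_of_ge h5 (o.y_ne _)
    omega
  have hx1 : ν.v (o.x (n + 1)) = 3 * b := by
    rw [o.hx]
    have h5 : ν.v (o.y n ^ 3) = 3 * b := by
      rw [ν.v_pow hy0]; norm_num; rfl
    have h6 := ν.v_add_eq' (pow_ne_zero 3 hy0) (y := o.x n) (ν.ge_of_le (by rw [h5]; omega))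
    rw [h6.2, h5]
  have hu1 : ν.v (o.u (n + 1)) = b := by rw [o.hu]
  set b1 := ν.v (o.y (n + 1)) with hb1
  have hq1 : ν.v (o.x (n + 1) ^ 2 + o.y (n + 1) ^ 2) = 6 * b := by
    have h5 : ν.v (o.x (n + 1) ^ 2) = 6 * b := by
      rw [ν.v_pow (o.x_ne _), hx1]; push_cast; ring
    have h6 := ν.v_add_eq (pow_ne_zero 2 (o.x_ne (n + 1))) (y := o.y (n + 1) ^ 2)
      (ν.ge_of_le (by rw [h5, ν.v_pow (o.y_ne _)]; push_cast; omega))
    rw [h6.2, h5]
  have hy2 : ν.v (o.y (n + 2)) = b1 + 6 * b := by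
    rw [show n + 2 = (n + 1) + 1 from rfl, o.hy' (n + 1)]
    have h5 : ν.v (o.y (n + 1) * (o.x (n + 1) ^ 2 + o.y (n + 1) ^ 2)) = b1 + 6 * b := by
      rw [ν.v_mul (o.y_ne _) (o.q_ne _), hq1]
    have h6 := ν.v_add_eq' (mul_ne_zero (o.y_ne (n + 1)) (o.q_ne (n + 1))) (y := o.u (n + 1))
      (ν.ge_of_le (by rw [h5, hu1]; omega))
    rw [h6.2, h5]
  have hu2 : ν.v (o.u (n + 2)) = b1 := by
    rw [show n + 2 = (n + 1) + 1 from rfl, o.hu]
  have hx2 : ν.v (o.y (n + 2)) < ν.v (o.x (n + 2)) := by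
    have h5 : ν.ge (o.x (n + 2)) (b1 + 6 * b + 1) := by
      rw [show n + 2 = (n + 1) + 1 from rfl, o.hx (n + 1)]
      refine ν.ge_add (ν.ge_of_le (by rw [hx1]; omega)) (ν.ge_of_le ?_)
      rw [ν.v_pow (o.y_ne _)]; push_cast; omega
    have := ν.le_of_ge h5 (o.x_ne _)
    omega
  exact o.good_of_small ν (by omega) (by omega) hx2

/-- Every sufficiently large orbit is eventually good. -/
theorem eventually_good {D : Fin 3 → Derivation ℂ K K} {C : ℤ}
    (hC : ∀ a b c : K, a ≠ 0 → b ≠ 0 → c ≠ 0 →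
      ν.ge (jac D a b c) (ν.v a + ν.v b + ν.v c - C))
    (hJ : o.J D 0 ≠ 0)
    (hunb : ∀ B : ℤ, ∃ n, ν.v (o.x n) < B ∨ ν.v (o.y n) < B ∨ ν.v (o.u n) < B) :
    ∃ n₁, ∀ n, n₁ ≤ n → o.Good ν n := by
  classical
  -- threshold
  obtain ⟨M, hM, hM0, hMx, hMu⟩ : ∃ M : ℤ, C + ν.v (o.J D 0) ≤ M ∧ 0 ≤ M ∧
      -M ≤ ν.v (o.x 0) ∧ -M ≤ ν.v (o.u 0) :=
    ⟨|C + ν.v (o.J D 0)| + |ν.v (o.x 0)| + |ν.v (o.u 0)|, by
      have a1 := le_abs_self (C + ν.v (o.J D 0))
      have a2 := abs_nonneg (ν.v (o.x 0))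
      have a3 := abs_nonneg (ν.v (o.u 0))
      have a4 := neg_abs_le (ν.v (o.x 0))
      have a5 := neg_abs_le (ν.v (o.u 0))
      have a6 := abs_nonneg (C + ν.v (o.J D 0))
      refine ⟨?_, ?_, ?_, ?_⟩ <;> omega⟩
  have hxb : ∀ n, (∀ j, j < n → -M ≤ ν.v (o.y j)) → -(3 * M) ≤ ν.v (o.x n) := by
    intro n
    induction n with
    | zero => intro _; omega
    | succ n ih =>
      intro h
      have h1 := ih (fun j hj => h j (by omega))
      have h2 := h n (by omega)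
      have h3 : ν.ge (o.x (n + 1)) (-(3 * M)) := by
        rw [o.hx]
        refine ν.ge_add (ν.ge_of_le h1) (ν.ge_of_le ?_)
        rw [ν.v_pow (o.y_ne _)]; push_cast; omega
      exact ν.le_of_ge h3 (o.x_ne _)
  have hex : ∃ n, ν.v (o.y n) < -M := by
    by_contra hcon
    push Not at hcon
    obtain ⟨n, hn⟩ := hunb (-(3 * M))
    rcases hn with hn | hn | hn
    · have := hxb n (fun j _ => hcon j)
      omega
    · have := hcon n
      omega
    · rcases n with _ | n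
      · omega
      · rw [o.hu] at hn
        have := hcon n
        omega
  set n := Nat.find hex with hn
  have hn1 : ν.v (o.y n) < -M := Nat.find_spec hex
  have hn2 : ∀ j, j < n → -M ≤ ν.v (o.y j) := by
    intro j hj
    have := Nat.find_min hex hj
    omega
  have hx3 := hxb n hn2
  have hu3 : -M ≤ ν.v (o.u n) := by
    rcases hnn : n with _ | k
    · exact hMu
    · rw [o.hu]
      exact hn2 k (by omega)
  rcases lt_trichotomy (ν.v (o.y n)) (ν.v (o.x n)) with hlt | heq | hgt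
  · exact ⟨n, o.good_of_small ν (by omega) (by omega) hlt⟩
  · -- equal sizes
    by_cases hall : ∀ m, n ≤ m → o.Good ν m
    · exact ⟨n, hall⟩
    · push Not at hall
      set m := Nat.find hall with hm
      have hm1 : n ≤ m ∧ ¬ o.Good ν m := Nat.find_spec hall
      have hm2 : ∀ j, n ≤ j → j < m → o.Good ν j := by
        intro j hj1 hj2
        have := Nat.find_min hall hj2
        by_contra hng
        exact this ⟨hj1, hng⟩
      -- invariants up to m
      have hinv : ∀ k, n + k ≤ m → ν.v (o.y (n + k)) < -M ∧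
          ν.v (o.y (n + k)) < ν.v (o.u (n + k)) ∧ ν.v (o.x (n + k)) = ν.v (o.y (n + k)) := by
        intro k
        induction k with
        | zero => intro _; exact ⟨hn1, by simp only [add_zero]; omega, heq.symm⟩
        | succ k ih =>
          intro hk
          obtain ⟨i1, i2, i3⟩ := ih (by omega)
          have g := hm2 (n + k) (by omega) (by omega)
          obtain ⟨g1, g2, g3⟩ := o.good_step ν g
          rw [← add_assoc]
          refine ⟨by omega, by omega, by omega⟩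
      obtain ⟨k, hk⟩ : ∃ k, m = n + k := ⟨m - n, by omega⟩
      obtain ⟨i1, i2, i3⟩ := hinv k (by omega)
      rw [← hk] at i1 i2 i3
      exact ⟨m + 2, o.bad_step ν hC hJ hM hM0 i1 i2 i3 hm1.2⟩
  · -- x larger than y
    have hq : ν.v (o.x n ^ 2 + o.y n ^ 2) = 2 * ν.v (o.x n) := by
      have h5 : ν.v (o.x n ^ 2) = 2 * ν.v (o.x n) := by
        rw [ν.v_pow (o.x_ne _)]; push_cast; ring
      have h6 := ν.v_add_eq (pow_ne_zero 2 (o.x_ne n)) (y := o.y n ^ 2)
        (ν.ge_of_le (by rw [h5, ν.v_pow (o.y_ne _)]; push_cast; omega))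
      rw [h6.2, h5]
    have hy1 : ν.v (o.y (n + 1)) = ν.v (o.y n) + 2 * ν.v (o.x n) := by
      rw [o.hy']
      have h5 : ν.v (o.y n * (o.x n ^ 2 + o.y n ^ 2)) = ν.v (o.y n) + 2 * ν.v (o.x n) := by
        rw [ν.v_mul (o.y_ne _) (o.q_ne _), hq]
      have h6 := ν.v_add_eq' (mul_ne_zero (o.y_ne n) (o.q_ne n)) (y := o.u n)
        (ν.ge_of_le (by rw [h5]; omega))
      rw [h6.2, h5]
    have hx1 : ν.v (o.x (n + 1)) = 3 * ν.v (o.y n) := by
      rw [o.hx]
      have h5 : ν.v (o.y n ^ 3) = 3 * ν.v (o.y n) := by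
        rw [ν.v_pow (o.y_ne _)]; norm_num
      have h6 := ν.v_add_eq' (pow_ne_zero 3 (o.y_ne n)) (y := o.x n)
        (ν.ge_of_le (by rw [h5]; omega))
      rw [h6.2, h5]
    have hu1 : ν.v (o.u (n + 1)) = ν.v (o.y n) := by rw [o.hu]
    exact ⟨n + 1, o.good_of_small ν (by omega) (by omega) (by omega)⟩

end Orb

end SAFP
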