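import Mathlib
import Pool.Agent.Lib.MP_4eb9bb_ag.Dyn2

open MvPolynomial

namespace SAFP

open DVal

variable {K : Type*} [Field K] [Algebra ℂ K]

namespace Orb

variable (o : Orb K) (ν : DVal K)

/-- Exact sizes in the good region. -/
def Big (n : ℕ) : Prop :=
  o.Good ν n ∧ ν.v (o.x n) = ν.v (o.y n) ∧ 3 * ν.v (o.u n) = ν.v (o.y n)

theorem big_succ {n : ℕ} (h : o.Good ν n) (h' : o.Good ν (n + 1)) : o.Big ν (n + 1) := by
  obtain ⟨g1, g2, g3⟩ := o.good_step ν h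
  exact ⟨h', by rw [g1, g2], by rw [g1, g3]⟩

/-- Ratio of the coordinates. -/
noncomputable def W (n : ℕ) : K := o.x n / o.y n

theorem W_ne (n : ℕ) : o.W n ≠ 0 := div_ne_zero (o.x_ne n) (o.y_ne n)

theorem W_sub_ne (n : ℕ) (c : ℂ) : o.W n - algebraMap ℂ K c ≠ 0 := by
  have h := o.l_ne n c
  have hy := o.y_ne n
  have e : o.W n - algebraMap ℂ K c = (o.x n - algebraMap ℂ K c * o.y n) / o.y n := by
    rw [W]; field_simp
  rw [e]
  exact div_ne_zero h hy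

theorem v_W {n : ℕ} (h : o.Big ν n) : ν.v (o.W n) = 0 := by
  rw [W, ν.v_div (o.x_ne n) (o.y_ne n), h.2.1]; ring

theorem ge_W_sub {n : ℕ} (h : o.Big ν n) (c : ℂ) : ν.ge (o.W n - algebraMap ℂ K c) 0 :=
  ν.ge_sub (ν.ge_of_le (by rw [o.v_W ν h])) (ν.ge_const c)

theorem v_W_sub_nonneg {n : ℕ} (h : o.Big ν n) (c : ℂ) :
    0 ≤ ν.v (o.W n - algebraMap ℂ K c) := ν.le_of_ge (o.ge_W_sub ν h c) (o.W_sub_ne n c)

/-- At most one residue. -/
theorem v_W_sub_other {n : ℕ} {c d : ℂ}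
    (hc : 0 < ν.v (o.W n - algebraMap ℂ K c)) (hd : d ≠ c) :
    ν.v (o.W n - algebraMap ℂ K d) = 0 := by
  have h1 : c - d ≠ 0 := sub_ne_zero.mpr (Ne.symm hd)
  have h1' : algebraMap ℂ K (c - d) ≠ 0 := by rwa [Ne, map_eq_zero]
  have h2 : ν.v (algebraMap ℂ K (c - d)) = 0 := ν.v_const _ h1
  have h3 := ν.v_add_eq h1' (y := o.W n - algebraMap ℂ K c) (ν.ge_of_le (by rw [h2]; omega))
  have h4 : algebraMap ℂ K (c - d) + (o.W n - algebraMap ℂ K c) = o.W n - algebraMap ℂ K d := by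
    rw [map_sub]; ring
  rw [h4, h2] at h3
  exact h3.2

/-- The auxiliary function. -/
noncomputable def rho (n : ℕ) (c : ℂ) : K :=
  algebraMap ℂ K c ^ 2 - (o.x n / o.y n) ^ 2 +
      (algebraMap ℂ K c ^ 2 + 1) * (o.x n / o.y n) * (1 / o.y n) ^ 2

theorem res_identity (n : ℕ) {c : ℂ} (hc : c ^ 2 + 1 ≠ 0) :
    (o.W (n + 1) - algebraMap ℂ K (1 / (c ^ 2 + 1))) * (o.y (n + 1) / o.y n ^ 3) *
      algebraMap ℂ K (c ^ 2 + 1) = o.rho n c - (o.u n / o.y n) * (1 / o.y n) ^ 2 := by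
  have hy := o.y_ne n
  have hy1 := o.y_ne (n + 1)
  have e4 : algebraMap ℂ K (c ^ 2 + 1) = algebraMap ℂ K c ^ 2 + 1 := by
    rw [map_add, map_pow, map_one]
  have hc1 : algebraMap ℂ K (c ^ 2 + 1) ≠ 0 := by rwa [Ne, map_eq_zero]
  have hc' : algebraMap ℂ K (1 / (c ^ 2 + 1)) = 1 / (algebraMap ℂ K c ^ 2 + 1) := by
    rw [map_div₀, map_one, e4]
  rw [e4] at hc1
  have e5 : (o.W (n + 1) - algebraMap ℂ K (1 / (c ^ 2 + 1))) * (o.y (n + 1) / o.y n ^ 3) *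
      algebraMap ℂ K (c ^ 2 + 1) =
      (o.x (n + 1) * (algebraMap ℂ K c ^ 2 + 1) - o.y (n + 1)) / o.y n ^ 3 := by
    rw [hc', e4, W]
    field_simp
  rw [e5, o.hx, o.hy, rho]
  field_simp
  ring

theorem v_res {n : ℕ} (h : o.Good ν n) {c : ℂ} (hc : c ^ 2 + 1 ≠ 0) :
    o.rho n c - (o.u n / o.y n) * (1 / o.y n) ^ 2 ≠ 0 ∧
    ν.v (o.rho n c - (o.u n / o.y n) * (1 / o.y n) ^ 2) =
      ν.v (o.W (n + 1) - algebraMap ℂ K (1 / (c ^ 2 + 1))) := by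
  obtain ⟨g1, -, -⟩ := o.good_step ν h
  have hc1 : algebraMap ℂ K (c ^ 2 + 1) ≠ 0 := by rwa [Ne, map_eq_zero]
  have hy := o.y_ne n
  have hy1 := o.y_ne (n + 1)
  have hq : o.y (n + 1) / o.y n ^ 3 ≠ 0 := div_ne_zero hy1 (pow_ne_zero 3 hy)
  have hW := o.W_sub_ne (n + 1) (1 / (c ^ 2 + 1))
  rw [← o.res_identity n hc]
  refine ⟨mul_ne_zero (mul_ne_zero hW hq) hc1, ?_⟩
  rw [ν.v_mul (mul_ne_zero hW hq) hc1, ν.v_mul hW hq, ν.v_const _ hc,
    ν.v_div hy1 (pow_ne_zero 3 hy), ν.v_pow hy, g1]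
  push_cast
  ring

/-- Consequences of being close to a constant. -/
theorem close_facts {n : ℕ} (h : o.Big ν n) {c : ℂ}
    (hc : 0 < ν.v (o.W n - algebraMap ℂ K c)) : c ≠ 0 ∧ c ^ 2 + 1 ≠ 0 := by
  have hW := o.v_W ν h
  constructor
  · rintro rfl
    rw [map_zero, sub_zero, hW] at hc
    omega
  · intro h0
    -- then `W² + 1` has positive value
    have hy := o.y_ne n
    have hq := o.q_ne n
    have h1 : ν.v (o.x n ^ 2 + o.y n ^ 2) = 2 * ν.v (o.y n) := h.1.2.2.2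
    have h2 : o.x n ^ 2 + o.y n ^ 2 =
        o.y n ^ 2 * ((o.W n - algebraMap ℂ K c) * (o.W n + algebraMap ℂ K c)) := by
      have h3 : algebraMap ℂ K c ^ 2 = -1 := by
        rw [← map_pow, show c ^ 2 = -1 by linear_combination h0, map_neg, map_one]
      have h4 : (o.W n - algebraMap ℂ K c) * (o.W n + algebraMap ℂ K c) = o.W n ^ 2 + 1 := by
        linear_combination -h3
      rw [h4, W]
      field_simp
    have h5 : ν.ge (o.x n ^ 2 + o.y n ^ 2) (2 * ν.v (o.y n) + 1) := by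
      rw [h2]
      have a1 : ν.ge (o.y n ^ 2) (2 * ν.v (o.y n)) := by
        have := ν.ge_pow (ν.ge_self (o.y n)) 2
        refine ν.ge_mono this ?_
        push_cast; rfl
      have a2 : ν.ge (o.W n - algebraMap ℂ K c) 1 := ν.ge_of_le (by omega)
      have a3 : ν.ge (o.W n + algebraMap ℂ K c) 0 :=
        ν.ge_add (ν.ge_of_le (by rw [hW])) (ν.ge_const c)
      have := ν.ge_mul a1 (ν.ge_mul a2 a3)
      refine ν.ge_mono this (by omega)
    have := ν.le_of_ge h5 hq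
    omega

theorem next_pos {n : ℕ} (h : o.Big ν n) {c : ℂ}
    (hc : 0 < ν.v (o.W n - algebraMap ℂ K c)) :
    0 < ν.v (o.W (n + 1) - algebraMap ℂ K (1 / (c ^ 2 + 1))) := by
  obtain ⟨hc0, hc1⟩ := o.close_facts ν h hc
  have hy := o.y_ne n
  have hy1 := o.y_ne (n + 1)
  have e1 : o.x n - algebraMap ℂ K c * o.y n = (o.W n - algebraMap ℂ K c) * o.y n := by
    rw [W]; field_simp
  have h3 : ν.ge (o.x n - algebraMap ℂ K c * o.y n) (ν.v (o.y n) + 1) := by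
    rw [e1]
    exact ν.ge_of_le (by rw [ν.v_mul (o.W_sub_ne n c) hy]; omega)
  obtain ⟨-, r⟩ := o.res_step ν h.1.1 h.1.2.1 hc1 h3
  have r' := ν.le_of_ge r (o.l_ne _ _)
  have e2 : o.x (n + 1) - algebraMap ℂ K (1 / (c ^ 2 + 1)) * o.y (n + 1) =
      (o.W (n + 1) - algebraMap ℂ K (1 / (c ^ 2 + 1))) * o.y (n + 1) := by
    rw [W]; field_simp
  rw [e2, ν.v_mul (o.W_sub_ne _ _) hy1] at r'
  omega

/-- Values of `W + c`. -/
theorem v_W_add {n : ℕ} {c : ℂ} (hc0 : c ≠ 0)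
    (hc : 0 < ν.v (o.W n - algebraMap ℂ K c)) :
    o.W n + algebraMap ℂ K c ≠ 0 ∧ ν.v (o.W n + algebraMap ℂ K c) = 0 := by
  have h1 : (2 * c) ≠ 0 := mul_ne_zero two_ne_zero hc0
  have h1' : algebraMap ℂ K (2 * c) ≠ 0 := by rwa [Ne, map_eq_zero]
  have h2 : ν.v (algebraMap ℂ K (2 * c)) = 0 := ν.v_const _ h1
  have h3 := ν.v_add_eq h1' (y := o.W n - algebraMap ℂ K c) (ν.ge_of_le (by rw [h2]; omega))
  have h4 : algebraMap ℂ K (2 * c) + (o.W n - algebraMap ℂ K c) = o.W n + algebraMap ℂ K c := by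
    rw [map_mul, map_ofNat]; ring
  rwa [h4, h2] at h3

theorem v_small {n : ℕ} (h : o.Big ν n) :
    ν.v ((o.u n / o.y n) * (1 / o.y n) ^ 2) = -8 * ν.v (o.u n) ∧
    ν.v (o.u n / o.y n) = -2 * ν.v (o.u n) ∧ ν.v (1 / o.y n) = -3 * ν.v (o.u n) := by
  have hy := o.y_ne n
  have hu := o.u_ne n
  have hT : (1 / o.y n) ≠ 0 := one_div_ne_zero hy
  have h1 : ν.v (o.u n / o.y n) = -2 * ν.v (o.u n) := by
    rw [ν.v_div hu hy, ← h.2.2]; ring
  have h2 : ν.v (1 / o.y n) = -3 * ν.v (o.u n) := by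
    rw [ν.v_div one_ne_zero hy, ν.v_one, ← h.2.2]; ring
  refine ⟨?_, h1, h2⟩
  rw [ν.v_mul (div_ne_zero hu hy) (pow_ne_zero 2 hT), ν.v_pow hT, h1, h2]
  push_cast; ring

/-- The first step: the approximation to a constant is controlled by the Jacobian. -/
theorem first_step {D : Fin 3 → Derivation ℂ K K} {C : ℤ}
    (hC : ∀ a b c : K, a ≠ 0 → b ≠ 0 → c ≠ 0 →
      ν.ge (jac D a b c) (ν.v a + ν.v b + ν.v c - C))
    (hJ : o.J D 0 ≠ 0) {n : ℕ} (h : o.Big ν n) {c : ℂ}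
    (hc : 0 < ν.v (o.W n - algebraMap ℂ K c))
    (hbig : C + ν.v (o.J D 0) < - ν.v (o.u n)) :
    ν.v (o.W (n + 1) - algebraMap ℂ K (1 / (c ^ 2 + 1))) < -8 * ν.v (o.u n) := by
  obtain ⟨hc0, hc1⟩ := o.close_facts ν h hc
  have hy := o.y_ne n
  have hu := o.u_ne n
  have hT : (1 / o.y n) ≠ 0 := one_div_ne_zero hy
  have hS : (o.u n / o.y n) ≠ 0 := div_ne_zero hu hy
  obtain ⟨s1, s2, s3⟩ := o.v_small ν h
  have hyneg : ν.v (o.y n) < 0 := h.1.1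
  have huy := h.2.2
  have hjr := jac_rho D (o.x n) (o.y n) (o.u n) hy c
  -- value of the factor
  have hW := o.v_W ν h
  have h2c : (-2 : ℂ) ≠ 0 := by norm_num
  have h2c' : algebraMap ℂ K (-2) ≠ 0 := by rwa [Ne, map_eq_zero]
  have hm : (-2 * (o.x n / o.y n)) ≠ 0 ∧ ν.v (-2 * (o.x n / o.y n)) = 0 := by
    have e : (-2 * (o.x n / o.y n)) = algebraMap ℂ K (-2) * o.W n := by
      rw [map_neg, map_ofNat, W]
    rw [e]
    refine ⟨mul_ne_zero h2c' (o.W_ne n), ?_⟩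
    rw [ν.v_mul h2c' (o.W_ne n), ν.v_const _ h2c, hW]; ring
  have hm2 : ν.ge ((algebraMap ℂ K c ^ 2 + 1) * (1 / o.y n) ^ 2) 1 := by
    have e4 : algebraMap ℂ K (c ^ 2 + 1) = algebraMap ℂ K c ^ 2 + 1 := by
      rw [map_add, map_pow, map_one]
    rw [← e4]
    have := ν.ge_mul (ν.ge_const (c ^ 2 + 1)) (ν.ge_pow (ν.ge_self (1 / o.y n)) 2)
    refine ν.ge_mono this ?_
    rw [s3]; push_cast; omega
  have hm3 := ν.v_add_eq hm.1 (y := (algebraMap ℂ K c ^ 2 + 1) * (1 / o.y n) ^ 2)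
    (ν.ge_mono hm2 (by rw [hm.2]; omega))
  rw [hm.2] at hm3
  obtain ⟨hJn0, hJv⟩ := o.J_ne ν hJ n
  have hJn : jac D (o.x n) (o.y n) (o.u n) ≠ 0 := hJn0
  have hjne : (-2 * (o.x n / o.y n) + (algebraMap ℂ K c ^ 2 + 1) * (1 / o.y n) ^ 2) *
      (1 / o.y n) ^ 4 * jac D (o.x n) (o.y n) (o.u n) ≠ 0 :=
    mul_ne_zero (mul_ne_zero hm3.1 (pow_ne_zero 4 hT)) hJn
  have hjv : ν.v ((-2 * (o.x n / o.y n) + (algebraMap ℂ K c ^ 2 + 1) * (1 / o.y n) ^ 2) *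
      (1 / o.y n) ^ 4 * jac D (o.x n) (o.y n) (o.u n)) = -12 * ν.v (o.u n) + ν.v (o.J D 0) := by
    rw [ν.v_mul (mul_ne_zero hm3.1 (pow_ne_zero 4 hT)) hJn, ν.v_mul hm3.1 (pow_ne_zero 4 hT),
      hm3.2, ν.v_pow hT, s3]
    have : ν.v (jac D (o.x n) (o.y n) (o.u n)) = ν.v (o.J D 0) := hJv
    rw [this]; push_cast; ring
  have hrho : o.rho n c ≠ 0 := by
    intro h0
    apply hjne
    rw [← hjr]
    have : jac D (o.rho n c) (o.u n / o.y n) (1 / o.y n) = 0 := by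
      rw [h0, jac]; simp
    exact this
  have h5 := ν.le_of_ge (hC (o.rho n c) (o.u n / o.y n) (1 / o.y n) hrho hS hT) (by
    have : jac D (o.rho n c) (o.u n / o.y n) (1 / o.y n) = _ := hjr
    rw [this]; exact hjne)
  have h6 : jac D (o.rho n c) (o.u n / o.y n) (1 / o.y n) = _ := hjr
  rw [h6, hjv, s2, s3] at h5
  have hrv : ν.v (o.rho n c) < -8 * ν.v (o.u n) := by omega
  obtain ⟨r1, r2⟩ := o.v_res ν h.1 hc1
  rw [← r2]
  have hSTne : ((o.u n / o.y n) * (1 / o.y n) ^ 2) ≠ 0 := mul_ne_zero hS (pow_ne_zero 2 hT)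
  have h7 := ν.v_add_eq hrho (y := -((o.u n / o.y n) * (1 / o.y n) ^ 2))
    (ν.ge_neg (ν.ge_of_le (by rw [s1]; omega)))
  rw [← sub_eq_add_neg] at h7
  rw [h7.2]
  exact hrv

/-- Later steps: the approximation to a constant is preserved. -/
theorem later_step {n : ℕ} (h : o.Big ν n) {c : ℂ}
    (hc : 0 < ν.v (o.W n - algebraMap ℂ K c))
    (hlt : ν.v (o.W n - algebraMap ℂ K c) < -6 * ν.v (o.u n)) :
    ν.v (o.W (n + 1) - algebraMap ℂ K (1 / (c ^ 2 + 1))) =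
      ν.v (o.W n - algebraMap ℂ K c) := by
  obtain ⟨hc0, hc1⟩ := o.close_facts ν h hc
  have hy := o.y_ne n
  have hu := o.u_ne n
  have hT : (1 / o.y n) ≠ 0 := one_div_ne_zero hy
  obtain ⟨s1, s2, s3⟩ := o.v_small ν h
  have hyneg : ν.v (o.y n) < 0 := h.1.1
  have huy := h.2.2
  obtain ⟨a1, a2⟩ := o.v_W_add ν hc0 hc
  have hW := o.v_W ν h
  obtain ⟨r1, r2⟩ := o.v_res ν h.1 hc1
  rw [← r2]
  have e4 : algebraMap ℂ K (c ^ 2 + 1) = algebraMap ℂ K c ^ 2 + 1 := by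
    rw [map_add, map_pow, map_one]
  have e : o.rho n c - (o.u n / o.y n) * (1 / o.y n) ^ 2 =
      -((o.W n - algebraMap ℂ K c) * (o.W n + algebraMap ℂ K c)) +
        (algebraMap ℂ K (c ^ 2 + 1) * (o.W n * (1 / o.y n) ^ 2) -
          (o.u n / o.y n) * (1 / o.y n) ^ 2) := by
    rw [rho, W, e4]; ring
  have hne : -((o.W n - algebraMap ℂ K c) * (o.W n + algebraMap ℂ K c)) ≠ 0 :=
    neg_ne_zero.mpr (mul_ne_zero (o.W_sub_ne n c) a1)
  have hv : ν.v (-((o.W n - algebraMap ℂ K c) * (o.W n + algebraMap ℂ K c))) =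
      ν.v (o.W n - algebraMap ℂ K c) := by
    rw [ν.v_neg (mul_ne_zero (o.W_sub_ne n c) a1), ν.v_mul (o.W_sub_ne n c) a1, a2, add_zero]
  rw [e]
  have h7 := ν.v_add_eq hne (y := algebraMap ℂ K (c ^ 2 + 1) * (o.W n * (1 / o.y n) ^ 2) -
          (o.u n / o.y n) * (1 / o.y n) ^ 2) (by
    refine ν.ge_sub ?_ ?_
    · have := ν.ge_mul (ν.ge_const (c ^ 2 + 1)) (ν.ge_mul (ν.ge_self (o.W n))
        (ν.ge_pow (ν.ge_self (1 / o.y n)) 2))
      refine ν.ge_mono this ?_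
      rw [hv, hW, s3]; push_cast; omega
    · refine ν.ge_of_le ?_
      rw [hv, s1]; omega)
  rw [h7.2, hv]

/-- The ratio stays away from every constant, uniformly. -/
theorem uniform_ratio {D : Fin 3 → Derivation ℂ K K} {C : ℤ}
    (hC : ∀ a b c : K, a ≠ 0 → b ≠ 0 → c ≠ 0 →
      ν.ge (jac D a b c) (ν.v a + ν.v b + ν.v c - C))
    (hJ : o.J D 0 ≠ 0) {n₁ : ℕ} (hgood : ∀ n, n₁ ≤ n → o.Good ν n) :
    ∃ (M : ℤ) (n₃ : ℕ), n₁ < n₃ ∧ 0 ≤ M ∧
      ∀ n, n₃ ≤ n → ∀ c : ℂ, ν.v (o.W n - algebraMap ℂ K c) ≤ M := by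
  have hbig : ∀ n, n₁ + 1 ≤ n → o.Big ν n := by
    intro n hn
    obtain ⟨m, rfl⟩ : ∃ m, n = m + 1 := ⟨n - 1, by omega⟩
    exact o.big_succ ν (hgood m (by omega)) (hgood (m + 1) (by omega))
  -- growth
  have hstep : ∀ n, n₁ + 1 ≤ n → ν.v (o.u (n + 1)) = 3 * ν.v (o.u n) := by
    intro n hn
    have h1 := hbig n hn
    obtain ⟨-, -, g3⟩ := o.good_step ν h1.1
    rw [g3, ← h1.2.2]
  have hneg : ∀ n, n₁ + 1 ≤ n → ν.v (o.u n) < 0 := by
    intro n hn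
    have h1 := hbig n hn
    have := h1.1.1
    have := h1.2.2
    omega
  have hgrow : ∀ k : ℕ, ν.v (o.u (n₁ + 1 + k)) ≤ -(k : ℤ) - 1 := by
    intro k
    induction k with
    | zero => have := hneg (n₁ + 1) le_rfl; push_cast; simp only [add_zero]; omega
    | succ k ih =>
      have h1 := hstep (n₁ + 1 + k) (by omega)
      rw [← add_assoc, h1]
      push_cast
      omega
  -- time after which the Jacobian is negligible
  obtain ⟨n₂, hn₂, hn₂'⟩ : ∃ n₂, n₁ + 1 ≤ n₂ ∧ ∀ n, n₂ ≤ n →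
      C + ν.v (o.J D 0) < - ν.v (o.u n) := by
    refine ⟨n₁ + 1 + (C + ν.v (o.J D 0)).toNat, by omega, ?_⟩
    intro n hn
    obtain ⟨k, rfl⟩ : ∃ k, n = n₁ + 1 + k := ⟨n - (n₁ + 1), by omega⟩
    have h1 := hgrow k
    have h2 := Int.self_le_toNat (C + ν.v (o.J D 0))
    have h3 : ((C + ν.v (o.J D 0)).toNat : ℤ) ≤ k := by
      have : (C + ν.v (o.J D 0)).toNat ≤ k := by omega
      exact_mod_cast this
    omega
  by_cases hex : ∃ n, n₂ ≤ n ∧ ∃ c : ℂ, 0 < ν.v (o.W n - algebraMap ℂ K c)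
  · obtain ⟨n, hn, c, hc⟩ := hex
    have hB := hbig n (by omega)
    have hf := o.first_step ν hC hJ hB hc (hn₂' n hn)
    have hp := o.next_pos ν hB hc
    set e := ν.v (o.W (n + 1) - algebraMap ℂ K (1 / (c ^ 2 + 1))) with he
    have key : ∀ k, ∃ d : ℂ, ν.v (o.W (n + 1 + k) - algebraMap ℂ K d) = e ∧
        e < -6 * ν.v (o.u (n + 1 + k)) := by
      intro k
      induction k with
      | zero =>
        refine ⟨1 / (c ^ 2 + 1), ?_, ?_⟩
        · rw [add_zero]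
        · rw [add_zero, hstep n (by omega)]
          have := hneg n (by omega)
          omega
      | succ k ih =>
        obtain ⟨d, h1, h2⟩ := ih
        have hB' := hbig (n + 1 + k) (by omega)
        have h3 := o.later_step ν hB' (c := d) (by rw [h1]; exact hp) (by rw [h1]; exact h2)
        refine ⟨1 / (d ^ 2 + 1), ?_, ?_⟩
        · rw [← add_assoc, h3, h1]
        · rw [← add_assoc, hstep _ (by omega)]
          have := hneg (n + 1 + k) (by omega)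
          omega
    refine ⟨e, n + 1, by omega, hp.le, ?_⟩
    intro m hm d
    obtain ⟨k, rfl⟩ : ∃ k, m = n + 1 + k := ⟨m - (n + 1), by omega⟩
    obtain ⟨d', h1, -⟩ := key k
    by_cases hd : d = d'
    · rw [hd, h1]
    · rw [o.v_W_sub_other ν (by rw [h1]; exact hp) hd]
      exact hp.le
  · push Not at hex
    exact ⟨0, n₂, by omega, le_rfl, fun n hn c => hex n hn c⟩

end Orb

end SAFP
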