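import Mathlib
import Pool.Agent.Lib.MP_4eb9bb_ag.Dyn3
import Pool.Agent.Lib.MP_4eb9bb_ag.Backward

open MvPolynomial

namespace SAFP

open DVal

variable {K : Type*} [Field K] [Algebra ℂ K]

theorem poly_val (ν : DVal K) {w : K} {M : ℤ}
    (h0 : ∀ c : ℂ, w - algebraMap ℂ K c ≠ 0)
    (h1 : ∀ c : ℂ, 0 ≤ ν.v (w - algebraMap ℂ K c))
    (h2 : ∀ c : ℂ, ν.v (w - algebraMap ℂ K c) ≤ M) :
    ∀ (d : ℕ) (p : Polynomial ℂ), p ≠ 0 → p.natDegree = d →
      Polynomial.aeval w p ≠ 0 ∧ 0 ≤ ν.v (Polynomial.aeval w p) ∧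
        ν.v (Polynomial.aeval w p) ≤ d * M := by
  intro d
  induction d with
  | zero =>
    intro p hp hd
    rw [Polynomial.eq_C_of_natDegree_eq_zero hd] at hp ⊢
    have hc : p.coeff 0 ≠ 0 := by
      intro h
      apply hp
      rw [h, Polynomial.C_0]
    rw [Polynomial.aeval_C]
    refine ⟨by rwa [Ne, map_eq_zero], ?_, ?_⟩
    · rw [ν.v_const _ hc]
    · rw [ν.v_const _ hc]; simp
  | succ d ih =>
    intro p hp hd
    have hdeg : p.degree ≠ 0 := by
      rw [Polynomial.degree_eq_natDegree hp, hd]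
      simp only [ne_eq, Nat.cast_eq_zero]
      omega
    obtain ⟨r, hr⟩ := IsAlgClosed.exists_root p hdeg
    obtain ⟨q, hq⟩ := Polynomial.dvd_iff_isRoot.mpr hr
    have hq0 : q ≠ 0 := by
      rintro rfl
      apply hp
      rw [hq, mul_zero]
    have hqd : q.natDegree = d := by
      have := congrArg Polynomial.natDegree hq
      rw [Polynomial.natDegree_mul (Polynomial.X_sub_C_ne_zero r) hq0,
        Polynomial.natDegree_X_sub_C, hd] at this
      omega
    obtain ⟨a1, a2, a3⟩ := ih q hq0 hqd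
    have e : Polynomial.aeval w p = (w - algebraMap ℂ K r) * Polynomial.aeval w q := by
      rw [hq, map_mul, map_sub, Polynomial.aeval_X, Polynomial.aeval_C]
    rw [e, ν.v_mul (h0 r) a1]
    refine ⟨mul_ne_zero (h0 r) a1, ?_, ?_⟩
    · have := h1 r; omega
    · have := h2 r
      push_cast
      linarith

namespace Orb

variable (o : Orb K) (ν : DVal K)

/-- Evaluation at the `n`-th point of the orbit. -/
noncomputable def ev (n : ℕ) : R3 →ₐ[ℂ] K := aeval ![o.u n, o.x n, o.y n]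

theorem expand {n : ℕ} (h : o.Big ν n) (P : R3) {D : ℕ} (hD : P.totalDegree ≤ D) :
    ν.ge (o.ev n P / o.y n ^ D -
      aeval (![0, o.W n, 1] : Fin 3 → K) (homogeneousComponent D P)) (-2 * ν.v (o.u n)) := by
  have hy := o.y_ne n
  have hx := o.x_ne n
  have hu := o.u_ne n
  have hyD := pow_ne_zero D hy
  have hyneg : ν.v (o.y n) < 0 := h.1.1
  have huy := h.2.2
  have hxy := h.2.1
  rw [homogeneousComponent_apply, Finset.sum_filter, map_sum, ev, aeval_def, eval₂_eq',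
    Finset.sum_div, ← Finset.sum_sub_distrib]
  refine ν.ge_sum _ _ ?_
  intro s hs
  have hsD : s 0 + s 1 + s 2 ≤ D := by
    have h1 := le_trans (le_totalDegree hs) hD
    have h2 : (s.sum fun _ e => e) = s 0 + s 1 + s 2 := by
      rw [Finsupp.sum_fintype _ _ (by simp), Fin.sum_univ_three]
    rw [h2] at h1
    exact h1
  have hdeg : s.degree = s 0 + s 1 + s 2 := by
    rw [Finsupp.degree_eq_sum, Fin.sum_univ_three]
  rw [Fin.prod_univ_three, hdeg]
  simp only [Matrix.cons_val_zero, Matrix.cons_val_one, Matrix.cons_val_two, Matrix.head_cons,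
    Matrix.tail_cons]
  by_cases hcase : s 0 + s 1 + s 2 = D ∧ s 0 = 0
  · obtain ⟨h1, h2⟩ := hcase
    left
    rw [if_pos h1, aeval_monomial, Finsupp.prod_fintype _ _ (by simp), Fin.prod_univ_three]
    simp only [Matrix.cons_val_zero, Matrix.cons_val_one, Matrix.cons_val_two, Matrix.head_cons,
      Matrix.tail_cons]
    rw [h2, ← h1, h2, W]
    simp only [pow_zero, one_mul, one_pow, mul_one, zero_add]
    rw [pow_add, div_pow]
    field_simp
    ring
  · have h3' : (aeval (![0, o.W n, 1] : Fin 3 → K)) (if s 0 + s 1 + s 2 = D then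
        (monomial s (coeff s P)) else 0) = 0 := by
      split_ifs with h4
      · rw [aeval_monomial, Finsupp.prod_fintype _ _ (by simp), Fin.prod_univ_three]
        have h5 : s 0 ≠ 0 := fun h6 => hcase ⟨h4, h6⟩
        simp [h5]
      · rw [map_zero]
    rw [h3', sub_zero]
    have h6 : ν.ge (o.u n ^ s 0 * o.x n ^ s 1 * o.y n ^ s 2 / o.y n ^ D) (-2 * ν.v (o.u n)) := by
      refine ν.ge_of_le ?_
      rw [ν.v_div (mul_ne_zero (mul_ne_zero (pow_ne_zero _ hu) (pow_ne_zero _ hx))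
          (pow_ne_zero _ hy)) hyD,
        ν.v_mul (mul_ne_zero (pow_ne_zero _ hu) (pow_ne_zero _ hx)) (pow_ne_zero _ hy),
        ν.v_mul (pow_ne_zero _ hu) (pow_ne_zero _ hx), ν.v_pow hu, ν.v_pow hx, ν.v_pow hy,
        ν.v_pow hy, hxy, ← huy]
      have hb : ν.v (o.u n) < 0 := by omega
      have e : (s 0 : ℤ) * ν.v (o.u n) + (s 1 : ℤ) * (3 * ν.v (o.u n)) +
          (s 2 : ℤ) * (3 * ν.v (o.u n)) - (D : ℤ) * (3 * ν.v (o.u n)) =
          ((s 0 : ℤ) + 3 * s 1 + 3 * s 2 - 3 * D) * ν.v (o.u n) := by ring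
      rw [e]
      have h7 : (s 0 : ℤ) + 3 * s 1 + 3 * s 2 - 3 * D ≤ -2 := by
        by_cases h8 : s 0 + s 1 + s 2 = D
        · have h9 : s 0 ≠ 0 := fun h10 => hcase ⟨h8, h10⟩
          omega
        · omega
      nlinarith
    have h8 := ν.ge_mul (ν.ge_const (coeff s P)) h6
    rw [zero_add] at h8
    rw [mul_div_assoc]
    exact h8

theorem aeval_lf (P : R3) (w : K) :
    aeval (![0, w, 1] : Fin 3 → K) (homogeneousComponent P.totalDegree P) =
      Polynomial.aeval w (dh (lf P)) := by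
  rw [lf]
  generalize homogeneousComponent P.totalDegree P = Q
  have : (aeval (![0, w, 1] : Fin 3 → K) : R3 →ₐ[ℂ] K) =
      (Polynomial.aeval w).comp (dh.comp e0) := by
    ext i : 1
    fin_cases i
    · simp [e0]
    · simp [e0, dh]
    · simp [e0, dh]
  rw [this]
  rfl

/-- Size of polynomials along the orbit. -/
theorem poly_size {D : Fin 3 → Derivation ℂ K K} {C : ℤ}
    (hC : ∀ a b c : K, a ≠ 0 → b ≠ 0 → c ≠ 0 →
      ν.ge (jac D a b c) (ν.v a + ν.v b + ν.v c - C))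
    (hJ : o.J D 0 ≠ 0) {n₁ : ℕ} (hgood : ∀ n, n₁ ≤ n → o.Good ν n) {P : R3} (hP : lf P ≠ 0) :
    ∃ (M : ℤ) (n₃ : ℕ), ∀ n, n₃ ≤ n →
      P.totalDegree * ν.v (o.y n) ≤ ν.v (o.ev n P) ∧
      ν.v (o.ev n P) ≤ P.totalDegree * ν.v (o.y n) + M := by
  obtain ⟨M, n₃, h13, hM0, hM⟩ := o.uniform_ratio ν hC hJ hgood
  have hbig : ∀ n, n₁ + 1 ≤ n → o.Big ν n := by
    intro n hn
    obtain ⟨m, rfl⟩ : ∃ m, n = m + 1 := ⟨n - 1, by omega⟩
    exact o.big_succ ν (hgood m (by omega)) (hgood (m + 1) (by omega))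
  have hstep : ∀ n, n₁ + 1 ≤ n → ν.v (o.u (n + 1)) = 3 * ν.v (o.u n) := by
    intro n hn
    have h1 := hbig n hn
    obtain ⟨-, -, g3⟩ := o.good_step ν h1.1
    rw [g3, ← h1.2.2]
  have hneg : ∀ n, n₁ + 1 ≤ n → ν.v (o.u n) < 0 := by
    intro n hn
    have h1 := hbig n hn
    have := h1.1.1
    have := h1.2.2
    omega
  have hgrow : ∀ k : ℕ, ν.v (o.u (n₁ + 1 + k)) ≤ -(k : ℤ) - 1 := by
    intro k
    induction k with
    | zero => have := hneg (n₁ + 1) le_rfl; push_cast; simp only [add_zero]; omega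
    | succ k ih =>
      have h1 := hstep (n₁ + 1 + k) (by omega)
      rw [← add_assoc, h1]
      push_cast
      omega
  set p := dh (lf P) with hp
  have hp0 : p ≠ 0 := dh_ne_zero (homog_lf P) hP
  set E : ℤ := p.natDegree * M with hE
  have hE0 : 0 ≤ E := by positivity
  refine ⟨E, n₃ + E.toNat, ?_⟩
  intro n hn
  obtain ⟨k, rfl⟩ : ∃ k, n = n₁ + 1 + k := ⟨n - (n₁ + 1), by omega⟩
  have hB := hbig (n₁ + 1 + k) (by omega)
  have hk : E ≤ k := by
    have h2 := Int.self_le_toNat E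
    have h3 : (E.toNat : ℤ) ≤ k := by
      have : E.toNat ≤ k := by omega
      exact_mod_cast this
    omega
  have hg := hgrow k
  set m := n₁ + 1 + k with hm
  obtain ⟨a1, a2, a3⟩ := poly_val ν (o.W_sub_ne m) (o.v_W_sub_nonneg ν hB)
    (hM m (by omega)) p.natDegree p hp0 rfl
  rw [← hE] at a3
  have hex := o.expand ν hB P le_rfl
  rw [aeval_lf, ← hp] at hex
  have h4 := ν.v_add_eq a1 (y := o.ev m P / o.y m ^ P.totalDegree - Polynomial.aeval (o.W m) p)
    (ν.ge_mono hex (by omega))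
  rw [add_sub_cancel] at h4
  obtain ⟨h5, h6⟩ := h4
  have hy := o.y_ne m
  have hev : o.ev m P ≠ 0 := by
    intro h0
    rw [h0, zero_div] at h5
    exact h5 rfl
  rw [ν.v_div hev (pow_ne_zero _ hy), ν.v_pow hy] at h6
  constructor
  · omega
  · omega

end Orb

end SAFP
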