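import Mathlib
import Pool.Agent.Lib.MP_4eb9bb_ag.Backward

open MvPolynomial

namespace SAFP

noncomputable section

variable {K : Type*} [Field K] [Algebra R3 K] [Algebra ℂ K] [IsScalarTower ℂ R3 K]

/-- Homogenisation of a polynomial expression in fractions of negative degree. -/
theorem exists_hom {N : ℕ} (P : Fin N → R3) (Q : R3) (hQ : algebraMap R3 K Q ≠ 0)
    (hdeg : ∀ i, P i = 0 ∨ (P i).totalDegree < Q.totalDegree) (F : MvPolynomial (Fin N) ℂ) :
    ∃ (D : ℕ) (H : R3), algebraMap R3 K H = (algebraMap R3 K Q) ^ D *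
        aeval (fun i => algebraMap R3 K (P i) / algebraMap R3 K Q) F ∧
      H.totalDegree ≤ D * Q.totalDegree ∧
      homogeneousComponent (D * Q.totalDegree) H =
        C (constantCoeff F) * (homogeneousComponent Q.totalDegree Q) ^ D := by
  induction F using MvPolynomial.induction_on with
  | C a =>
    refine ⟨0, C a, ?_, ?_, ?_⟩
    · simp only [pow_zero, one_mul, aeval_C]
      rw [IsScalarTower.algebraMap_apply ℂ R3 K]
      rfl
    · simp
    · simp
  | add F G hF hG =>
    obtain ⟨D1, H1, h1, h2, h3⟩ := hF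
    obtain ⟨D2, H2, k1, k2, k3⟩ := hG
    have e1 : (Q ^ D2).totalDegree ≤ D2 * Q.totalDegree := totalDegree_pow _ _
    have e2 : (Q ^ D1).totalDegree ≤ D1 * Q.totalDegree := totalDegree_pow _ _
    refine ⟨D1 + D2, H1 * Q ^ D2 + H2 * Q ^ D1, ?_, ?_, ?_⟩
    · rw [map_add, map_mul, map_mul, h1, k1, map_pow, map_pow, map_add]
      ring
    · refine le_trans (totalDegree_add _ _) (max_le ?_ ?_)
      · refine le_trans (totalDegree_mul _ _) ?_
        rw [add_mul]; omega
      · refine le_trans (totalDegree_mul _ _) ?_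
        rw [add_mul]; omega
    · have a1 : homogeneousComponent ((D1 + D2) * Q.totalDegree) (H1 * Q ^ D2) =
          C (constantCoeff F) * (homogeneousComponent Q.totalDegree Q) ^ (D1 + D2) := by
        rw [add_mul, hc_mul h2 e1, h3, hc_pow le_rfl, pow_add]; ring
      have a2 : homogeneousComponent ((D1 + D2) * Q.totalDegree) (H2 * Q ^ D1) =
          C (constantCoeff G) * (homogeneousComponent Q.totalDegree Q) ^ (D1 + D2) := by
        rw [add_comm D1 D2, add_mul, hc_mul k2 e2, k3, hc_pow le_rfl, pow_add]; ring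
      rw [map_add, a1, a2, map_add, C_add]
      ring
  | mul_X F i hF =>
    obtain ⟨D1, H1, h1, h2, h3⟩ := hF
    have hlt : H1 * P i = 0 ∨ (H1 * P i).totalDegree < (D1 + 1) * Q.totalDegree := by
      rcases hdeg i with h | h
      · left; rw [h, mul_zero]
      · right
        refine lt_of_le_of_lt (totalDegree_mul _ _) ?_
        rw [add_mul, one_mul]; omega
    refine ⟨D1 + 1, H1 * P i, ?_, ?_, ?_⟩
    · rw [map_mul, h1, map_mul, aeval_X, pow_succ]
      field_simp
    · rcases hlt with h | h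
      · rw [h]; simp
      · exact h.le
    · have hc : constantCoeff (F * X i) = 0 := by rw [map_mul, constantCoeff_X, mul_zero]
      rw [hc, C_0, zero_mul]
      rcases hlt with h | h
      · rw [h, map_zero]
      · exact homogeneousComponent_eq_zero _ _ h

/-- If all generators have negative degree then the local ring cannot be stable. -/
theorem no_stable_of_neg [FaithfulSMul R3 K] {N : ℕ} (P : Fin N → R3) (Q : R3)
    (hQ : lf Q ≠ 0)
    (hdeg : ∀ i, P i = 0 ∨ (P i).totalDegree < Q.totalDegree)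
    (i₀ : Fin N) (hi₀ : lf (P i₀) ≠ 0)
    (H : ∀ n : ℕ, ∃ F G : MvPolynomial (Fin N) ℂ, constantCoeff G ≠ 0 ∧
      algebraMap R3 K ((fE ^ n) (P i₀)) *
        aeval (fun i => algebraMap R3 K (P i) / algebraMap R3 K Q) G =
      algebraMap R3 K ((fE ^ n) Q) *
        aeval (fun i => algebraMap R3 K (P i) / algebraMap R3 K Q) F) : False := by
  have hinj : Function.Injective (algebraMap R3 K) := FaithfulSMul.algebraMap_injective R3 K
  have hQ0 : Q ≠ 0 := by
    intro h; rw [h, lf_zero] at hQ; exact hQ rfl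
  have hP0 : P i₀ ≠ 0 := by
    intro h; rw [h, lf_zero] at hi₀; exact hi₀ rfl
  have hQK : algebraMap R3 K Q ≠ 0 := by
    rw [Ne, map_eq_zero_iff _ hinj]; exact hQ0
  have hpq : (P i₀).totalDegree < Q.totalDegree := by
    rcases hdeg i₀ with h | h
    · exact absurd h hP0
    · exact h
  refine no_divisibility (homog_lf (P i₀)) (homog_lf Q) hi₀ hQ hpq ?_
  intro n
  obtain ⟨F, G, hG, hrel⟩ := H n
  obtain ⟨D1, H1, h1, -, -⟩ := exists_hom (K := K) P Q hQK hdeg F
  obtain ⟨D2, H2, k1, k2, k3⟩ := exists_hom (K := K) P Q hQK hdeg G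
  have hR : (fE ^ n) (P i₀) * H2 * Q ^ D1 = H1 * Q ^ D2 * (fE ^ n) Q := by
    apply hinj
    rw [map_mul, map_mul, map_mul, map_mul, h1, k1, map_pow, map_pow]
    linear_combination (algebraMap R3 K Q) ^ D2 * (algebraMap R3 K Q) ^ D1 * hrel
  have hlf := congrArg lf hR
  rw [lf_mul', lf_mul', lf_mul', lf_mul', lf_pow, lf_pow] at hlf
  obtain ⟨-, l1, -⟩ := lf_fE_pow hi₀ n
  obtain ⟨-, l2, -⟩ := lf_fE_pow hQ n
  have e1 : e0 (homogeneousComponent (D2 * Q.totalDegree) H2) =
      C (constantCoeff G) * lf Q ^ D2 := by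
    rw [k3, map_mul, map_pow, lf]
    congr 1
    exact e0.commutes _
  have e2 : e0 (homogeneousComponent (D2 * Q.totalDegree) H2) ≠ 0 := by
    rw [e1]
    exact mul_ne_zero (by simpa using hG) (pow_ne_zero _ hQ)
  have e3 : H2.totalDegree = D2 * Q.totalDegree := by
    apply totalDegree_eq_of_hc_ne_zero k2
    intro h
    apply e2
    rw [h, map_zero]
  have e4 : lf H2 = C (constantCoeff G) * lf Q ^ D2 := by
    rw [lf, e3, e1]
  rw [l1, l2, e4] at hlf
  refine ⟨D2 + D1, C (constantCoeff G)⁻¹ * (lf H1 * lf Q ^ D2), ?_⟩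
  have hu : C (constantCoeff G)⁻¹ * C (constantCoeff G) = (1 : R2) := by
    rw [← C_mul, inv_mul_cancel₀ hG, C_1]
  calc (f2)^[n] (lf (P i₀)) * lf Q ^ (D2 + D1)
      = (C (constantCoeff G)⁻¹ * C (constantCoeff G)) *
          ((f2)^[n] (lf (P i₀)) * lf Q ^ (D2 + D1)) := by rw [hu, one_mul]
    _ = C (constantCoeff G)⁻¹ *
          ((f2)^[n] (lf (P i₀)) * (C (constantCoeff G) * lf Q ^ D2) * lf Q ^ D1) := by
        rw [pow_add]; ring
    _ = (f2)^[n] (lf Q) * (C (constantCoeff G)⁻¹ * (lf H1 * lf Q ^ D2)) := by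
        rw [hlf]; ring

end

end SAFP
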