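import Mathlib
import Pool.Agent.Lib.MP_4eb9bb_ag.Core3
import Pool.Agent.Lib.MP_4eb9bb_ag.Dyn4
import Pool.Agent.Lib.MP_4eb9bb_ag.Der
import Pool.Agent.Lib.MP_4eb9bb_ag.Hom

open MvPolynomial IsLocalRing

namespace SAFP

section orbit

variable (K : Type*) [Field K] [Algebra ℂ K] [Algebra R3 K] [IsScalarTower ℂ R3 K]
  [IsFractionRing R3 K]

theorem aeval_orbit (n : ℕ) (P : R3) :
    aeval ![algebraMap R3 K ((fE ^ n) (X 0)), algebraMap R3 K ((fE ^ n) (X 1)),
      algebraMap R3 K ((fE ^ n) (X 2))] P = algebraMap R3 K ((fE ^ n) P) := by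
  have h : (aeval ![algebraMap R3 K ((fE ^ n) (X 0)), algebraMap R3 K ((fE ^ n) (X 1)),
      algebraMap R3 K ((fE ^ n) (X 2))] : R3 →ₐ[ℂ] K) =
      (IsScalarTower.toAlgHom ℂ R3 K).comp ((fE ^ n : R3 ≃ₐ[ℂ] R3) : R3 →ₐ[ℂ] R3) := by
    ext i : 1
    fin_cases i <;> simp
  rw [h]
  rfl

/-- The orbit of the coordinate functions. -/
noncomputable def orb : Orb K where
  u n := algebraMap R3 K ((fE ^ n) (X 0))
  x n := algebraMap R3 K ((fE ^ n) (X 1))
  y n := algebraMap R3 K ((fE ^ n) (X 2))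
  hu n := by
    rw [pow_succ, AlgEquiv.mul_apply, fE_apply, fF_X0]
  hx n := by
    rw [pow_succ, AlgEquiv.mul_apply, fE_apply, fF_X1]
    simp
  hy n := by
    rw [pow_succ, AlgEquiv.mul_apply, fE_apply, fF_X2]
    simp
  nz n P hP := by
    rw [aeval_orbit K]
    rw [Ne, map_eq_zero_iff _ (IsFractionRing.injective R3 K)]
    rw [map_eq_zero_iff _ (fE ^ n).injective]
    exact hP

theorem orb_ev (n : ℕ) (P : R3) : (orb K).ev n P = algebraMap R3 K ((fE ^ n) P) :=
  aeval_orbit K n P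

end orbit

theorem phi_pow {K : Type*} [Field K] [Algebra R3 K] {Φ : K →+* K}
    (hΦ : ∀ P : R3, Φ (algebraMap R3 K P) = algebraMap R3 K (fE P)) (n : ℕ) (P : R3) :
    (Φ ^ n) (algebraMap R3 K P) = algebraMap R3 K ((fE ^ n) P) := by
  induction n generalizing P with
  | zero => simp
  | succ n ih =>
    rw [pow_succ, RingHom.mul_def, RingHom.comp_apply, hΦ, ih, pow_succ, AlgEquiv.mul_apply]

theorem exists_derivations (K : Type*) [Field K] [Algebra ℂ K] [Algebra R3 K]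
    [IsScalarTower ℂ R3 K] [IsFractionRing R3 K] :
    ∃ D : Fin 3 → Derivation ℂ K K, (orb K).J D 0 = 1 := by
  have h : ∀ i : Fin 3, ∃ E : Derivation ℂ K K, ∀ j : Fin 3,
      E (algebraMap R3 K (X j)) = (Pi.single i 1 : Fin 3 → K) j := by
    intro i
    obtain ⟨E, hE⟩ := exists_extension (K := K)
      (mkDerivation ℂ (Pi.single i 1 : Fin 3 → K))
    refine ⟨E, ?_⟩
    intro j
    rw [hE, mkDerivation_X]
  choose D hD using h
  refine ⟨D, ?_⟩
  simp only [Orb.J, DVal.jac, orb, pow_zero, AlgEquiv.one_apply, hD]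
  simp [Pi.single_apply]

end SAFP
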