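import Mathlib
import Pool.Agent.Lib.MP_4eb9bb_ag.Core4

open MvPolynomial IsLocalRing

namespace SAFP

theorem exists_common_lf {m : ℕ} (P : Fin m → R3) (Q : R3) (hQ : Q ≠ 0) :
    ∃ k : ℕ, lf ((fE ^ k) Q) ≠ 0 ∧ ∀ i, P i ≠ 0 → lf ((fE ^ k) (P i)) ≠ 0 := by
  classical
  have hmono : ∀ (R : R3) (k l : ℕ), k ≤ l → lf ((fE ^ k) R) ≠ 0 → lf ((fE ^ l) R) ≠ 0 := by
    intro R k l hkl h
    obtain ⟨r, rfl⟩ : ∃ r, l = r + k := ⟨l - k, by omega⟩
    rw [pow_add, AlgEquiv.mul_apply]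
    exact (lf_fE_pow h r).2.2
  obtain ⟨k0, hk0⟩ := exists_lf_ne_zero hQ
  have h : ∀ i, ∃ k, P i ≠ 0 → lf ((fE ^ k) (P i)) ≠ 0 := by
    intro i
    by_cases hi : P i = 0
    · exact ⟨0, fun h => absurd hi h⟩
    · obtain ⟨k, hk⟩ := exists_lf_ne_zero hi
      exact ⟨k, fun _ => hk⟩
  choose k hk using h
  refine ⟨k0 + ∑ i, k i, hmono _ _ _ (by omega) hk0, ?_⟩
  intro i hi
  refine hmono _ (k i) _ ?_ (hk i hi)
  have := Finset.single_le_sum (f := k) (fun j _ => Nat.zero_le _) (Finset.mem_univ i)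
  omega

theorem core {O : Type*} [CommRing O] [IsLocalRing O] [IsDomain O] [Algebra ℂ O] {K : Type*}
    [Field K] [Algebra ℂ K] [Algebra O K] [IsScalarTower ℂ O K] [IsFractionRing O K]
    [Algebra R3 K] [IsScalarTower ℂ R3 K] [IsFractionRing R3 K]
    (hres : ∀ a : O, ∃ c : ℂ, a - algebraMap ℂ O c ∈ maximalIdeal O)
    (hfg : ∃ A : Subalgebra ℂ O, A.FG ∧ ∀ x : O, ∃ a ∈ A, ∃ b ∈ A, b ∉ maximalIdeal O ∧
      x * b = a)
    (hinf : ¬ ∃ V : ValuationSubring K, (∀ a : O, algebraMap O K a ∈ V) ∧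
      (∀ a ∈ maximalIdeal O, algebraMap O K a ∈ V.nonunits) ∧
      ∀ P : R3, algebraMap R3 K P ∈ V)
    (Φ : K →+* K) (hΦ : ∀ P : R3, Φ (algebraMap R3 K P) = algebraMap R3 K (fE P))
    (θ : O →+* O) (hθ : ∀ a, Φ (algebraMap O K a) = algebraMap O K (θ a))
    (hθm : ∀ a ∈ maximalIdeal O, θ a ∈ maximalIdeal O) (N₀ : ℕ)
    (hN₀ : ∀ a ∈ maximalIdeal O, (θ ^ N₀) a ∈ maximalIdeal O ^ 2) : False := by
  classical
  -- positive exponent
  obtain ⟨N, hNpos, hN⟩ : ∃ N : ℕ, 0 < N ∧ ∀ a ∈ maximalIdeal O, (θ ^ N) a ∈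
      maximalIdeal O ^ 2 := by
    refine ⟨N₀ + 1, by omega, ?_⟩
    intro a ha
    have h1 : (θ ^ (N₀ + 1)) a = (θ ^ N₀) (θ a) := by
      rw [pow_succ, RingHom.mul_def, RingHom.comp_apply]
    rw [h1]
    exact hN₀ _ (hθm a ha)
  have hinj : Function.Injective (algebraMap O K) := IsFractionRing.injective O K
  have hinjR : Function.Injective (algebraMap R3 K) := IsFractionRing.injective R3 K
  obtain ⟨m, φ, hφ, hgen⟩ := exists_generators hres hfg
  have hc : ∀ c : ℂ, Φ (algebraMap ℂ K c) = algebraMap ℂ K c := by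
    intro c
    rw [IsScalarTower.algebraMap_apply ℂ R3 K, hΦ, AlgEquiv.commutes]
  -- some generator is nonzero
  have hne : ∃ i, φ i ≠ 0 := by
    by_contra hcon
    push Not at hcon
    apply hinf
    refine ⟨⊤, fun a => ValuationSubring.mem_top _, ?_, fun P => ValuationSubring.mem_top _⟩
    intro a ha
    have h0 : a = 0 := by
      obtain ⟨F, G, hG, hFG⟩ := hgen a
      have hφ0 : φ = 0 := funext hcon
      have h1 : ∀ H : MvPolynomial (Fin m) ℂ, aeval φ H = algebraMap ℂ O (constantCoeff H) := by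
        intro H
        rw [hφ0]
        exact MvPolynomial.aeval_zero' H
      have h2 : constantCoeff F = 0 := by
        by_contra h0
        have h2 := isUnit_aeval hφ h0
        rw [← hFG] at h2
        exact (mem_maximalIdeal _).mp ha (isUnit_of_mul_isUnit_left h2)
      rw [h1, h1, h2, map_zero] at hFG
      have h3 : algebraMap ℂ O (constantCoeff G) ≠ 0 :=
        ((isUnit_iff_ne_zero.mpr hG).map (algebraMap ℂ O)).ne_zero
      exact (mul_eq_zero.mp hFG).resolve_right h3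
    rw [h0, map_zero, ValuationSubring.mem_nonunits_iff, map_zero]
    exact zero_lt_one
  obtain ⟨ν, hDom, hBdd⟩ := exists_dominating (K := K) hφ hgen hne
  set o := orb K with ho
  obtain ⟨D, hD⟩ := exists_derivations K
  rw [← ho] at hD
  have hJ : o.J D 0 ≠ 0 := by rw [hD]; exact one_ne_zero
  obtain ⟨C, -, hC⟩ := ν.ge_jac (fun i => hBdd (D i))
  have hdom := dom_iterate hDom hc hθ hN
  have hX : ∀ n, ∀ i : Fin 3, (Φ ^ n) (algebraMap R3 K (X i)) = ![o.u n, o.x n, o.y n] i := by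
    intro n i
    rw [phi_pow hΦ]
    fin_cases i <;> rfl
  obtain ⟨d, hd⟩ := growth_of_infinity (O := O) (K := K) hinf
  have hpow : ∀ B : ℤ, ∃ j : ℕ, B < (2 : ℤ) ^ j := by
    intro B
    refine ⟨B.toNat, ?_⟩
    have h1 : (B.toNat : ℤ) < (2 : ℤ) ^ B.toNat := by exact_mod_cast Nat.lt_two_pow_self
    have h2 := Int.self_le_toNat B
    omega
  have hunb : ∀ B : ℤ, ∃ n, ν.v (o.x n) < B ∨ ν.v (o.y n) < B ∨ ν.v (o.u n) < B := by
    intro B
    by_contra hcon
    push Not at hcon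
    set B' := min B 0 with hB'
    obtain ⟨j, hj⟩ := hpow (-(d * B'))
    have h1 := hd _ _ (hdom j) B' (min_le_right _ _) (by
      intro i
      rw [ν.comp_ge, hX]
      obtain ⟨a1, a2, a3⟩ := hcon (N * j)
      have hBB : B' ≤ B := min_le_left _ _
      fin_cases i
      · exact ν.ge_of_le (le_trans hBB a3)
      · exact ν.ge_of_le (le_trans hBB a1)
      · exact ν.ge_of_le (le_trans hBB a2))
    omega
  obtain ⟨n₁, hgood⟩ := o.eventually_good ν hC hJ hunb
  -- common denominator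
  obtain ⟨Q, hQ⟩ := IsLocalization.exist_integer_multiples (nonZeroDivisors R3) Finset.univ
    (fun i => algebraMap O K (φ i))
  have hQ0 : (Q : R3) ≠ 0 := nonZeroDivisors.ne_zero Q.2
  have hQ' : ∀ i, ∃ P : R3, algebraMap R3 K P = algebraMap R3 K Q * algebraMap O K (φ i) := by
    intro i
    obtain ⟨P, hP⟩ := hQ i (Finset.mem_univ _)
    refine ⟨P, ?_⟩
    rw [hP, Algebra.smul_def]
  choose P hP using hQ'
  obtain ⟨k, hkQ, hkP⟩ := exists_common_lf P Q hQ0
  set Q' := (fE ^ k) (Q : R3) with hQ'def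
  set P' : Fin m → R3 := fun i => (fE ^ k) (P i) with hP'def
  have hQ'0 : Q' ≠ 0 := by
    intro h; rw [h, lf_zero] at hkQ; exact hkQ rfl
  have hQ'K : algebraMap R3 K Q' ≠ 0 := by rwa [Ne, map_eq_zero_iff _ hinjR]
  have hPQ : ∀ i, algebraMap R3 K (P' i) / algebraMap R3 K Q' =
      (Φ ^ k) (algebraMap O K (φ i)) := by
    intro i
    rw [div_eq_iff hQ'K, hP'def, hQ'def]
    simp only
    rw [← phi_pow hΦ, ← phi_pow hΦ, hP, map_mul, mul_comm]
  have hyneg : ∀ n, n₁ ≤ n → ν.v (o.y n) < 0 := fun n hn => (hgood n hn).1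
  -- degrees are negative
  have hdeg : ∀ i, P' i = 0 ∨ (P' i).totalDegree < Q'.totalDegree := by
    intro i
    by_cases hPi : P i = 0
    · left
      rw [hP'def]; simp only; rw [hPi, map_zero]
    right
    by_contra hge
    push Not at hge
    have hlfP := hkP i hPi
    obtain ⟨M1, m1, hM1⟩ := o.poly_size ν hC hJ hgood (P := P' i) hlfP
    obtain ⟨M2, m2, hM2⟩ := o.poly_size ν hC hJ hgood (P := Q') hkQ
    -- large exponent
    obtain ⟨j, hj1, hj2⟩ : ∃ j : ℕ, M1 < (2 : ℤ) ^ j ∧ n₁ + m1 + m2 + k ≤ N * j := by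
      obtain ⟨j0, hj0⟩ := hpow M1
      refine ⟨j0 + (n₁ + m1 + m2 + k), ?_, ?_⟩
      · refine lt_of_lt_of_le hj0 ?_
        exact pow_le_pow_right₀ (by norm_num) (by omega)
      · have : 1 * (j0 + (n₁ + m1 + m2 + k)) ≤ N * (j0 + (n₁ + m1 + m2 + k)) :=
          Nat.mul_le_mul_right _ hNpos
        omega
    obtain ⟨n, hn⟩ : ∃ n, N * j = n + k := ⟨N * j - k, by omega⟩
    have h1 := (hdom j).2 (φ i) (hφ i)
    rw [ν.comp_ge] at h1
    have hne0 : (Φ ^ (N * j)) (algebraMap O K (φ i)) ≠ 0 := by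
      rw [Ne, map_eq_zero]
      intro h0
      have := hP i
      rw [h0, mul_zero] at this
      exact hPi ((map_eq_zero_iff _ hinjR).mp this)
    have h2 := ν.le_of_ge h1 hne0
    have h3 : (Φ ^ (N * j)) (algebraMap O K (φ i)) = o.ev n (P' i) / o.ev n Q' := by
      rw [hn, pow_add, RingHom.mul_def, RingHom.comp_apply, ← hPQ, map_div₀, phi_pow hΦ,
        phi_pow hΦ, ho, orb_ev, orb_ev]
    have hevQ : o.ev n Q' ≠ 0 := by
      rw [ho, orb_ev, Ne, map_eq_zero_iff _ hinjR, map_eq_zero_iff _ (fE ^ n).injective]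
      exact hQ'0
    have hevP : o.ev n (P' i) ≠ 0 := by
      intro h0
      rw [h3, h0, zero_div] at hne0
      exact hne0 rfl
    rw [h3, ν.v_div hevP hevQ] at h2
    obtain ⟨-, b1⟩ := hM1 n (by omega)
    obtain ⟨b2, -⟩ := hM2 n (by omega)
    have hy := hyneg n (by omega)
    have hdd : ((P' i).totalDegree : ℤ) * ν.v (o.y n) ≤ (Q'.totalDegree : ℤ) * ν.v (o.y n) := by
      have : (Q'.totalDegree : ℤ) ≤ (P' i).totalDegree := by exact_mod_cast hge
      nlinarith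
    omega
  obtain ⟨i₀, hi₀⟩ := hne
  have hPi₀ : P i₀ ≠ 0 := by
    intro h0
    have := hP i₀
    rw [h0, map_zero] at this
    have h1 : algebraMap R3 K Q ≠ 0 := by rwa [Ne, map_eq_zero_iff _ hinjR]
    have h2 := (mul_eq_zero.mp this.symm).resolve_left h1
    exact hi₀ ((map_eq_zero_iff _ hinj).mp h2)
  refine no_stable_of_neg (K := K) P' Q' hkQ hdeg i₀ (hkP i₀ hPi₀) ?_
  intro n
  obtain ⟨F, G, hG, hFG⟩ := hgen ((θ ^ n) (φ i₀))
  refine ⟨F, G, hG, ?_⟩
  have haev : ∀ H : MvPolynomial (Fin m) ℂ,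
      aeval (fun i => algebraMap R3 K (P' i) / algebraMap R3 K Q') H =
        (Φ ^ k) (algebraMap O K (aeval φ H)) := by
    intro H
    induction H using MvPolynomial.induction_on with
    | C a =>
      rw [aeval_C, aeval_C, ← IsScalarTower.algebraMap_apply ℂ O K, pow_const hc]
    | add p q hp hq => rw [map_add, hp, hq, map_add, map_add, map_add]
    | mul_X p i hp =>
      rw [map_mul, hp, aeval_X, hPQ, map_mul, aeval_X, map_mul, map_mul]
  rw [haev, haev]
  have h1 : algebraMap R3 K ((fE ^ n) (P' i₀)) =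
      algebraMap R3 K ((fE ^ n) Q') * (Φ ^ k) (algebraMap O K ((θ ^ n) (φ i₀))) := by
    have h2 : (Φ ^ n) (algebraMap R3 K (P' i₀) / algebraMap R3 K Q') =
        (Φ ^ k) (algebraMap O K ((θ ^ n) (φ i₀))) := by
      rw [hPQ, ← pow_compat hθ n]
      change ((Φ ^ n) * (Φ ^ k)) _ = ((Φ ^ k) * (Φ ^ n)) _
      rw [← pow_add, ← pow_add, add_comm]
    rw [← h2, map_div₀, phi_pow hΦ, phi_pow hΦ]
    have h3 : algebraMap R3 K ((fE ^ n) Q') ≠ 0 := by
      rw [Ne, map_eq_zero_iff _ hinjR, map_eq_zero_iff _ (fE ^ n).injective]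
      exact hQ'0
    field_simp
  rw [h1, mul_assoc, ← map_mul, ← map_mul, hFG]

end SAFP
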