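import Mathlib
import Pool.Agent.Lib.MP_4eb9bb_ag.Auto

open MvPolynomial Filter Topology

namespace SAFP

theorem totalDegree_add_lt {p q : R3} (h : q.totalDegree < p.totalDegree) :
    (q + p).totalDegree = p.totalDegree ∧ (p + q).totalDegree = p.totalDegree ∧
      (q - p).totalDegree = p.totalDegree := by
  have h1 := totalDegree_add_eq_left_of_totalDegree_lt (p := p) (q := q) h
  refine ⟨by rw [add_comm]; exact h1, h1, ?_⟩
  have h2 := totalDegree_add_eq_left_of_totalDegree_lt (p := -p) (q := q)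
    (by rw [totalDegree_neg]; exact h)
  rw [totalDegree_neg] at h2
  rw [sub_eq_add_neg, add_comm]
  exact h2

theorem totalDegree_pow_dom (p : R3) (n : ℕ) : (p ^ n).totalDegree = n * p.totalDegree := by
  by_cases hp : p = 0
  · subst hp
    rcases n with _ | n
    · simp
    · simp
  induction n with
  | zero => simp
  | succ n ih =>
    rw [pow_succ, totalDegree_mul_of_isDomain (pow_ne_zero _ hp) hp, ih]
    ring

/-- Degrees of the iterates of the inverse map. -/
theorem inv_degrees (n : ℕ) :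
    (((fE⁻¹) ^ n) (X 0)).totalDegree = 7 ^ n ∧ (((fE⁻¹) ^ n) (X 1)).totalDegree ≤ 7 ^ n ∧
      (((fE⁻¹) ^ n) (X 2)).totalDegree ≤ 7 ^ n := by
  induction n with
  | zero => simp
  | succ n ih =>
    obtain ⟨h0, h1, h2⟩ := ih
    set g := (fE⁻¹) ^ n with hg
    have s0 : ((fE⁻¹) ^ (n + 1)) (X 0) =
        g (X 2) - (g (X 1) - g (X 0) ^ 3) ^ 2 * g (X 0) - g (X 0) ^ 3 := by
      rw [pow_succ, AlgEquiv.mul_apply]
      have : fE⁻¹ (X 0 : R3) = X 2 - (X 1 - X 0 ^ 3) ^ 2 * X 0 - X 0 ^ 3 := gG_X0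
      rw [this]
      simp only [map_sub, map_mul, map_pow]
      rfl
    have s1 : ((fE⁻¹) ^ (n + 1)) (X 1) = g (X 1) - g (X 0) ^ 3 := by
      rw [pow_succ, AlgEquiv.mul_apply]
      have : fE⁻¹ (X 1 : R3) = X 1 - X 0 ^ 3 := gG_X1
      rw [this]
      simp only [map_sub, map_pow]
      rfl
    have s2 : ((fE⁻¹) ^ (n + 1)) (X 2) = g (X 0) := by
      rw [pow_succ, AlgEquiv.mul_apply]
      have : fE⁻¹ (X 2 : R3) = X 0 := gG_X2
      rw [this]
    have hpos : 0 < 7 ^ n := by positivity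
    have hg0 : g (X 0) ≠ 0 := by
      intro h
      rw [h, totalDegree_zero] at h0
      omega
    have c3 : (g (X 0) ^ 3).totalDegree = 3 * 7 ^ n := by
      rw [totalDegree_pow_dom, h0]
    have b : (g (X 1) - g (X 0) ^ 3).totalDegree = 3 * 7 ^ n := by
      rw [(totalDegree_add_lt (p := g (X 0) ^ 3) (q := g (X 1)) (by rw [c3]; omega)).2.2, c3]
    have hb0 : g (X 1) - g (X 0) ^ 3 ≠ 0 := by
      intro h
      rw [h, totalDegree_zero] at b
      omega
    have d : ((g (X 1) - g (X 0) ^ 3) ^ 2 * g (X 0)).totalDegree = 7 ^ (n + 1) := by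
      rw [totalDegree_mul_of_isDomain (pow_ne_zero _ hb0) hg0, totalDegree_pow_dom, b, h0,
        pow_succ]
      ring
    have hlt : 3 * 7 ^ n < 7 ^ (n + 1) := by rw [pow_succ]; omega
    have e : (g (X 2) - (g (X 1) - g (X 0) ^ 3) ^ 2 * g (X 0)).totalDegree = 7 ^ (n + 1) := by
      rw [(totalDegree_add_lt (p := (g (X 1) - g (X 0) ^ 3) ^ 2 * g (X 0)) (q := g (X 2))
        (by rw [d]; omega)).2.2, d]
    refine ⟨?_, ?_, ?_⟩
    · rw [s0, sub_eq_add_neg _ (g (X 0) ^ 3)]
      have h3 := (totalDegree_add_lt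
        (p := g (X 2) - (g (X 1) - g (X 0) ^ 3) ^ 2 * g (X 0)) (q := -(g (X 0) ^ 3))
        (by rw [totalDegree_neg, c3, e]; exact hlt)).2.1
      rw [h3, e]
    · rw [s1, b]; omega
    · rw [s2, h0]; omega

/-- The degree of a polynomial automorphism, computed on its comorphism. -/
noncomputable def aDeg (f : R3 ≃ₐ[ℂ] R3) : ℕ := Finset.univ.sup fun i => (f (X i)).totalDegree

theorem aDeg_inv (n : ℕ) : aDeg ((fE⁻¹) ^ n) = 7 ^ n := by
  obtain ⟨h0, h1, h2⟩ := inv_degrees n
  apply le_antisymm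
  · refine Finset.sup_le ?_
    intro i _
    fin_cases i
    · exact h0.le
    · exact h1
    · exact h2
  · rw [← h0]
    exact Finset.le_sup (f := fun i => (((fE⁻¹) ^ n) (X i)).totalDegree) (Finset.mem_univ 0)

theorem aDeg_fwd (n : ℕ) : aDeg (fE ^ n) = 3 ^ n := by
  apply le_antisymm
  · refine Finset.sup_le ?_
    intro i _
    have key : ∀ m, ((fE ^ m) (X i)).totalDegree ≤ 3 ^ m := by
      intro m
      induction m with
      | zero => simp
      | succ m ih =>
        rw [pow_succ', AlgEquiv.mul_apply, fE_apply]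
        refine le_trans (totalDegree_fF_le _) ?_
        rw [pow_succ]; omega
    exact key n
  · have h1 : lf (X 2) ≠ 0 := by rw [lf_X2]; exact X_ne_zero _
    have h2 := (lf_fE_pow h1 n).1
    rw [totalDegree_X, mul_one] at h2
    rw [← h2]
    exact Finset.le_sup (f := fun i => ((fE ^ n) (X i)).totalDegree) (Finset.mem_univ 2)

theorem tendsto_root (c : ℕ) :
    Tendsto (fun n : ℕ => (((c ^ n : ℕ) : ℝ)) ^ (1 / (n : ℝ))) atTop (𝓝 (c : ℝ)) := by
  refine tendsto_const_nhds.congr' ?_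
  filter_upwards [eventually_ge_atTop 1] with n hn
  push_cast
  rw [one_div, Real.pow_rpow_inv_natCast (by positivity) (by omega)]

end SAFP
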