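import Mathlib
import Pool.Agent.Lib.MP_4eb9bb_ag.Auto

open AlgebraicGeometry CategoryTheory TopologicalSpace

namespace SAFP

/-- The endomorphism of the local ring at a fixed point induced by a locally defined morphism. -/
noncomputable def germEndo {X : Scheme.{0}} {U : X.Opens} {p : X} (hp : p ∈ U)
    (F : U.toScheme ⟶ X) (h : F ⟨p, hp⟩ = p) :
    X.presheaf.stalk p ⟶ X.presheaf.stalk p :=
  X.presheaf.stalkSpecializes (specializes_of_eq h) ≫ F.stalkMap ⟨p, hp⟩ ≫
    (U.stalkIso ⟨p, hp⟩).hom

variable {X : Scheme.{0}} [IsIntegral X]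

/-- The map from the coordinate ring to the function field. -/
theorem exists_coordinate_map (R : CommRingCat.{0}) [IsDomain R] (ι : Spec R ⟶ X)
    [IsOpenImmersion ι] :
    ∃ r : R ⟶ X.functionField,
      Spec.map r ≫ ι = X.fromSpecStalk (genericPoint X) ∧
      @IsFractionRing R _ X.functionField _ r.hom.toAlgebra := by
  have h1 : ι (genericPoint (Spec R)) = genericPoint X := genericPoint_eq_of_isOpenImmersion ι
  have hs1 : genericPoint X ⤳ ι (genericPoint (Spec R)) := specializes_of_eq h1.symm
  have hs2 : ι (genericPoint (Spec R)) ⤳ genericPoint X := specializes_of_eq h1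
  let a : R ⟶ (Spec R).presheaf.stalk (genericPoint (Spec R)) :=
    StructureSheaf.toStalk R (genericPoint (Spec R))
  let b : (Spec R).presheaf.stalk (genericPoint (Spec R)) ⟶
      X.presheaf.stalk (ι (genericPoint (Spec R))) := inv (ι.stalkMap (genericPoint (Spec R)))
  let c : X.presheaf.stalk (ι (genericPoint (Spec R))) ⟶ X.functionField :=
    X.presheaf.stalkSpecializes hs1
  refine ⟨a ≫ b ≫ c, ?_, ?_⟩
  · have e1 : Spec.map a ≫ ι = Spec.map (ι.stalkMap (genericPoint (Spec R))) ≫
        X.fromSpecStalk (ι (genericPoint (Spec R))) := by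
      rw [Scheme.SpecMap_stalkMap_fromSpecStalk, Spec.fromSpecStalk_eq']
      rfl
    rw [Spec.map_comp, Spec.map_comp, Category.assoc, Category.assoc, e1,
      ← Category.assoc (Spec.map b), ← Spec.map_comp]
    have e2 : ι.stalkMap (genericPoint (Spec R)) ≫ b = 𝟙 _ := IsIso.hom_inv_id _
    rw [e2, Spec.map_id, Category.id_comp]
    exact Scheme.SpecMap_stalkSpecializes_fromSpecStalk hs1
  · have : IsIso c := by
      refine ⟨X.presheaf.stalkSpecializes hs2, ?_, ?_⟩
      · rw [TopCat.Presheaf.stalkSpecializes_comp]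
        exact TopCat.Presheaf.stalkSpecializes_refl _ _
      · rw [TopCat.Presheaf.stalkSpecializes_comp]
        exact TopCat.Presheaf.stalkSpecializes_refl _ _
    have : IsIso (b ≫ c) := inferInstance
    let e : (Spec R).functionField ≃+* X.functionField := (asIso (b ≫ c)).commRingCatIsoToRingEquiv
    let : Algebra R X.functionField := (a ≫ b ≫ c).hom.toAlgebra
    have := functionField_isFractionRing_of_affine R
    let e' : (Spec R).functionField ≃ₐ[R] X.functionField :=
      { e with commutes' := fun x => rfl }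
    exact IsLocalization.isLocalization_of_algEquiv (nonZeroDivisors R) e'

/-- The inclusion of a local ring in the function field. -/
noncomputable def toK (X : Scheme.{0}) [IsIntegral X] (p : X) :
    X.presheaf.stalk p ⟶ X.functionField :=
  X.presheaf.stalkSpecializes ((genericPoint_spec X).specializes trivial)

theorem toK_fromSpecStalk (p : X) :
    Spec.map (toK X p) ≫ X.fromSpecStalk p = X.fromSpecStalk (genericPoint X) :=
  Scheme.SpecMap_stalkSpecializes_fromSpecStalk _

/-- The canonical map from the spectrum of the local ring to an open neighbourhood. -/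
noncomputable def toOpen {X : Scheme.{0}} (U : X.Opens) (x : U) :
    Spec (X.presheaf.stalk x.1) ⟶ U.toScheme :=
  Spec.map (U.stalkIso x).hom ≫ U.toScheme.fromSpecStalk x

theorem toOpen_ι {X : Scheme.{0}} (U : X.Opens) (x : U) :
    toOpen U x ≫ U.ι = X.fromSpecStalk x.1 := by
  have h1 : Spec.map (U.stalkIso x).inv ≫ X.fromSpecStalk x.1 =
      U.toScheme.fromSpecStalk x ≫ U.ι := by
    rw [U.stalkIso_inv x]
    exact Scheme.SpecMap_stalkMap_fromSpecStalk U.ι (x := x)
  rw [toOpen, Category.assoc, ← h1, ← Category.assoc, ← Spec.map_comp]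
  have h2 : (U.stalkIso x).inv ≫ (U.stalkIso x).hom = 𝟙 _ := Iso.inv_hom_id _
  rw [h2, Spec.map_id, Category.id_comp]

/-- Spectrum level description of the local endomorphism. -/
theorem SpecMap_germEndo {X : Scheme.{0}} {U : X.Opens} {p : X} (hp : p ∈ U)
    (F : U.toScheme ⟶ X) (h : F ⟨p, hp⟩ = p) :
    Spec.map (germEndo hp F h) ≫ X.fromSpecStalk p = toOpen U ⟨p, hp⟩ ≫ F := by
  rw [germEndo, Spec.map_comp, Spec.map_comp, Category.assoc, Category.assoc,
    Scheme.SpecMap_stalkSpecializes_fromSpecStalk, Scheme.SpecMap_stalkMap_fromSpecStalk,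
    ← Category.assoc]
  rfl

/-- The local endomorphism is the restriction of the endomorphism of the function field. -/
theorem germEndo_compat {R : CommRingCat.{0}} (ι : Spec R ⟶ X) [IsOpenImmersion ι]
    (r : R ⟶ X.functionField) (hr : Spec.map r ≫ ι = X.fromSpecStalk (genericPoint X))
    (f : R ⟶ R) (Φ : X.functionField ⟶ X.functionField) (hΦ : f ≫ r = r ≫ Φ)
    {U : X.Opens} {p : X} (hp : p ∈ U) (F : U.toScheme ⟶ X) (h : F ⟨p, hp⟩ = p)
    (hF : (ι ∣_ U) ≫ F = (ι ⁻¹ᵁ U).ι ≫ Spec.map f ≫ ι) :
    germEndo hp F h ≫ toK X p = toK X p ≫ Φ := by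
  apply Spec.map_injective
  rw [← cancel_mono (X.fromSpecStalk p)]
  rw [Spec.map_comp, Spec.map_comp, Category.assoc, Category.assoc, SpecMap_germEndo,
    toK_fromSpecStalk]
  -- factor through the pullback
  have hsq : (Spec.map (toK X p) ≫ toOpen U ⟨p, hp⟩) ≫ U.ι = Spec.map r ≫ ι := by
    rw [hr, Category.assoc, toOpen_ι, toK_fromSpecStalk]
  obtain ⟨g, g2, g1⟩ := (isPullback_morphismRestrict ι U).exists_lift _ _ hsq
  rw [← Category.assoc, ← g2, Category.assoc, hF, ← Category.assoc, g1, ← Category.assoc,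
    ← Spec.map_comp, hΦ, Spec.map_comp, Category.assoc, hr]

end SAFP
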