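import Mathlib
import Pool.Agent.Lib.MP_4eb9bb_ag.Sch1

open AlgebraicGeometry CategoryTheory TopologicalSpace IsLocalRing

namespace SAFP

theorem isDominant_of_injective {R S : CommRingCat.{0}} (f : R ⟶ S)
    (hf : Function.Injective f.hom) : IsDominant (Spec.map f) := by
  refine ⟨?_⟩
  have h1 := (PrimeSpectrum.denseRange_comap_iff_ker_le_nilRadical f.hom).mpr (by
    rw [(RingHom.injective_iff_ker_eq_bot _).mp hf]
    exact bot_le)
  exact h1

/-- A point outside the affine chart is not the centre of a valuation which is finite on the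
chart. -/
theorem no_valuation {X : Scheme.{0}} [IsIntegral X] {k : CommRingCat.{0}}
    (s : X ⟶ Spec k) [IsSeparated s] {R : CommRingCat.{0}}
    (ι : Spec R ⟶ X) (r : R ⟶ X.functionField)
    (hr : Spec.map r ≫ ι = X.fromSpecStalk (genericPoint X)) (p : X)
    (hpr : p ∉ Set.range ι) :
    ¬ ∃ V : ValuationSubring X.functionField, (∀ a, (toK X p).hom a ∈ V) ∧
      (∀ a ∈ maximalIdeal (X.presheaf.stalk p), (toK X p).hom a ∈ V.nonunits) ∧
      ∀ P, r.hom P ∈ V := by
  rintro ⟨V, h1, h2, h3⟩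
  let VR : CommRingCat.{0} := CommRingCat.of V
  let a : X.presheaf.stalk p ⟶ VR := CommRingCat.ofHom ((toK X p).hom.codRestrict V h1)
  let b : R ⟶ VR := CommRingCat.ofHom (r.hom.codRestrict V h3)
  let i : VR ⟶ X.functionField := CommRingCat.ofHom V.subtype
  have hai : a ≫ i = toK X p := by
    ext x; rfl
  have hbi : b ≫ i = r := by
    ext x; rfl
  have hiinj : Function.Injective i.hom := Subtype.val_injective
  have hdom : IsDominant (Spec.map i) := isDominant_of_injective i hiinj
  have hg1 : Spec.map i ≫ Spec.map b ≫ ι = X.fromSpecStalk (genericPoint X) := by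
    rw [← Category.assoc, ← Spec.map_comp, hbi, hr]
  have hg2 : Spec.map i ≫ Spec.map a ≫ X.fromSpecStalk p = X.fromSpecStalk (genericPoint X) := by
    rw [← Category.assoc, ← Spec.map_comp, hai, toK_fromSpecStalk]
  have hover : (Spec.map b ≫ ι) ≫ s = (Spec.map a ≫ X.fromSpecStalk p) ≫ s := by
    obtain ⟨c1, hc1⟩ : ∃ c, Spec.map c = (Spec.map b ≫ ι) ≫ s := ⟨_, Spec.map_preimage _⟩
    obtain ⟨c2, hc2⟩ : ∃ c, Spec.map c = (Spec.map a ≫ X.fromSpecStalk p) ≫ s :=
      ⟨_, Spec.map_preimage _⟩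
    have h4 : c1 ≫ i = c2 ≫ i := by
      apply Spec.map_injective
      rw [Spec.map_comp, Spec.map_comp, hc1, hc2, ← Category.assoc, hg1, ← Category.assoc, hg2]
    have h5 : c1 = c2 := by
      ext x
      exact congrArg (fun φ : k ⟶ X.functionField => φ.hom x) h4
    rw [← hc1, ← hc2, h5]
  have heq : Spec.map b ≫ ι = Spec.map a ≫ X.fromSpecStalk p :=
    ext_of_isDominant_of_isSeparated s hover (Spec.map i) (by rw [hg1, hg2])
  have hloc : IsLocalHom a.hom := by
    refine ⟨fun x hx => ?_⟩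
    by_contra hne
    have h6 := h2 x ((mem_maximalIdeal _).mpr hne)
    rw [V.mem_nonunits_iff_exists_mem_maximalIdeal] at h6
    obtain ⟨h7, h8⟩ := h6
    exact (mem_maximalIdeal _).mp h8 hx
  have hpt : (Spec.map a ≫ X.fromSpecStalk p) (closedPoint V) = p := by
    rw [Scheme.Hom.comp_apply]
    have h9 : Spec.map a (closedPoint V) = closedPoint (X.presheaf.stalk p) :=
      Spec_closedPoint (S := VR)
    rw [h9, Scheme.fromSpecStalk_closedPoint]
  apply hpr
  refine ⟨Spec.map b (closedPoint V), ?_⟩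
  rw [← Scheme.Hom.comp_apply, heq, hpt]

end SAFP
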