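import Mathlib
import Pool.Agent.Lib.MP_4eb9bb_ag.Sch2

open AlgebraicGeometry CategoryTheory TopologicalSpace IsLocalRing

namespace SAFP

/-- The structure map of the local ring. -/
noncomputable def cO {X : Scheme.{0}} {k : CommRingCat.{0}} (s : X ⟶ Spec k) (p : X) :
    k ⟶ X.presheaf.stalk p := Spec.preimage (X.fromSpecStalk p ≫ s)

theorem SpecMap_cO {X : Scheme.{0}} {k : CommRingCat.{0}} (s : X ⟶ Spec k) (p : X) :
    Spec.map (cO s p) = X.fromSpecStalk p ≫ s := Spec.map_preimage _

/-- Closed points are rational. -/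
theorem closed_rational {X : Scheme.{0}} (s : X ⟶ Spec (.of ℂ)) [LocallyOfFiniteType s] (p : X)
    (hp : IsClosed {p}) (a : X.presheaf.stalk p) :
    ∃ c : ℂ, a - (cO s p).hom c ∈ maximalIdeal (X.presheaf.stalk p) := by
  have h1 : (residueFieldIsoBase s p hp).inv = cO s p ≫ X.residue p := by
    apply Spec.map_injective
    rw [SpecMap_residueFieldIsoBase_inv, Spec.map_comp, SpecMap_cO, ← Category.assoc]
    rfl
  refine ⟨(residueFieldIsoBase s p hp).hom.hom ((X.residue p).hom a), ?_⟩
  set c := (residueFieldIsoBase s p hp).hom.hom ((X.residue p).hom a) with hc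
  have h2 : (X.residue p).hom ((cO s p).hom c) = (X.residue p).hom a := by
    have h3 : (residueFieldIsoBase s p hp).inv.hom c = (X.residue p).hom a := by
      rw [hc]
      have h4 := (residueFieldIsoBase s p hp).hom_inv_id
      have h5 := congrArg (fun φ => φ.hom ((X.residue p).hom a)) h4
      exact h5
    rw [h1] at h3
    exact h3
  have h6 : (IsLocalRing.residue (X.presheaf.stalk p)) (a - (cO s p).hom c) = 0 := by
    rw [map_sub, sub_eq_zero]
    exact h2.symm
  exact (IsLocalRing.residue_eq_zero_iff _).mp h6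

/-- Local rings are localizations of finitely generated algebras. -/
theorem stalk_essentially_fg {X : Scheme.{0}} (s : X ⟶ Spec (.of ℂ)) [LocallyOfFiniteType s]
    (p : X) :
    letI : Algebra ℂ (X.presheaf.stalk p) := (cO s p).hom.toAlgebra
    ∃ A : Subalgebra ℂ (X.presheaf.stalk p), A.FG ∧ ∀ x : X.presheaf.stalk p,
      ∃ a ∈ A, ∃ b ∈ A, b ∉ maximalIdeal (X.presheaf.stalk p) ∧ x * b = a := by
  let : Algebra ℂ (X.presheaf.stalk p) := (cO s p).hom.toAlgebra
  obtain ⟨_, ⟨V, hV, rfl⟩, hpV, -⟩ :=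
    X.isBasis_affineOpens.exists_subset_of_mem_open (Set.mem_univ p) isOpen_univ
  have hft := s.finiteType_appLE (isAffineOpen_top (Spec (.of ℂ))) hV (le_top)
  let ψ : CommRingCat.of ℂ ⟶ Γ(X, V) := (Scheme.ΓSpecIso (.of ℂ)).inv ≫ s.appLE ⊤ V le_top
  have hψ : ψ.hom.FiniteType := by
    refine RingHom.FiniteType.comp hft ?_
    exact RingHom.FiniteType.of_surjective _
      (Scheme.ΓSpecIso (.of ℂ)).symm.commRingCatIsoToRingEquiv.surjective
  have hgerm : ψ ≫ X.presheaf.germ V p hpV = cO s p := by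
    apply Spec.map_injective
    rw [SpecMap_cO, ← hV.fromSpecStalk_eq_fromSpecStalk hpV, IsAffineOpen.fromSpecStalk,
      Spec.map_comp, Spec.map_comp, Category.assoc, 
      ← IsAffineOpen.SpecMap_appLE_fromSpec s (isAffineOpen_top (Spec (.of ℂ))) hV le_top,
      IsAffineOpen.fromSpec_top, Scheme.isoSpec_Spec_inv]
  let : Algebra ℂ Γ(X, V) := ψ.hom.toAlgebra
  have hfin : Algebra.FiniteType ℂ Γ(X, V) := hψ
  let g : Γ(X, V) →ₐ[ℂ] X.presheaf.stalk p :=
    { (X.presheaf.germ V p hpV).hom with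
      commutes' := fun c => by
        have := congrArg (fun φ => φ.hom c) hgerm
        exact this }
  refine ⟨g.range, ?_, ?_⟩
  · rw [← Algebra.map_top]
    exact hfin.out.map g
  · intro x
    have hloc := hV.isLocalization_stalk ⟨p, hpV⟩
    let := TopCat.Presheaf.algebra_section_stalk X.presheaf (⟨p, hpV⟩ : V)
    obtain ⟨⟨a, b⟩, hab⟩ := IsLocalization.surj
      (hV.primeIdealOf ⟨p, hpV⟩).asIdeal.primeCompl x
    refine ⟨g a, ⟨a, rfl⟩, g b, ⟨b, rfl⟩, ?_, hab⟩
    rw [mem_maximalIdeal, mem_nonunits_iff, not_not]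
    exact IsLocalization.map_units (X.presheaf.stalk p) b

end SAFP
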