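import Mathlib
import Pool.Agent.Lib.MP_4eb9bb_ag.Sch3
import Pool.Agent.Lib.MP_4eb9bb_ag.Core5

open AlgebraicGeometry CategoryTheory TopologicalSpace IsLocalRing

namespace SAFP

theorem germEndo_local {X : Scheme.{0}} {U : X.Opens} {p : X} (hp : p ∈ U)
    (F : U.toScheme ⟶ X) (h : F ⟨p, hp⟩ = p) (a : X.presheaf.stalk p)
    (ha : a ∈ maximalIdeal (X.presheaf.stalk p)) :
    (germEndo hp F h).hom a ∈ maximalIdeal (X.presheaf.stalk p) := by
  rw [mem_maximalIdeal, mem_nonunits_iff] at ha ⊢
  intro hu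
  apply ha
  have h1 : IsUnit ((U.stalkIso ⟨p, hp⟩).inv.hom ((germEndo hp F h).hom a)) := hu.map _
  have h2 : (U.stalkIso ⟨p, hp⟩).inv.hom ((germEndo hp F h).hom a) =
      (F.stalkMap ⟨p, hp⟩).hom ((X.presheaf.stalkSpecializes (specializes_of_eq h)).hom a) := by
    have h3 : germEndo hp F h ≫ (U.stalkIso ⟨p, hp⟩).inv =
        X.presheaf.stalkSpecializes (specializes_of_eq h) ≫ F.stalkMap ⟨p, hp⟩ := by
      rw [germEndo, Category.assoc, Category.assoc, Iso.hom_inv_id, Category.comp_id]
    exact congrArg (fun φ => φ.hom a) h3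
  rw [h2] at h1
  have h4 : IsUnit ((X.presheaf.stalkSpecializes (specializes_of_eq h)).hom a) :=
    (isUnit_map_iff (F.stalkMap ⟨p, hp⟩).hom _).mp h1
  have h5 := h4.map (X.presheaf.stalkSpecializes (specializes_of_eq h.symm)).hom
  have h6 : X.presheaf.stalkSpecializes (specializes_of_eq h) ≫
      X.presheaf.stalkSpecializes (specializes_of_eq h.symm) = 𝟙 _ := by
    rw [TopCat.Presheaf.stalkSpecializes_comp]
    exact TopCat.Presheaf.stalkSpecializes_refl _ _
  have h7 : (X.presheaf.stalkSpecializes (specializes_of_eq h.symm)).hom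
      ((X.presheaf.stalkSpecializes (specializes_of_eq h)).hom a) = a :=
    congrArg (fun φ => φ.hom a) h6
  rwa [h7] at h5

theorem no_super {X : Scheme.{0}} [IsIntegral X] (s : X ⟶ Spec (.of ℂ)) [IsSeparated s]
    [LocallyOfFiniteType s] (ι : Spec (.of R3) ⟶ X) [IsOpenImmersion ι]
    (hover : ι ≫ s = Spec.map (CommRingCat.ofHom (algebraMap ℂ R3))) (p : X)
    (hpc : IsClosed {p}) (hpr : p ∉ Set.range ι) (U : X.Opens) (hp : p ∈ U)
    (F : U.toScheme ⟶ X) (h : F ⟨p, hp⟩ = p)
    (hF : (ι ∣_ U) ≫ F = (ι ⁻¹ᵁ U).ι ≫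
      Spec.map (CommRingCat.ofHom (fE : R3 →+* R3)) ≫ ι) (N : ℕ)
    (hN : ∀ a ∈ maximalIdeal (X.presheaf.stalk p),
      (germEndo hp F h).hom^[N] a ∈ maximalIdeal (X.presheaf.stalk p) ^ 2) : False := by
  have hdom : IsDomain (CommRingCat.of R3) := inferInstanceAs (IsDomain R3)
  obtain ⟨r, hr, hfrac⟩ := exists_coordinate_map (CommRingCat.of R3) ι
  have hval := no_valuation s ι r hr p hpr
  obtain hfg := stalk_essentially_fg s p
  have hres := closed_rational s p hpc
  let : Algebra ℂ (X.presheaf.stalk p) := (cO s p).hom.toAlgebra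
  let : Algebra R3 X.functionField := r.hom.toAlgebra
  let : Algebra ℂ X.functionField := (cO s p ≫ toK X p).hom.toAlgebra
  have hfrac' : IsFractionRing R3 X.functionField := hfrac
  have t1 : IsScalarTower ℂ (X.presheaf.stalk p) X.functionField :=
    IsScalarTower.of_algebraMap_eq fun x => rfl
  have t2 : IsScalarTower ℂ R3 X.functionField := by
    refine IsScalarTower.of_algebraMap_eq fun x => ?_
    have h1 : cO s p ≫ toK X p = CommRingCat.ofHom (algebraMap ℂ R3) ≫ r := by
      apply Spec.map_injective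
      rw [Spec.map_comp, SpecMap_cO, ← Category.assoc, toK_fromSpecStalk, ← hr, Category.assoc,
        hover, ← Spec.map_comp]
    exact congrArg (fun φ => φ.hom x) h1
  have hle : nonZeroDivisors R3 ≤ (nonZeroDivisors R3).comap (fE : R3 →+* R3) := by
    intro x hx
    rw [Submonoid.mem_comap, mem_nonZeroDivisors_iff_ne_zero]
    intro h0
    exact nonZeroDivisors.ne_zero hx ((map_eq_zero_iff _ fE.injective).mp h0)
  let Φ : X.functionField →+* X.functionField :=
    IsLocalization.map (M := nonZeroDivisors R3) (T := nonZeroDivisors R3) X.functionField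
      (fE : R3 →+* R3) hle
  have hΦ : ∀ P : R3, Φ (algebraMap R3 X.functionField P) =
      algebraMap R3 X.functionField (fE P) := fun P => IsLocalization.map_eq hle P
  have hcompat := germEndo_compat ι r hr (CommRingCat.ofHom (fE : R3 →+* R3))
    (CommRingCat.ofHom Φ) (CommRingCat.hom_ext (RingHom.ext fun P => (hΦ P).symm)) hp F h hF
  refine core (O := X.presheaf.stalk p) (K := X.functionField) hres hfg ?_ Φ hΦ
    (germEndo hp F h).hom ?_ (germEndo_local hp F h) N ?_
  · exact hval
  · intro a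
    exact (congrArg (fun φ => φ.hom a) hcompat).symm
  · intro a ha
    rw [RingHom.coe_pow]
    exact hN a ha

end SAFP
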